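import Pool.Agent.Helper87.RF.Cat

/-!
# Spaces with a family of operators: multiplicities
-/

set_option autoImplicit false

namespace Pool.Agent.Helper40.HS

open Module Pool.Agent.Helper87.RF

universe u v

variable {ι : Type*} {K : Type*} [Field K]

section

variable {L V W : Type*} [AddCommGroup L] [Module K L] [AddCommGroup V] [Module K V]
  [AddCommGroup W] [Module K W]

/-- equivariant maps from `L` with values in a subspace -/
def homsIn (l : ι → Module.End K L) (v : ι → Module.End K V) (S : Submodule K V) :
    Submodule K (L →ₗ[K] V) where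
  carrier := {f | f ∈ homs l v ∧ ∀ x, f x ∈ S}
  add_mem' ha hb := ⟨add_mem ha.1 hb.1, fun x => add_mem (ha.2 x) (hb.2 x)⟩
  zero_mem' := ⟨zero_mem _, fun _ => zero_mem _⟩
  smul_mem' c _ ha := ⟨Submodule.smul_mem _ c ha.1, fun x => S.smul_mem c (ha.2 x)⟩

/-- the multiplicity -/
noncomputable def mu (l : ι → Module.End K L) (v : ι → Module.End K V) (S : Submodule K V) : ℕ :=
  finrank K (homsIn l v S)

variable {l : ι → Module.End K L} {v : ι → Module.End K V} {w : ι → Module.End K W}

theorem mem_homsIn {S : Submodule K V} {f : L →ₗ[K] V} :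
    f ∈ homsIn l v S ↔ f ∈ homs l v ∧ ∀ x, f x ∈ S := Iff.rfl

/-- maps with values in a stable subspace -/
def resEquiv {S : Submodule K V} (hS : Stable v S) :
    homsIn l v S ≃ₗ[K] homs l (res v hS) where
  toFun f := ⟨f.1.codRestrict S f.2.2, fun i x => Subtype.ext (f.2.1 i x)⟩
  invFun g := ⟨S.subtype ∘ₗ g.1, fun i x => congrArg Subtype.val (g.2 i x), fun x => (g.1 x).2⟩
  map_add' _ _ := rfl
  map_smul' _ _ := rfl
  left_inv _ := rfl
  right_inv _ := rfl

theorem mu_eq {S : Submodule K V} (hS : Stable v S) :
    mu l v S = finrank K (homs l (res v hS)) := (resEquiv hS).finrank_eq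

variable [FiniteDimensional K L]

theorem finite_homsIn (S : Submodule K V) [FiniteDimensional K S] :
    FiniteDimensional K (homsIn l v S) := by
  let f : homsIn l v S →ₗ[K] (L →ₗ[K] S) :=
    { toFun := fun f => f.1.codRestrict S f.2.2
      map_add' := fun _ _ => rfl
      map_smul' := fun _ _ => rfl }
  refine FiniteDimensional.of_injective f ?_
  intro a b hab
  apply Subtype.ext
  ext x
  exact congrArg Subtype.val (LinearMap.congr_fun hab x)

theorem mu_mono {S T : Submodule K V} [FiniteDimensional K T] (h : S ≤ T) :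
    mu l v S ≤ mu l v T := by
  have := finite_homsIn (l := l) (v := v) T
  exact Submodule.finrank_mono fun f hf => ⟨hf.1, fun x => h (hf.2 x)⟩

omit [FiniteDimensional K L] in
theorem mu_bot : mu l v (⊥ : Submodule K V) = 0 := by
  have : homsIn l v (⊥ : Submodule K V) = ⊥ := by
    rw [eq_bot_iff]
    intro f hf
    rw [Submodule.mem_bot]
    ext x
    exact (Submodule.mem_bot K).1 (hf.2 x)
  rw [mu, this, finrank_bot]

theorem mu_sup {S T : Submodule K V} [FiniteDimensional K S] [FiniteDimensional K T]
    (hS : Stable v S) (hT : Stable v T) (hd : Disjoint S T) :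
    mu l v (S ⊔ T) = mu l v S + mu l v T := by
  have f1 := finite_homsIn (l := l) (v := v) S
  have f2 := finite_homsIn (l := l) (v := v) T
  have h1 := Submodule.finrank_sup_add_finrank_inf_eq (homsIn l v S) (homsIn l v T)
  have h2 : homsIn l v S ⊓ homsIn l v T = ⊥ := by
    rw [eq_bot_iff]
    rintro f ⟨hf, hf'⟩
    rw [Submodule.mem_bot]
    ext x
    exact Submodule.disjoint_def.1 hd _ (hf.2 x) (hf'.2 x)
  have h3 : homsIn l v S ⊔ homsIn l v T = homsIn l v (S ⊔ T) := by
    apply le_antisymm
    · refine sup_le ?_ ?_
      · exact fun f hf => ⟨hf.1, fun x => Submodule.mem_sup_left (hf.2 x)⟩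
      · exact fun f hf => ⟨hf.1, fun x => Submodule.mem_sup_right (hf.2 x)⟩
    · intro f hf
      -- decompose inside the sum
      have hc : IsCompl (S.comap (S ⊔ T).subtype) (T.comap (S ⊔ T).subtype) := by
        constructor
        · rw [Submodule.disjoint_def]
          intro x hx hx'
          exact Subtype.ext (Submodule.disjoint_def.1 hd _ hx hx')
        · rw [codisjoint_iff, eq_top_iff]
          rintro ⟨x, hx⟩ -
          obtain ⟨a, ha, b, hb, hab⟩ := Submodule.mem_sup.1 hx
          exact Submodule.mem_sup.2 ⟨⟨a, Submodule.mem_sup_left ha⟩, ha,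
            ⟨b, Submodule.mem_sup_right hb⟩, hb, Subtype.ext hab⟩
      let p := Submodule.projection _ _ hc
      have hp : ∀ x : (S ⊔ T : Submodule K V), (p x : V) ∈ S ∧ (x : V) - p x ∈ T := by
        intro x
        refine ⟨Submodule.projection_apply_mem hc x, ?_⟩
        have h4 := Submodule.projection_apply_mem hc.symm x
        have h5 : x = p x + Submodule.projection _ _ hc.symm x := by
          have := Submodule.projection_add_projection_eq_self hc x
          exact this.symm
        have h6 : (x : V) - p x = (Submodule.projection _ _ hc.symm x : (S ⊔ T : Submodule K V)) := by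
          nth_rewrite 1 [h5]
          simp
        rw [h6]
        exact h4
      have huniq : ∀ x a : V, ∀ hx : x ∈ S ⊔ T, a ∈ S → x - a ∈ T → (p ⟨x, hx⟩ : V) = a := by
        intro x a hx ha hxa
        have h4 := hp ⟨x, hx⟩
        have h5 : (p ⟨x, hx⟩ : V) - a ∈ S := sub_mem h4.1 ha
        have h6 : (p ⟨x, hx⟩ : V) - a ∈ T := by
          have := sub_mem hxa h4.2
          simpa using this
        exact sub_eq_zero.1 (Submodule.disjoint_def.1 hd _ h5 h6)
      let g : L →ₗ[K] V := (S ⊔ T).subtype ∘ₗ p ∘ₗ f.codRestrict (S ⊔ T) hf.2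
      have hg : ∀ x, g x = (p ⟨f x, hf.2 x⟩ : V) := fun x => rfl
      have hg1 : g ∈ homsIn l v S := by
        refine ⟨fun i x => ?_, fun x => (hp _).1⟩
        rw [hg]
        apply huniq
        · rw [hg]
          exact hS i _ (hp _).1
        · rw [hg, hf.1 i x, ← map_sub]
          exact hT i _ (hp ⟨f x, hf.2 x⟩).2
      have hg2 : f - g ∈ homsIn l v T := by
        refine ⟨sub_mem hf.1 hg1.1, fun x => ?_⟩
        rw [LinearMap.sub_apply, hg]
        exact (hp ⟨f x, hf.2 x⟩).2
      rw [show f = g + (f - g) by abel]
      exact Submodule.add_mem_sup hg1 hg2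
  rw [h2, finrank_bot, h3] at h1
  unfold mu
  omega

omit [FiniteDimensional K L] in
theorem mu_map {f : V →ₗ[K] W} (hf : f ∈ homs v w) {S : Submodule K V} (hS : Stable v S)
    (hinj : ∀ x ∈ S, f x = 0 → x = 0) : mu l w (S.map f) = mu l v S := by
  have hi : Function.Injective (f.domRestrict S) := by
    rw [injective_iff_map_eq_zero]
    intro x hx
    exact Subtype.ext (hinj x x.2 hx)
  have hr : LinearMap.range (f.domRestrict S) = S.map f := LinearMap.range_domRestrict S f
  let e : S ≃ₗ[K] LinearMap.range (f.domRestrict S) := LinearEquiv.ofInjective _ hi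
  have he : ∀ x : S, (e x : W) = f x := fun x => rfl
  symm
  refine LinearEquiv.finrank_eq ?_
  have hsol : ∀ y : W, y ∈ S.map f → y ∈ LinearMap.range (f.domRestrict S) := fun y hy => by
    rw [hr]; exact hy
  exact
    { toFun := fun g => ⟨f ∘ₗ g.1, homs_comp g.2.1 hf, fun x => ⟨g.1 x, g.2.2 x, rfl⟩⟩
      map_add' := fun a b => by
        apply Subtype.ext
        ext x
        simp
      map_smul' := fun c a => by
        apply Subtype.ext
        ext x
        simp
      invFun := fun g => ⟨S.subtype ∘ₗ e.symm.toLinearMap ∘ₗ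
        g.1.codRestrict (LinearMap.range (f.domRestrict S)) (fun x => hsol _ (g.2.2 x)), by
          constructor
          · intro i x
            have h1 : ∀ x, f (e.symm ⟨g.1 x, hsol _ (g.2.2 x)⟩ : V) = g.1 x := by
              intro x
              rw [← he, LinearEquiv.apply_symm_apply]
            have h2 : ∀ a b : V, a ∈ S → b ∈ S → f a = f b → a = b := by
              intro a b ha hb hab
              exact sub_eq_zero.1 (hinj _ (sub_mem ha hb) (by rw [map_sub, hab, sub_self]))
            apply h2
            · exact (e.symm _).2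
            · exact hS i _ (e.symm _).2
            · rw [hf]
              change f (e.symm ⟨g.1 _, hsol _ (g.2.2 _)⟩ : V) =
                w i (f (e.symm ⟨g.1 x, hsol _ (g.2.2 x)⟩ : V))
              rw [h1, h1, g.2.1]
          · intro x
            exact (e.symm _).2⟩
      left_inv := fun g => by
        apply Subtype.ext
        ext x
        change ((e.symm _ : S) : V) = _
        have : (⟨f (g.1 x), hsol _ ⟨g.1 x, g.2.2 x, rfl⟩⟩ : LinearMap.range (f.domRestrict S)) =
            e ⟨g.1 x, g.2.2 x⟩ := Subtype.ext rfl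
        refine (congrArg (fun z => ((e.symm z : S) : V)) this).trans ?_
        rw [LinearEquiv.symm_apply_apply]
      right_inv := fun g => by
        apply Subtype.ext
        ext x
        change f (e.symm ⟨g.1 x, hsol _ (g.2.2 x)⟩ : V) = g.1 x
        rw [← he, LinearEquiv.apply_symm_apply] }

end

end Pool.Agent.Helper40.HS
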