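import Pool.Agent.Helper40.HS.Cat

/-!
# Complete reducibility and reconstruction from the multiplicities
-/

set_option autoImplicit false

namespace Pool.Agent.Helper40.HS

open Module Pool.Agent.Helper87.RF

universe u v

variable {ι : Type*} {K : Type*} [Field K]

/-- simple spaces -/
def Simple {L : Type*} [AddCommGroup L] [Module K L] (l : ι → Module.End K L) : Prop :=
  (∃ x : L, x ≠ 0) ∧ ∀ T : Submodule K L, Stable l T → T ≠ ⊥ → T = ⊤

section

variable {L V W : Type*} [AddCommGroup L] [Module K L] [AddCommGroup V] [Module K V]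
  [AddCommGroup W] [Module K W] {l : ι → Module.End K L} {v : ι → Module.End K V}
  {w : ι → Module.End K W}

/-- Schur -/
theorem Simple.injective (hl : Simple l) {f : L →ₗ[K] V} (hf : f ∈ homs l v) (h0 : f ≠ 0) :
    Function.Injective f := by
  rw [← LinearMap.ker_eq_bot]
  by_contra hk
  have h1 := hl.2 _ (Stable.ker hf) hk
  apply h0
  ext x
  have : x ∈ LinearMap.ker f := by rw [h1]; trivial
  exact this

theorem simple_res {S : Submodule K V} (hS : Stable v S) (hS0 : S ≠ ⊥)
    (hs : ∀ T ≤ S, Stable v T → T ≠ ⊥ → T = S) : Simple (res v hS) := by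
  constructor
  · obtain ⟨x, hx, hx0⟩ := (Submodule.ne_bot_iff _).1 hS0
    exact ⟨⟨x, hx⟩, fun h => hx0 (congrArg Subtype.val h)⟩
  · intro T hT hT0
    have h1 := hs _ (Submodule.map_subtype_le S T) (hS.map_subtype hT) (by
      intro h
      exact hT0 (Submodule.map_injective_of_injective S.injective_subtype
        (by rw [h, Submodule.map_bot])))
    rw [eq_top_iff]
    rintro x -
    have hx : (x : V) ∈ T.map S.subtype := by rw [h1]; exact x.2
    obtain ⟨y, hy, hyx⟩ := hx
    have : y = x := Subtype.ext hyx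
    rwa [← this]

end

theorem exists_embed_simple (d : ℕ) : ∀ {V : Type u} [AddCommGroup V] [Module K V]
    [FiniteDimensional K V] {W : Type v} [AddCommGroup W] [Module K W] [FiniteDimensional K W]
    (v : ι → Module.End K V) (w : ι → Module.End K W), finrank K V = d → CR v → CR w →
    (∀ (L : Type u) [AddCommGroup L] [Module K L] [FiniteDimensional K L]
      (l : ι → Module.End K L), Simple l → finrank K (homs l v) ≤ finrank K (homs l w)) →
    Emb v w := by
  induction d using Nat.strong_induction_on with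
  | _ d ih =>
    intro V _ _ _ W _ _ _ v w hd hv hw hle
    rcases Nat.eq_zero_or_pos d with hd0 | hdpos
    · have hs : Subsingleton V := by
        rw [hd0] at hd
        exact Module.finrank_zero_iff.1 hd
      exact ⟨0, Submodule.zero_mem _, Function.injective_of_subsingleton _⟩
    obtain ⟨S, hS, hS0, hsimple⟩ := exists_simple v (by rw [hd]; exact hdpos)
    have hsim := simple_res hS hS0 hsimple
    -- a nonzero map from `S` to `W`
    have h1 : 0 < finrank K (homs (res v hS) v) := by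
      rw [Module.finrank_pos_iff_exists_ne_zero]
      refine ⟨⟨S.subtype, fun i x => rfl⟩, fun h0 => hS0 ?_⟩
      rw [eq_bot_iff]
      intro x hx
      have h2 : S.subtype = 0 := congrArg Subtype.val h0
      have h3 : S.subtype ⟨x, hx⟩ = 0 := by rw [h2]; rfl
      exact h3
    have h2 := lt_of_lt_of_le h1 (hle S (res v hS) hsim)
    rw [Module.finrank_pos_iff_exists_ne_zero] at h2
    obtain ⟨⟨h, hh⟩, hne⟩ := h2
    have hinj : Function.Injective h := hsim.injective hh fun h0 => hne (Subtype.ext h0)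
    obtain ⟨S1, hS1, hc⟩ := hv S hS
    have hR : Stable w (LinearMap.range h) := Stable.range hh
    obtain ⟨R1, hR1, hcR⟩ := hw _ hR
    have hdim : finrank K S1 < d := by
      have e1 := Submodule.finrank_add_eq_of_isCompl hc
      have e2 : 0 < finrank K S := by
        rw [Nat.pos_iff_ne_zero]
        intro h0
        exact hS0 (Submodule.finrank_eq_zero.1 h0)
      omega
    obtain ⟨g, hg, gi⟩ := ih _ hdim (res v hS1) (res w hR1) rfl (hv.res hS1) (hw.res hR1)
      (fun L _ _ _ l hl => by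
        have e1 := finrank_homs_compl (w := l) hS hS1 hc
        have e2 := finrank_homs_compl (w := l) hR hR1 hcR
        have e3 : finrank K (homs l (res v hS)) = finrank K (homs l (res w hR)) :=
          finrank_homs_equiv (LinearEquiv.ofInjective h hinj) (fun i x => Subtype.ext (hh i x))
        have e4 := hle L l hl
        omega)
    refine ⟨LinearMap.ofIsCompl hc h (R1.subtype ∘ₗ g), ?_, ?_⟩
    · intro i x
      have hx : x ∈ S ⊔ S1 := by rw [hc.sup_eq_top]; trivial
      obtain ⟨a, ha, b, hb, rfl⟩ := Submodule.mem_sup.1 hx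
      have e1 : ∀ s : S, LinearMap.ofIsCompl hc h (R1.subtype ∘ₗ g) s.1 = h s :=
        fun s => LinearMap.ofIsCompl_apply_left hc s
      have e2 : ∀ s : S1, LinearMap.ofIsCompl hc h (R1.subtype ∘ₗ g) s.1 = (g s : W) :=
        fun s => LinearMap.ofIsCompl_apply_right hc s
      rw [map_add, map_add, map_add, map_add]
      congr 1
      · rw [e1 ⟨a, ha⟩, e1 ⟨v i a, hS i a ha⟩, ← hh i ⟨a, ha⟩]
        rfl
      · rw [e2 ⟨b, hb⟩, e2 ⟨v i b, hS1 i b hb⟩]
        exact congrArg Subtype.val (hg i ⟨b, hb⟩)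
    · rw [injective_iff_map_eq_zero]
      intro x hx0
      have hx : x ∈ S ⊔ S1 := by rw [hc.sup_eq_top]; trivial
      obtain ⟨a, ha, b, hb, rfl⟩ := Submodule.mem_sup.1 hx
      have e1 : LinearMap.ofIsCompl hc h (R1.subtype ∘ₗ g) a = h ⟨a, ha⟩ :=
        LinearMap.ofIsCompl_apply_left hc ⟨a, ha⟩
      have e2 : LinearMap.ofIsCompl hc h (R1.subtype ∘ₗ g) b = (g ⟨b, hb⟩ : W) :=
        LinearMap.ofIsCompl_apply_right hc ⟨b, hb⟩
      rw [map_add, e1, e2] at hx0
      have e3 : h ⟨a, ha⟩ = 0 := by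
        refine Submodule.disjoint_def.1 hcR.disjoint _ ⟨_, rfl⟩ ?_
        rw [eq_neg_of_add_eq_zero_left hx0]
        exact R1.neg_mem (g ⟨b, hb⟩).2
      rw [e3, zero_add] at hx0
      have e4 : (⟨a, ha⟩ : S) = 0 := hinj (by rw [e3, map_zero])
      have e5 : (⟨b, hb⟩ : S1) = 0 := gi (by rw [map_zero]; exact Subtype.ext hx0)
      have e6 : a = 0 := congrArg Subtype.val e4
      have e7 : b = 0 := congrArg Subtype.val e5
      rw [e6, e7, add_zero]

section

variable {V W : Type*} [AddCommGroup V] [Module K V] [AddCommGroup W] [Module K W]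
  {v : ι → Module.End K V} {w : ι → Module.End K W}

theorem stable_sup {S T : Submodule K V} (hS : Stable v S) (hT : Stable v T) :
    Stable v (S ⊔ T) := by
  intro i x hx
  obtain ⟨a, ha, b, hb, rfl⟩ := Submodule.mem_sup.1 hx
  rw [map_add]
  exact Submodule.add_mem_sup (hS i a ha) (hT i b hb)

theorem stable_inf {S T : Submodule K V} (hS : Stable v S) (hT : Stable v T) :
    Stable v (S ⊓ T) := fun i x hx => ⟨hS i x hx.1, hT i x hx.2⟩

theorem stable_map {f : V →ₗ[K] W} (hf : f ∈ homs v w) {S : Submodule K V} (hS : Stable v S) :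
    Stable w (S.map f) := by
  rintro i _ ⟨x, hx, rfl⟩
  exact ⟨v i x, hS i x hx, hf i x⟩

theorem stable_comap {f : V →ₗ[K] W} (hf : f ∈ homs v w) {S : Submodule K W}
    (hS : Stable w S) : Stable v (S.comap f) := by
  intro i x hx
  change f (v i x) ∈ S
  rw [hf i x]
  exact hS i _ hx

theorem stable_bot : Stable v (⊥ : Submodule K V) := by
  intro i x hx
  rw [Submodule.mem_bot] at hx ⊢
  rw [hx, map_zero]

/-- complete reducibility of a stable subspace -/
def CRin (v : ι → Module.End K V) (S : Submodule K V) : Prop :=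
  Stable v S ∧ ∀ T ≤ S, Stable v T → ∃ T' ≤ S, Stable v T' ∧ Disjoint T T' ∧ T ⊔ T' = S

theorem CRin.cr {S : Submodule K V} (h : CRin v S) : CR (res v h.1) := by
  intro T hT
  obtain ⟨T', hT', hst, hd, hs⟩ := h.2 _ (Submodule.map_subtype_le S T) (h.1.map_subtype hT)
  refine ⟨T'.comap S.subtype, h.1.comap_subtype hst, ?_, ?_⟩
  · rw [Submodule.disjoint_def]
    intro x hx hx'
    exact Subtype.ext (Submodule.disjoint_def.1 hd _ ⟨x, hx, rfl⟩ hx')
  · rw [codisjoint_iff, eq_top_iff]
    rintro ⟨x, hx⟩ -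
    rw [← hs] at hx
    obtain ⟨_, ⟨a, ha, rfl⟩, b, hb, hab⟩ := Submodule.mem_sup.1 hx
    exact Submodule.mem_sup.2 ⟨a, ha, ⟨b, hT' hb⟩, hb, Subtype.ext hab⟩

theorem CRin.of_cr {S : Submodule K V} (hS : Stable v S) (h : CR (res v hS)) : CRin v S := by
  refine ⟨hS, fun T hTS hT => ?_⟩
  obtain ⟨T', hT', hc⟩ := h _ (hS.comap_subtype hT)
  refine ⟨T'.map S.subtype, Submodule.map_subtype_le S T', hS.map_subtype hT', ?_, ?_⟩
  · rw [Submodule.disjoint_def]
    rintro _ hx ⟨x, hx', rfl⟩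
    exact congrArg Subtype.val (Submodule.disjoint_def.1 hc.disjoint x hx hx')
  · apply le_antisymm (sup_le hTS (Submodule.map_subtype_le S T'))
    intro x hx
    have h1 : (⟨x, hx⟩ : S) ∈ T.comap S.subtype ⊔ T' := by rw [hc.sup_eq_top]; trivial
    obtain ⟨a, ha, b, hb, hab⟩ := Submodule.mem_sup.1 h1
    exact Submodule.mem_sup.2 ⟨a, ha, b, ⟨b, hb, rfl⟩, congrArg Subtype.val hab⟩

theorem CRin.mono {S T : Submodule K V} (h : CRin v S) (hT : Stable v T) (hTS : T ≤ S) :
    CRin v T := by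
  refine ⟨hT, fun U hUT hU => ?_⟩
  obtain ⟨U', hU', hst, hd, hs⟩ := h.2 U (hUT.trans hTS) hU
  refine ⟨U' ⊓ T, inf_le_right, fun i x hx => ⟨hst i x hx.1, hT i x hx.2⟩,
    hd.mono_right inf_le_left, ?_⟩
  apply le_antisymm (sup_le hUT inf_le_right)
  intro x hx
  have h1 : x ∈ U ⊔ U' := by rw [hs]; exact hTS hx
  obtain ⟨a, ha, b, hb, hab⟩ := Submodule.mem_sup.1 h1
  refine Submodule.mem_sup.2 ⟨a, ha, b, ⟨hb, ?_⟩, hab⟩
  rw [show b = x - a by rw [← hab]; abel]
  exact sub_mem hx (hUT ha)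

/-- complete reducibility passes to sums -/
theorem CRin.sup {S T : Submodule K V} (hS : CRin v S) (hT : CRin v T) :
    CRin v (S ⊔ T) := by
  refine ⟨stable_sup hS.1 hT.1, fun U hU hst => ?_⟩
  -- the part in `T` and the image in `S`
  obtain ⟨T1, hT1, hT1s, hT1d, hT1e⟩ := hT.2 (U ⊓ T) inf_le_right
    (fun i x hx => ⟨hst i x hx.1, hT.1 i x hx.2⟩)
  obtain ⟨S1, hS1, hS1s, hS1d, hS1e⟩ := hS.2 (S ⊓ (U ⊔ T)) inf_le_left
    (fun i x hx => ⟨hS.1 i x hx.1, (stable_sup hst hT.1) i x hx.2⟩)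
  refine ⟨S1 ⊔ T1, sup_le (hS1.trans le_sup_left) (hT1.trans le_sup_right), stable_sup hS1s hT1s,
    ?_, ?_⟩
  · rw [Submodule.disjoint_def]
    intro x hx hx'
    obtain ⟨a, ha, b, hb, rfl⟩ := Submodule.mem_sup.1 hx'
    have h1 : a ∈ S ⊓ (U ⊔ T) := by
      refine ⟨hS1 ha, ?_⟩
      rw [show a = (a + b) + (-b) by abel]
      exact Submodule.add_mem_sup hx (neg_mem (hT1 hb))
    have h2 : a = 0 := Submodule.disjoint_def.1 hS1d _ h1 ha
    rw [h2, zero_add] at hx ⊢
    exact Submodule.disjoint_def.1 hT1d _ ⟨hx, hT1 hb⟩ hb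
  · apply le_antisymm
    · exact sup_le hU (sup_le (hS1.trans le_sup_left) (hT1.trans le_sup_right))
    · have hTle : T ≤ U ⊔ (S1 ⊔ T1) := by
        rw [← hT1e]
        exact sup_le (inf_le_left.trans le_sup_left) (le_sup_right.trans le_sup_right)
      refine sup_le ?_ hTle
      rw [← hS1e]
      refine sup_le ?_ (le_sup_left.trans le_sup_right)
      rintro x ⟨-, hx⟩
      obtain ⟨a, ha, b, hb, rfl⟩ := Submodule.mem_sup.1 hx
      exact add_mem (Submodule.mem_sup_left ha) (hTle hb)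

theorem CRin.map {f : V →ₗ[K] W} (hf : f ∈ homs v w) {S : Submodule K V} (hS : CRin v S) :
    CRin w (S.map f) := by
  have hst : Stable w (S.map f) := by
    rintro i _ ⟨x, hx, rfl⟩
    exact ⟨v i x, hS.1 i x hx, hf i x⟩
  refine ⟨hst, fun T hT hTs => ?_⟩
  obtain ⟨T', hT', hst', hd, hs⟩ := hS.2 (S ⊓ T.comap f) inf_le_left
    (fun i x hx => ⟨hS.1 i x hx.1, by
      change f (v i x) ∈ T
      rw [hf i x]
      exact hTs i _ hx.2⟩)
  refine ⟨T'.map f, Submodule.map_mono hT', ?_, ?_, ?_⟩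
  · rintro i _ ⟨x, hx, rfl⟩
    exact ⟨v i x, hst' i x hx, hf i x⟩
  · rw [Submodule.disjoint_def]
    rintro _ hx ⟨y, hy, rfl⟩
    rw [Submodule.disjoint_def.1 hd y ⟨hT' hy, hx⟩ hy, map_zero]
  · apply le_antisymm (sup_le hT (Submodule.map_mono hT'))
    rintro _ ⟨x, hx, rfl⟩
    rw [← hs] at hx
    obtain ⟨a, ha, b, hb, rfl⟩ := Submodule.mem_sup.1 hx
    rw [map_add]
    exact Submodule.add_mem_sup ha.2 ⟨b, hb, rfl⟩

theorem CRin.bot : CRin v (⊥ : Submodule K V) := by
  refine ⟨fun i x hx => ?_, fun T hT hst => ⟨⊥, le_rfl, ?_, disjoint_bot_right, ?_⟩⟩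
  · rw [Submodule.mem_bot] at hx ⊢
    rw [hx, map_zero]
  · intro i x hx
    rw [Submodule.mem_bot] at hx ⊢
    rw [hx, map_zero]
  · rw [sup_bot_eq]
    exact le_bot_iff.1 hT

end

/-- the reconstruction -/
theorem emb_of_mu {V : Type u} {W : Type v} [AddCommGroup V] [Module K V] [AddCommGroup W]
    [Module K W] {v : ι → Module.End K V} {w : ι → Module.End K W} {S : Submodule K V}
    {T : Submodule K W} [FiniteDimensional K S] [FiniteDimensional K T] (hS : CRin v S)
    (hT : CRin w T)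
    (h : ∀ (L : Type u) [AddCommGroup L] [Module K L] [FiniteDimensional K L]
      (l : ι → Module.End K L), Simple l → mu l v S ≤ mu l w T) :
    Emb (res v hS.1) (res w hT.1) := by
  refine exists_embed_simple _ _ _ rfl hS.cr hT.cr fun L _ _ _ l hl => ?_
  rw [← mu_eq hS.1, ← mu_eq hT.1]
  exact h L l hl

end Pool.Agent.Helper40.HS
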