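import Pool.Agent.Helper87.RF.Main
import Pool.Agent.Helper7.PN.Main
import Pool.Agent.Helper40.TH.Flat
import Pool.Agent.Helper40.HS.Emb

/-!
# Rational sub-Hodge structures as subspaces stable under operators

For a `ℚ`-linear `λ : ℂ → ℚ` and a column index `d` the operator `(λ ⊗ id) ∘ pr_d` on the rational
cohomology. A rational subspace is a sum of Hodge structures if and only if it is stable under
these operators.
-/

set_option autoImplicit false

namespace Pool.Agent.Hodge7

open Pool.Agent.Hodge81 Module TensorProduct Pool.Agent.Helper40.TH Pool.Agent.Helper40.HS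
  Pool.Agent.Helper87.RF HodgeRing

section

variable {n : ℕ} {A : Type*} [Ring A] [Algebra ℂ A] [Module ℚ A] {X : HodgeRing n A}

namespace RationalCohomology

variable (R : RationalCohomology X)

theorem tau_inj (k : ℕ) : Function.Injective (tau (R.H k)) := by
  have := R.finite k
  refine tau_injective _ ?_
  rw [R.span, R.finrank_eq]

/-- the coordinates with respect to the rational classes of degree `k` -/
noncomputable def coord (k : ℕ) : A →ₗ[ℂ] ℂ ⊗[ℚ] R.H k :=
  (LinearMap.exists_leftInverse_of_injective (tau (R.H k))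
    (LinearMap.ker_eq_bot.2 (R.tau_inj k))).choose

theorem coord_smul {k : ℕ} (c : ℂ) (r : R.H k) : R.coord k (c • (r : A)) = c ⊗ₜ r := by
  have h := (LinearMap.exists_leftInverse_of_injective (tau (R.H k))
    (LinearMap.ker_eq_bot.2 (R.tau_inj k))).choose_spec
  have h2 := LinearMap.congr_fun h (c ⊗ₜ r)
  rw [LinearMap.comp_apply, tau_tmul] at h2
  exact h2

/-- `λ ⊗ id` -/
noncomputable def coef (lam : ℂ →ₗ[ℚ] ℚ) : A →ₗ[ℚ] A :=
  ∑ k ∈ Finset.range (2 * n + 1), (R.H k).subtype ∘ₗ (TensorProduct.lid ℚ (R.H k)).toLinearMap ∘ₗ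
    (LinearMap.rTensor (R.H k) lam) ∘ₗ ((R.coord k ∘ₗ X.part (degSet k)).restrictScalars ℚ)

theorem coef_apply (lam : ℂ →ₗ[ℚ] ℚ) (v : A) : R.coef lam v =
    ∑ k ∈ Finset.range (2 * n + 1), ((TensorProduct.lid ℚ (R.H k)
      (LinearMap.rTensor (R.H k) lam (R.coord k (X.part (degSet k) v))) : R.H k) : A) := by
  unfold coef
  rw [LinearMap.sum_apply]
  rfl

theorem degree_big {k : ℕ} (h : 2 * n < k) : degree X k = ⊥ := by
  rw [eq_bot_iff]
  refine iSup₂_le fun x hx => ?_
  rw [X.bounded _ _ (by omega)]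

theorem H_big {k : ℕ} (h : 2 * n < k) : R.H k = ⊥ := by
  rw [eq_bot_iff]
  intro r hr
  have h1 := R.le_degree hr
  rw [degree_big h] at h1
  exact (Submodule.mem_bot ℚ).2 ((Submodule.mem_bot ℂ).1 h1)

theorem coef_smul_of_mem (lam : ℂ →ₗ[ℚ] ℚ) {k : ℕ} (c : ℂ) {r : A} (hr : r ∈ R.H k) :
    R.coef lam (c • r) = lam c • r := by
  by_cases hk : k ∈ Finset.range (2 * n + 1)
  · rw [coef_apply, Finset.sum_eq_single_of_mem k hk]
    · rw [X.degree_iff.1 (Submodule.smul_mem _ c (R.le_degree hr))]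
      have := R.coord_smul c ⟨r, hr⟩
      rw [this, LinearMap.rTensor_tmul, TensorProduct.lid_tmul]
      rfl
    · intro l _ hl
      rw [X.part_degree_ne (Ne.symm hl) (Submodule.smul_mem _ c (R.le_degree hr))]
      simp
  · rw [R.H_big (by rw [Finset.mem_range] at hk; omega)] at hr
    rw [(Submodule.mem_bot ℚ).1 hr]
    simp

theorem coef_smul (lam : ℂ →ₗ[ℚ] ℚ) (c : ℂ) {r : A} (hr : r ∈ R.classes) :
    R.coef lam (c • r) = lam c • r := by
  unfold classes at hr
  induction hr using Submodule.iSup_induction' with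
  | mem k r hr => exact R.coef_smul_of_mem lam c hr
  | zero => simp
  | add a b _ _ h1 h2 => rw [smul_add, map_add, h1, h2, smul_add]

theorem span_classes : Submodule.span ℂ (R.classes : Set A) = ⊤ := by
  rw [eq_top_iff, ← X.iSup_H]
  refine iSup_le fun x v hv => ?_
  have h1 : v ∈ degree X (x.1 + x.2) := mem_degree X rfl hv
  rw [← R.span] at h1
  exact Submodule.span_mono (fun r hr => R.mem_classes hr) h1

theorem induct_span {W : Submodule ℚ A} {P : A → Prop} (h0 : P 0)
    (hadd : ∀ a b, P a → P b → P (a + b)) (hs : ∀ (c : ℂ), ∀ r ∈ W, P (c • r)) {v : A}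
    (hv : v ∈ Submodule.span ℂ (W : Set A)) : P v := by
  rw [← range_tau] at hv
  obtain ⟨t, rfl⟩ := hv
  induction t with
  | zero => rw [map_zero]; exact h0
  | tmul c v => rw [tau_tmul]; exact hs c v v.2
  | add x y hx hy => rw [map_add]; exact hadd _ _ hx hy

theorem induct_classes {P : A → Prop} (h0 : P 0) (hadd : ∀ a b, P a → P b → P (a + b))
    (hs : ∀ (c : ℂ), ∀ r ∈ R.classes, P (c • r)) (v : A) : P v :=
  induct_span (W := R.classes) h0 hadd hs (by rw [R.span_classes]; trivial)

theorem coef_mem (lam : ℂ →ₗ[ℚ] ℚ) {W : Submodule ℚ A} (hW : W ≤ R.classes) {v : A}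
    (hv : v ∈ Submodule.span ℂ (W : Set A)) : R.coef lam v ∈ W := by
  refine induct_span (W := W) (P := fun v => R.coef lam v ∈ W) (by rw [map_zero]; exact zero_mem _)
    (fun a b ha hb => by rw [map_add]; exact add_mem ha hb) (fun c r hr => ?_) hv
  rw [R.coef_smul lam c (hW hr)]
  exact W.smul_mem _ hr

/-- the expansion with respect to a basis of `ℂ` over `ℚ` -/
theorem expand (v : A) : ∃ s : Finset (Basis.ofVectorSpaceIndex ℚ ℂ), ∀ t, s ⊆ t →
    v = ∑ i ∈ t, (Basis.ofVectorSpace ℚ ℂ i) • R.coef ((Basis.ofVectorSpace ℚ ℂ).coord i) v := by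
  classical
  refine R.induct_classes (P := fun v => ∃ s : Finset (Basis.ofVectorSpaceIndex ℚ ℂ), ∀ t, s ⊆ t →
    v = ∑ i ∈ t, (Basis.ofVectorSpace ℚ ℂ i) • R.coef ((Basis.ofVectorSpace ℚ ℂ).coord i) v)
    ⟨∅, fun t _ => by simp⟩ ?_ ?_ v
  · rintro a b ⟨s1, h1⟩ ⟨s2, h2⟩
    refine ⟨s1 ∪ s2, fun t ht => ?_⟩
    have e1 := h1 t (Finset.union_subset_left ht)
    have e2 := h2 t (Finset.union_subset_right ht)
    simp only [map_add, smul_add, Finset.sum_add_distrib]
    rw [← e1, ← e2]
  · intro c r hr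
    refine ⟨((Basis.ofVectorSpace ℚ ℂ).repr c).support, fun t ht => ?_⟩
    have e1 : ∀ i, (Basis.ofVectorSpace ℚ ℂ i) •
        R.coef ((Basis.ofVectorSpace ℚ ℂ).coord i) (c • r) =
        (((Basis.ofVectorSpace ℚ ℂ).repr c i) • (Basis.ofVectorSpace ℚ ℂ i)) • r := by
      intro i
      rw [R.coef_smul _ c hr, Basis.coord_apply, ← Rat.cast_smul_eq_qsmul ℂ _ r, smul_smul,
        ← Rat.cast_smul_eq_qsmul ℂ _ ((Basis.ofVectorSpace ℚ ℂ) i), smul_eq_mul, mul_comm]
    rw [Finset.sum_congr rfl fun i _ => e1 i, ← Finset.sum_smul]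
    congr 1
    have e2 := (Basis.ofVectorSpace ℚ ℂ).linearCombination_repr c
    rw [Finsupp.linearCombination_apply, Finsupp.sum_of_support_subset _ ht _ (by simp)] at e2
    exact e2.symm

theorem mem_span_of_coef {W : Submodule ℚ A} {v : A} (h : ∀ lam, R.coef lam v ∈ W) :
    v ∈ Submodule.span ℂ (W : Set A) := by
  obtain ⟨s, hs⟩ := R.expand v
  rw [hs s (Finset.Subset.refl s)]
  exact Submodule.sum_mem _ fun i _ => Submodule.smul_mem _ _ (Submodule.subset_span (h _))

theorem mem_span_iff {W : Submodule ℚ A} (hW : W ≤ R.classes) {v : A} :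
    v ∈ Submodule.span ℂ (W : Set A) ↔ ∀ lam, R.coef lam v ∈ W :=
  ⟨fun h lam => R.coef_mem lam hW h, R.mem_span_of_coef⟩

/-- a vector whose coefficients vanish is zero -/
theorem eq_zero_of_coef {v : A} (h : ∀ lam, R.coef lam v = 0) : v = 0 := by
  have h1 := R.mem_span_of_coef (W := ⊥) (v := v) (fun lam => by rw [h]; exact zero_mem _)
  simpa using h1

/-- the operators -/
noncomputable def ops : ℤ × (ℂ →ₗ[ℚ] ℚ) → Module.End ℚ A := fun x =>
  R.coef x.2 ∘ₗ (X.part (colSet x.1)).restrictScalars ℚ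

theorem ops_apply (x : ℤ × (ℂ →ₗ[ℚ] ℚ)) (v : A) :
    R.ops x v = R.coef x.2 (X.part (colSet x.1) v) := rfl

/-- stable subspaces -/
theorem stable_iff {W : Submodule ℚ A} (hW : W ≤ R.classes) : Stable R.ops W ↔
    ∀ d, ∀ v ∈ Submodule.span ℂ (W : Set A),
      X.part (colSet d) v ∈ Submodule.span ℂ (W : Set A) := by
  constructor
  · intro h d v hv
    have h1 : Submodule.span ℂ (W : Set A) ≤
        (Submodule.span ℂ (W : Set A)).comap (X.part (colSet d)) := by
      rw [Submodule.span_le]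
      intro w hw
      exact R.mem_span_of_coef fun lam => h (d, lam) w hw
    exact h1 hv
  · rintro h ⟨d, lam⟩ w hw
    exact R.coef_mem lam hW (h d w (Submodule.subset_span hw))

theorem H_le_classes (k : ℕ) : R.H k ≤ R.classes := fun _ hr => R.mem_classes hr

theorem stable_H (k : ℕ) : Stable R.ops (R.H k) := by
  rw [R.stable_iff (R.H_le_classes k)]
  intro d v hv
  rw [R.span] at hv ⊢
  change _ ∈ X.degree k
  rw [X.degree_iff, X.part_comm, X.degree_iff.1 hv]

theorem finite_classes : Module.Finite ℚ R.classes := by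
  have h1 : R.classes = (Finset.range (2 * n + 1)).sup R.H := by
    apply le_antisymm
    · refine iSup_le fun k => ?_
      by_cases hk : k ∈ Finset.range (2 * n + 1)
      · exact Finset.le_sup hk
      · rw [R.H_big (by rw [Finset.mem_range] at hk; omega)]
        exact bot_le
    · exact Finset.sup_le fun k _ => R.H_le_classes k
  rw [h1]
  have : ∀ k, FiniteDimensional ℚ (R.H k) := R.finite
  exact Submodule.finiteDimensional_finset_sup _ _

end RationalCohomology

end

section

variable {n : ℕ} {A B : Type*} [Ring A] [Algebra ℂ A] [Module ℚ A] [Ring B] [Algebra ℂ B]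
  [Module ℚ B] {X : HodgeRing n A} {Y : HodgeRing n B}

/-- a linear map which respects the rational classes commutes with `λ ⊗ id` -/
theorem coef_comm (R : RationalCohomology X) (S : RationalCohomology Y) {m : A →ₗ[ℂ] B}
    (hm : ∀ r ∈ R.classes, m r ∈ S.classes) (lam : ℂ →ₗ[ℚ] ℚ) (v : A) :
    m (R.coef lam v) = S.coef lam (m v) := by
  refine R.induct_classes (P := fun v => m (R.coef lam v) = S.coef lam (m v)) (by simp)
    (fun a b ha hb => by simp only [map_add, ha, hb]) (fun c r hr => ?_) v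
  rw [R.coef_smul lam c hr, map_smul m c r, S.coef_smul lam c (hm r hr)]
  exact map_rat_smul m _ _

theorem mem_homs (R : RationalCohomology X) (S : RationalCohomology Y) {m : A →ₗ[ℂ] B}
    (hm : ∀ r ∈ R.classes, m r ∈ S.classes)
    (hc : ∀ d v, m (X.part (colSet d) v) = Y.part (colSet d) (m v)) :
    (m.restrictScalars ℚ) ∈ homs R.ops S.ops := by
  rintro ⟨d, lam⟩ v
  change m (R.coef lam (X.part (colSet d) v)) = S.coef lam (Y.part (colSet d) (m v))
  rw [coef_comm R S hm, hc]

end

end Pool.Agent.Hodge7
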