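import Mathlib

/-!
# Counting strings
-/

set_option autoImplicit false

namespace Pool.Agent.Helper40.HS

open Finset

theorem abel_one (b p : ℕ → ℕ) (M : ℕ) (h : ∀ c < M, b c = p c + b (c + 1)) :
    b 0 + 2 * ∑ c ∈ range M, b (c + 1) =
      ∑ c ∈ range M, (2 * c + 1) * p c + (2 * M + 1) * b M := by
  induction M with
  | zero => simp
  | succ M ih =>
    rw [sum_range_succ, sum_range_succ, mul_add, ← add_assoc, ih fun c hc => h c (by omega),
      h M (by omega)]
    ring

theorem abel_two (b p : ℕ → ℕ) (M : ℕ) (h : ∀ c < M, b c = p c + b (c + 1)) :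
    ∑ c ∈ range (M + 1), b c = ∑ c ∈ range M, (c + 1) * p c + (M + 1) * b M := by
  induction M with
  | zero => simp
  | succ M ih =>
    rw [sum_range_succ, sum_range_succ (fun c => (c + 1) * p c), ih fun c hc => h c (by omega),
      h M (by omega)]
    ring

variable {n : ℕ} {a p : ℕ → ℕ}

theorem count_even (hs : ∀ k ≤ n, a (2 * n - k) = a k) (hp : ∀ k, k + 2 ≤ n → a (k + 2) = p (k + 2) + a k)
    (h1 : ∀ k ≤ 1, a k = p k) :
    ∑ k ∈ (range (2 * n + 1)).filter (fun k => k % 2 = n % 2), a k =
      ∑ c ∈ range (n / 2 + 1), (2 * c + 1) * p (n - 2 * c) := by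
  have e1 : (range (2 * n + 1)).filter (fun k => k % 2 = n % 2) =
      (range (n / 2 + 1)).image (fun c => n - 2 * c) ∪
        (range (n / 2)).image (fun c => n + 2 * (c + 1)) := by
    ext k
    simp only [mem_filter, mem_range, mem_union, mem_image]
    constructor
    · rintro ⟨h2, h3⟩
      rcases Nat.lt_or_ge n k with h | h
      · right
        exact ⟨(k - n) / 2 - 1, by omega, by omega⟩
      · left
        exact ⟨(n - k) / 2, by omega, by omega⟩
    · rintro (⟨c, hc, rfl⟩ | ⟨c, hc, rfl⟩)
      · constructor <;> omega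
      · constructor <;> omega
  have e2 : Disjoint ((range (n / 2 + 1)).image (fun c => n - 2 * c))
      ((range (n / 2)).image (fun c => n + 2 * (c + 1))) := by
    rw [disjoint_left]
    simp only [mem_image, mem_range, not_exists, not_and]
    rintro k ⟨c, hc, rfl⟩ c' hc'
    omega
  rw [e1, sum_union e2, sum_image (by
    intro c hc c' hc' h
    simp only [coe_range, Set.mem_Iio] at hc hc' h
    omega), sum_image (by
    intro c hc c' hc' h
    simp only at h
    omega)]
  have e3 : ∑ c ∈ range (n / 2), a (n + 2 * (c + 1)) = ∑ c ∈ range (n / 2), a (n - 2 * (c + 1)) := by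
    refine sum_congr rfl fun c hc => ?_
    rw [mem_range] at hc
    rw [← hs (n - 2 * (c + 1)) (by omega)]
    congr 1
    omega
  have e4 := abel_one (fun c => a (n - 2 * c)) (fun c => p (n - 2 * c)) (n / 2) (fun c hc => by
    have h5 := hp (n - 2 * c - 2) (by omega)
    have h6 : n - 2 * c - 2 + 2 = n - 2 * c := by omega
    have h7 : n - 2 * c - 2 = n - 2 * (c + 1) := by omega
    rw [h6, h7] at h5
    exact h5)
  have e5 : a (n - 2 * (n / 2)) = p (n - 2 * (n / 2)) := h1 _ (by omega)
  rw [e3, sum_range_succ' (fun c => a (n - 2 * c)), sum_range_succ]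
  simp only [mul_zero, Nat.sub_zero] at e4 ⊢
  rw [e5] at e4
  omega

theorem count_odd (hs : ∀ k ≤ n, a (2 * n - k) = a k) (hp : ∀ k, k + 2 ≤ n → a (k + 2) = p (k + 2) + a k)
    (h1 : ∀ k ≤ 1, a k = p k) :
    ∑ k ∈ (range (2 * n + 1)).filter (fun k => k % 2 = (n + 1) % 2), a k =
      ∑ c ∈ range ((n + 1) / 2), (2 * c + 2) * p (n - 1 - 2 * c) := by
  rcases Nat.eq_zero_or_pos n with rfl | hn
  · have : (range (2 * 0 + 1)).filter (fun k => k % 2 = (0 + 1) % 2) = ∅ := by decide
    rw [this]
    simp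
  have e1 : (range (2 * n + 1)).filter (fun k => k % 2 = (n + 1) % 2) =
      (range ((n + 1) / 2)).image (fun c => n - 1 - 2 * c) ∪
        (range ((n + 1) / 2)).image (fun c => n + 1 + 2 * c) := by
    ext k
    simp only [mem_filter, mem_range, mem_union, mem_image]
    constructor
    · rintro ⟨h2, h3⟩
      rcases Nat.lt_or_ge n k with h | h
      · right
        exact ⟨(k - n) / 2, by omega, by omega⟩
      · left
        exact ⟨(n - k) / 2, by omega, by omega⟩
    · rintro (⟨c, hc, rfl⟩ | ⟨c, hc, rfl⟩)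
      · constructor <;> omega
      · constructor <;> omega
  have e2 : Disjoint ((range ((n + 1) / 2)).image (fun c => n - 1 - 2 * c))
      ((range ((n + 1) / 2)).image (fun c => n + 1 + 2 * c)) := by
    rw [disjoint_left]
    simp only [mem_image, mem_range, not_exists, not_and]
    rintro k ⟨c, hc, rfl⟩ c' hc'
    omega
  rw [e1, sum_union e2, sum_image (by
    intro c hc c' hc' h
    simp only [coe_range, Set.mem_Iio] at hc hc' h
    omega), sum_image (by
    intro c hc c' hc' h
    simp only at h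
    omega)]
  have e3 : ∑ c ∈ range ((n + 1) / 2), a (n + 1 + 2 * c) =
      ∑ c ∈ range ((n + 1) / 2), a (n - 1 - 2 * c) := by
    refine sum_congr rfl fun c hc => ?_
    rw [mem_range] at hc
    rw [← hs (n - 1 - 2 * c) (by omega)]
    congr 1
    omega
  obtain ⟨M, hM⟩ : ∃ M, (n + 1) / 2 = M + 1 := ⟨(n + 1) / 2 - 1, by omega⟩
  have e4 := abel_two (fun c => a (n - 1 - 2 * c)) (fun c => p (n - 1 - 2 * c)) M (fun c hc => by
    have h5 := hp (n - 1 - 2 * c - 2) (by omega)
    have h6 : n - 1 - 2 * c - 2 + 2 = n - 1 - 2 * c := by omega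
    have h7 : n - 1 - 2 * c - 2 = n - 1 - 2 * (c + 1) := by omega
    rw [h6, h7] at h5
    exact h5)
  have e5 : a (n - 1 - 2 * M) = p (n - 1 - 2 * M) := h1 _ (by omega)
  change ∑ c ∈ range (M + 1), a (n - 1 - 2 * c) = _ + (M + 1) * a (n - 1 - 2 * M) at e4
  rw [e5] at e4
  rw [e3, hM, e4, ← two_mul, mul_add, sum_range_succ, mul_sum]
  congr 1
  · refine sum_congr rfl fun c _ => ?_
    ring
  · ring

/-- the index set of the strings of sign `t` -/
def strings (n t : ℕ) : Finset (ℕ × ℕ) :=
  (range (n / 2 + 1) ×ˢ range (n / 2 + 1)).filter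
    (fun x => x.2 < x.1 ∨ (x.2 = x.1 ∧ x.1 % 2 = t % 2))

theorem sum_strings (n t : ℕ) (f : ℕ → ℕ) : ∑ x ∈ strings n t, f x.1 =
    ∑ c ∈ range (n / 2 + 1), (c + if c % 2 = t % 2 then 1 else 0) * f c := by
  unfold strings
  rw [sum_filter, sum_product]
  refine sum_congr rfl fun c hc => ?_
  rw [mem_range] at hc
  simp only
  have e1 : ∀ i ∈ range (n / 2 + 1), (if i < c ∨ (i = c ∧ c % 2 = t % 2) then f c else 0) =
      (if i < c then f c else 0) + (if i = c then (if c % 2 = t % 2 then f c else 0) else 0) := by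
    intro i _
    by_cases h1 : i < c
    · rw [if_pos (Or.inl h1), if_pos h1, if_neg (by omega), add_zero]
    · rw [if_neg h1, zero_add]
      by_cases h2 : i = c
      · by_cases h3 : c % 2 = t % 2
        · rw [if_pos (Or.inr ⟨h2, h3⟩), if_pos h2, if_pos h3]
        · rw [if_neg (by tauto), if_pos h2, if_neg h3]
      · rw [if_neg (by tauto), if_neg h2]
  rw [sum_congr rfl e1, sum_add_distrib, ← sum_filter, sum_const, smul_eq_mul]
  have e2 : (range (n / 2 + 1)).filter (fun i => i < c) = range c := by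
    ext i
    simp only [mem_filter, mem_range]
    omega
  have e3 : ∑ i ∈ range (n / 2 + 1), (if i = c then (if c % 2 = t % 2 then f c else 0) else 0) =
      if c % 2 = t % 2 then f c else 0 := by
    rw [sum_ite_eq' (range (n / 2 + 1)) c, if_pos (mem_range.2 hc)]
  rw [e2, card_range, e3, add_mul]
  congr 1
  split_ifs <;> simp

/-- both signs together -/
theorem sum_both (n : ℕ) (f : ℕ → ℕ) : ∑ x ∈ strings n 0, f x.1 + ∑ x ∈ strings n 1, f x.1 =
    ∑ c ∈ range (n / 2 + 1), (2 * c + 1) * f c := by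
  rw [sum_strings, sum_strings, ← sum_add_distrib]
  refine sum_congr rfl fun c _ => ?_
  rw [← add_mul]
  congr 1
  rcases Nat.mod_two_eq_zero_or_one c with h | h
  · rw [h]
    norm_num
    ring
  · rw [h]
    norm_num
    ring

end Pool.Agent.Helper40.HS
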