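import Pool.Agent.Helper7.PN.Defs

/-!
# Rational sub-Hodge structures and their isomorphisms
-/

set_option autoImplicit false

namespace Pool.Agent.Hodge7

open Pool.Agent.Hodge81 Module

section

variable {n : ℕ} {A : Type*} [Ring A] [Algebra ℂ A] [Module ℚ A] {X : HodgeRing n A}

/-- `W` is a rational sub-Hodge structure of `H^j(X, ℚ)`: the complex subspace which it spans is
the sum of its intersections with the `H^{p,q}` -/
def RationalCohomology.IsSub (R : RationalCohomology X) (j : ℕ) (W : Submodule ℚ A) : Prop :=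
  W ≤ R.H j ∧ Submodule.span ℂ (W : Set A) ≤
    ⨆ x : ℕ × ℕ, Submodule.span ℂ (W : Set A) ⊓ X.H x.1 x.2

/-- the smallest rational sub-Hodge structure of `H^k(X, ℚ)` whose complexification contains all
`H^{p,q}` with `p + q = k` and `q - p ≥ m`. For `m = k` this is the rational Hodge structure
generated by the holomorphic forms of degree `k`, for `m = 0` it is `H^k(X, ℚ)`. -/
def RationalCohomology.level (R : RationalCohomology X) (k m : ℕ) : Submodule ℚ A :=
  sInf {W | R.IsSub k W ∧
    ∀ p q : ℕ, p + q = k → p + m ≤ q → X.H p q ≤ Submodule.span ℂ (W : Set A)}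

end

/-- isomorphic rational Hodge structures: there is an isomorphism of the complexifications which
matches the rational classes and the classes of type `(p, q)` -/
def HodgeIso {n : ℕ} {A B : Type*} [Ring A] [Algebra ℂ A] [Module ℚ A] [Ring B] [Algebra ℂ B]
    [Module ℚ B] (X : HodgeRing n A) (Y : HodgeRing n B) (V : Submodule ℚ A)
    (W : Submodule ℚ B) : Prop :=
  ∃ e : Submodule.span ℂ (V : Set A) ≃ₗ[ℂ] Submodule.span ℂ (W : Set B),
    (∀ v : Submodule.span ℂ (V : Set A), (v : A) ∈ V ↔ (e v : B) ∈ W) ∧
    ∀ (p q : ℕ) (v : Submodule.span ℂ (V : Set A)), (v : A) ∈ X.H p q ↔ (e v : B) ∈ Y.H p q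

end Pool.Agent.Hodge7
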