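import Pool.Agent.Helper40.HS.Two

/-!
# Rational Hodge structures of derived equivalent varieties
-/

set_option autoImplicit false

namespace Pool.Agent.Hodge7

open Pool.Agent.Hodge81 Module TensorProduct Pool.Agent.Helper40.TH Pool.Agent.Helper40.HS
  Pool.Agent.Helper87.RF HodgeRing Complex

universe u v

variable {n : ℕ} {A : Type u} {B : Type v} [Ring A] [Algebra ℂ A] [Module ℚ A] [Ring B]
  [Algebra ℂ B] [Module ℚ B] {X : HodgeRing n A} {Y : HodgeRing n B} {P : PolyvectorAction X}
  {Q : PolyvectorAction Y} {phi : A ≃ₗ[ℂ] B}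
  [FiniteDimensional ℂ A] [FiniteDimensional ℂ B]
  {R : RationalCohomology X} {S : RationalCohomology Y}

section mult

variable {L : Type*} [AddCommGroup L] [Module ℚ L] [FiniteDimensional ℚ L]
  (l : ℤ × (ℂ →ₗ[ℚ] ℚ) → Module.End ℚ L)

omit [FiniteDimensional ℂ B] in
theorem lefs (R : RationalCohomology X) :
    Lefs n (fun k => mu l R.ops (R.H k)) (fun k => mu l R.ops (R.prim k)) where
  serre _ hk := R.mu_serre l hk
  prim _ hk := R.mu_prim l hk
  low _ hk := R.mu_low l hk

theorem idents (hM : IsMukaiIsometry X Y phi) (hR : IsRational R S phi) :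
    Idents n (fun k => mu l R.ops (R.prim k)) (fun k => mu l S.ops (S.prim k)) where
  sig _ ht := sig_eq l hM hR ht
  odd := odd_eq l hM hR

/-- injective evaluation maps give equal multiplicities in the forms -/
theorem mu_forms_eq (h : IsHochschildIso P Q phi) (hM : IsMukaiIsometry X Y phi)
    (hR : IsRational R S phi) {j : ℕ}
    (hI : ∀ y ∈ Y.H 0 j, evalE X phi y = 0 → y = 0)
    (hI' : ∀ x ∈ X.H 0 j, evalE Y phi.symm x = 0 → x = 0) :
    mu l R.ops (R.forms j) = mu l S.ops (S.forms j) := by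
  obtain ⟨-, h1, h2⟩ := hodgeIso_forms (R := R) (S := S) h hM hR hI hI'
  have := R.finite j
  have := S.finite j
  have f1 : FiniteDimensional ℚ (R.forms j) := Submodule.finiteDimensional_of_le (R.forms_le j)
  have f2 : FiniteDimensional ℚ (S.forms j) := Submodule.finiteDimensional_of_le (S.forms_le j)
  exact le_antisymm (mu_le_of_emb _ _ h2) (mu_le_of_emb _ _ h1)

theorem mu_forms_gen (h : IsHochschildIso P Q phi) (hM : IsMukaiIsometry X Y phi)
    (hR : IsRational R S phi) {j : ℕ} (hX : X.H 0 j ≤ X.genPart j)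
    (hY : Y.H 0 j ≤ Y.genPart j) :
    mu l R.ops (R.forms j) = mu l S.ops (S.forms j) :=
  mu_forms_eq l h hM hR (fun _ hy h0 => eval_inj_gen h j (hY hy) h0)
    (fun _ hx h0 => eval_inj_gen h.symm j (hX hx) h0)

/-- the three top degrees -/
theorem mu_top (hM : IsMukaiIsometry X Y phi) (hR : IsRational R S phi) (hl : Simple l) {j : ℕ}
    (hj : j ≤ n) (hj2 : n ≤ j + 2) (hc : RationalCohomology.HasCol l j) :
    mu l R.ops (R.H j) = mu l S.ops (S.H j) := by
  have hprim : mu l R.ops (R.prim j) = mu l S.ops (S.prim j) := by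
    obtain rfl | h1 | h2 : j = n ∨ n = j + 1 ∨ n = j + 2 := by omega
    · have h := sig_eq l hM hR (t := 0) (by omega)
      rw [Finset.sum_eq_single_of_mem 0 (by simp), Finset.sum_eq_single_of_mem 0 (by simp)] at h
      · simpa using h
      · intro c hc' hc0
        rw [Finset.mem_range] at hc'
        rw [S.mu_zero_prim hl hc (by omega), mul_zero]
      · intro c hc' hc0
        rw [Finset.mem_range] at hc'
        rw [R.mu_zero_prim hl hc (by omega), mul_zero]
    · subst h1
      have h := odd_eq l hM hR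
      rw [Finset.sum_eq_single_of_mem 0 (by rw [Finset.mem_range]; omega),
        Finset.sum_eq_single_of_mem 0 (by rw [Finset.mem_range]; omega)] at h
      · simpa using h
      · intro c hc' hc0
        rw [Finset.mem_range] at hc'
        rw [S.mu_zero_prim hl hc (by omega), mul_zero]
      · intro c hc' hc0
        rw [Finset.mem_range] at hc'
        rw [R.mu_zero_prim hl hc (by omega), mul_zero]
    · subst h2
      have h := sig_eq l hM hR (t := 1) (by omega)
      rw [Finset.sum_eq_single_of_mem 1 (by rw [Finset.mem_range]; omega),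
        Finset.sum_eq_single_of_mem 1 (by rw [Finset.mem_range]; omega)] at h
      · simpa using h
      · intro c hc' hc0
        rw [Finset.mem_range] at hc'
        rcases Nat.eq_zero_or_pos c with rfl | hpos
        · simp
        · rw [S.mu_zero_prim hl hc (by omega), mul_zero]
      · intro c hc' hc0
        rw [Finset.mem_range] at hc'
        rcases Nat.eq_zero_or_pos c with rfl | hpos
        · simp
        · rw [R.mu_zero_prim hl hc (by omega), mul_zero]
  rcases Nat.lt_or_ge j 2 with h2 | h2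
  · rw [R.mu_low l (by omega), S.mu_low l (by omega), hprim]
  · obtain ⟨k, rfl⟩ : ∃ k, j = k + 2 := ⟨j - 2, by omega⟩
    rw [R.mu_prim l hj, S.mu_prim l hj, hprim, R.mu_zero_H (k := k) hl hc (by omega),
      S.mu_zero_H (k := k) hl hc (by omega)]

/-- the multiplicities in the forms of good degrees -/
theorem mu_forms_good (h : IsHochschildIso P Q phi) (hM : IsMukaiIsometry X Y phi)
    (hR : IsRational R S phi) (hl : Simple l) {j : ℕ} (hj : GoodDegree X Y j) :
    mu l R.ops (R.forms j) = mu l S.ops (S.forms j) := by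
  rcases Nat.lt_or_ge n j with hnj | hnj
  · have e1 : R.forms j = ⊥ := by
      rw [eq_bot_iff]
      exact R.forms_min bot_le stable_bot (by rw [X.bounded _ _ (Or.inr hnj)]; exact bot_le)
    have e2 : S.forms j = ⊥ := by
      rw [eq_bot_iff]
      exact S.forms_min bot_le stable_bot (by rw [Y.bounded _ _ (Or.inr hnj)]; exact bot_le)
    rw [e1, e2, mu_bot, mu_bot]
  rcases hj with h2 | htop | ⟨hX, hY⟩ | ⟨k, hk, hne⟩
  · exact mu_forms_gen l h hM hR (H_le_gen X h2) (H_le_gen Y h2)
  · by_cases hc : RationalCohomology.HasCol l j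
    · rw [R.mu_forms_of hl hc, S.mu_forms_of hl hc]
      exact mu_top l hM hR hl hnj htop hc
    · rw [R.mu_forms_not hc, S.mu_forms_not hc]
  · exact mu_forms_gen l h hM hR hX hY
  · have hne' : Y.genPart k ≠ ⊥ := by
      intro h0
      have h3 : finrank ℂ (X.genPart k) = finrank ℂ (Y.genPart k) :=
        lowPart_finrank h P.eval P.kerOne P.kerTwo Q.eval Q.kerOne Q.kerTwo k
      rw [h0, finrank_bot] at h3
      exact hne (Submodule.finrank_eq_zero.1 h3)
    exact mu_forms_eq l h hM hR (fun _ hy h0 => eval_inj_reach h hM hk hne j hy h0)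
      (fun _ hx h0 => eval_inj_reach h.symm hM.symm hk hne' j hx h0)

theorem mu_zero_eq (h : IsHochschildIso P Q phi) (hM : IsMukaiIsometry X Y phi)
    (hR : IsRational R S phi) : mu l R.ops (R.H 0) = mu l S.ops (S.H 0) := by
  rw [← R.forms_zero, ← S.forms_zero]
  exact mu_forms_gen l h hM hR (H_le_gen X (by omega)) (H_le_gen Y (by omega))

theorem mu_one_eq (h : IsHochschildIso P Q phi) (hM : IsMukaiIsometry X Y phi)
    (hR : IsRational R S phi) : mu l R.ops (R.H 1) = mu l S.ops (S.H 1) := by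
  rw [← R.forms_one, ← S.forms_one]
  exact mu_forms_gen l h hM hR (H_le_gen X (by omega)) (H_le_gen Y (by omega))

theorem mu_two_eq (h : IsHochschildIso P Q phi) (hM : IsMukaiIsometry X Y phi)
    (hR : IsRational R S phi) (hp : R.picard = S.picard) :
    mu l R.ops (R.H 2) = mu l S.ops (S.H 2) := by
  rw [R.mu_two l, S.mu_two l, mu_divisors l hp,
    mu_forms_gen l h hM hR (H_le_gen X (by omega)) (H_le_gen Y (by omega))]

omit [FiniteDimensional ℂ A] [FiniteDimensional ℂ B] [FiniteDimensional ℚ L] in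
theorem mu_big {j : ℕ} (hj : 2 * n < j) : mu l R.ops (R.H j) = mu l S.ops (S.H j) := by
  rw [R.H_big hj, S.H_big hj, mu_bot, mu_bot]

/-- odd degrees in dimension at most five -/
theorem mu_odd_eq (h : IsHochschildIso P Q phi) (hM : IsMukaiIsometry X Y phi)
    (hR : IsRational R S phi) (hn : n ≤ 5) {j : ℕ} (hj : j % 2 = 1) :
    mu l R.ops (R.H j) = mu l S.ops (S.H j) := by
  rcases Nat.lt_or_ge (2 * n) j with hb | hb
  · exact mu_big l hb
  · exact nums_odd (lefs l R) (lefs l S) (idents l hM hR) hn (mu_one_eq l h hM hR) j hb hj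

/-- even degrees in dimension at most six -/
theorem mu_even_eq (h : IsHochschildIso P Q phi) (hM : IsMukaiIsometry X Y phi)
    (hR : IsRational R S phi) (hn : n ≤ 6) (hp : n ≤ 4 ∨ R.picard = S.picard) {j : ℕ}
    (hj : j % 2 = 0) : mu l R.ops (R.H j) = mu l S.ops (S.H j) := by
  rcases Nat.lt_or_ge (2 * n) j with hb | hb
  · exact mu_big l hb
  · exact nums_even (lefs l R) (lefs l S) (idents l hM hR) hn (mu_zero_eq l h hM hR)
      (hp.imp id fun hp => mu_two_eq l h hM hR hp) j hb hj

end mult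

/-- equal multiplicities in one degree -/
theorem hodgeIso_H {j : ℕ}
    (h1 : ∀ (L : Type u) [AddCommGroup L] [Module ℚ L] [FiniteDimensional ℚ L]
      (l : ℤ × (ℂ →ₗ[ℚ] ℚ) → Module.End ℚ L), mu l R.ops (R.H j) = mu l S.ops (S.H j))
    (h2 : ∀ (L : Type v) [AddCommGroup L] [Module ℚ L] [FiniteDimensional ℚ L]
      (l : ℤ × (ℂ →ₗ[ℚ] ℚ) → Module.End ℚ L), mu l R.ops (R.H j) = mu l S.ops (S.H j)) :
    HodgeIso X Y (R.H j) (S.H j) :=
  hodgeIso_of_mu le_rfl le_rfl (R.stable_H j) (S.stable_H j) (fun L _ _ _ l _ => (h1 L l).le)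
    (fun L _ _ _ l _ => (h2 L l).ge)

/-- the final statement -/
theorem hodge_structures_main (X : HodgeRing n A) (Y : HodgeRing n B) (P : PolyvectorAction X)
    (Q : PolyvectorAction Y) (R : RationalCohomology X) (S : RationalCohomology Y)
    (phi : A ≃ₗ[ℂ] B) (hphi : IsHochschildIso P Q phi) (hM : IsMukaiIsometry X Y phi)
    (hR : IsRational R S phi) :
    (∀ j, GoodDegree X Y j → HodgeIso X Y (R.forms j) (S.forms j)) ∧
    (n ≤ 4 → ∀ j, HodgeIso X Y (R.H j) (S.H j)) ∧
    (n ≤ 5 → ∀ j, Odd j → HodgeIso X Y (R.H j) (S.H j)) ∧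
    (n ≤ 6 → ((∀ j, Even j → HodgeIso X Y (R.H j) (S.H j)) ↔ R.picard = S.picard)) ∧
    (HodgeIso X Y (R.H 2) (S.H 2) ↔ R.picard = S.picard) ∧
    X.h 1 1 + S.picard = Y.h 1 1 + R.picard ∧
    (n ≤ 5 → ((∀ p q, X.h p q = Y.h p q) ↔ R.picard = S.picard)) := by
  have hodd : n ≤ 5 → ∀ j, Odd j → HodgeIso X Y (R.H j) (S.H j) := fun hn j hj =>
    hodgeIso_H (fun L _ _ _ l => mu_odd_eq l hphi hM hR hn (Nat.odd_iff.1 hj))
      (fun L _ _ _ l => mu_odd_eq l hphi hM hR hn (Nat.odd_iff.1 hj))
  have heven : n ≤ 6 → (n ≤ 4 ∨ R.picard = S.picard) → ∀ j, Even j →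
      HodgeIso X Y (R.H j) (S.H j) := fun hn hp j hj =>
    hodgeIso_H (fun L _ _ _ l => mu_even_eq l hphi hM hR hn hp (Nat.even_iff.1 hj))
      (fun L _ _ _ l => mu_even_eq l hphi hM hR hn hp (Nat.even_iff.1 hj))
  obtain ⟨hpic1, hpic2⟩ := picard_main X Y P Q R S phi hphi hM hR
  refine ⟨fun j hj => ?_, fun hn j => ?_, hodd, fun hn => ⟨fun h => ?_, fun h => ?_⟩,
    ⟨picard_eq_of_iso, fun h => ?_⟩, hpic1, hpic2⟩
  · exact hodgeIso_of_mu (R.forms_le j) (S.forms_le j) (R.forms_stable j) (S.forms_stable j)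
      (fun L _ _ _ l hl => (mu_forms_good l hphi hM hR hl hj).le)
      (fun L _ _ _ l hl => (mu_forms_good l hphi hM hR hl hj).ge)
  · rcases Nat.even_or_odd j with he | ho
    · exact heven (by omega) (Or.inl hn) j he
    · exact hodd (by omega) j ho
  · exact picard_eq_of_iso (h 2 even_two)
  · exact heven hn (Or.inr h)
  · exact hodgeIso_H (fun L _ _ _ l => mu_two_eq l hphi hM hR h)
      (fun L _ _ _ l => mu_two_eq l hphi hM hR h)

end Pool.Agent.Hodge7
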