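import Pool.Agent.Helper40.HS.Iso

/-!
# The rational Hodge structure generated by the holomorphic forms of one degree
-/

set_option autoImplicit false

namespace Pool.Agent.Hodge7

open Pool.Agent.Hodge81 Module TensorProduct Pool.Agent.Helper40.TH Pool.Agent.Helper40.HS
  Pool.Agent.Helper87.RF HodgeRing

section

variable {n : ℕ} {A : Type*} [Ring A] [Algebra ℂ A] {X : HodgeRing n A}

theorem bigraded_iff (X : HodgeRing n A) {T : Submodule ℂ A} :
    T ≤ ⨆ x : ℕ × ℕ, T ⊓ X.H x.1 x.2 ↔ ∀ v ∈ T, ∀ x : ℕ × ℕ, X.part {x} v ∈ T := by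
  constructor
  · intro h v hv x
    have h2 : (⨆ x : ℕ × ℕ, T ⊓ X.H x.1 x.2) ≤ T.comap (X.part {x}) := by
      refine iSup_le fun y w hw => ?_
      change X.part {x} w ∈ T
      by_cases hxy : (y.1, y.2) ∈ ({x} : Set (ℕ × ℕ))
      · rw [X.part_of_mem hw.2 hxy]
        exact hw.1
      · rw [X.part_of_notMem hw.2 hxy]
        exact zero_mem _
    exact h2 (h hv)
  · intro h v hv
    classical
    have h1 := X.part_eq_sum Set.univ v
    rw [X.part_univ] at h1
    rw [h1]
    exact Submodule.sum_mem _ fun x _ =>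
      (le_iSup (fun x : ℕ × ℕ => T ⊓ X.H x.1 x.2) x) ⟨h v hv x, X.part_single_mem x v⟩

end

section

variable {n : ℕ} {A : Type*} [Ring A] [Algebra ℂ A] [Module ℚ A] {X : HodgeRing n A}

namespace RationalCohomology

variable (R : RationalCohomology X)

theorem isSub_iff {j : ℕ} {W : Submodule ℚ A} :
    R.IsSub j W ↔ W ≤ R.H j ∧ Stable R.ops W := by
  unfold IsSub
  rw [bigraded_iff]
  refine and_congr_right fun hW => ?_
  rw [R.stable_iff (hW.trans (R.H_le_classes j))]
  have hdeg : ∀ v ∈ Submodule.span ℂ (W : Set A), v ∈ X.degree j := by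
    intro v hv
    have h1 : v ∈ Submodule.span ℂ (R.H j : Set A) := Submodule.span_mono hW hv
    rwa [R.span] at h1
  constructor
  · intro h d v hv
    classical
    rw [X.part_eq_sum]
    exact Submodule.sum_mem _ fun x _ => h v hv x
  · intro h v hv x
    rw [X.part_single_of_degree (hdeg v hv) x]
    split_ifs
    · exact h _ v hv
    · exact zero_mem _

theorem H_isSub (j : ℕ) : R.IsSub j (R.H j) := R.isSub_iff.2 ⟨le_rfl, R.stable_H j⟩

theorem H_le_span {p q k : ℕ} (h : p + q = k) :
    X.H p q ≤ Submodule.span ℂ (R.H k : Set A) := by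
  rw [R.span]
  exact fun v hv => mem_degree X h hv

theorem level_le (k m : ℕ) : R.level k m ≤ R.H k :=
  sInf_le ⟨R.H_isSub k, fun _ _ h _ => R.H_le_span h⟩

theorem level_min {k m : ℕ} {W : Submodule ℚ A} (h1 : W ≤ R.H k) (h2 : Stable R.ops W)
    (h3 : ∀ p q : ℕ, p + q = k → p + m ≤ q → X.H p q ≤ Submodule.span ℂ (W : Set A)) :
    R.level k m ≤ W :=
  sInf_le ⟨R.isSub_iff.2 ⟨h1, h2⟩, h3⟩

theorem level_stable (k m : ℕ) : Stable R.ops (R.level k m) := by
  intro i x hx
  rw [level, Submodule.mem_sInf] at hx ⊢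
  exact fun W hW => (R.isSub_iff.1 hW.1).2 i x (hx W hW)

theorem level_classes (k m : ℕ) : R.level k m ≤ R.classes :=
  (R.level_le k m).trans (R.H_le_classes k)

theorem H_le_level {k m p q : ℕ} (h : p + q = k) (h' : p + m ≤ q) :
    X.H p q ≤ Submodule.span ℂ (R.level k m : Set A) := by
  intro v hv
  refine R.mem_span_of_coef fun lam => ?_
  rw [level, Submodule.mem_sInf]
  exact fun W hW => R.coef_mem lam (hW.1.1.trans (R.H_le_classes k)) (hW.2 p q h h' hv)

omit [Module ℚ A] in
/-- a column component in a stable subspace of degree `k` -/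
theorem part_mem_pq {k p q : ℕ} (h : p + q = k) {v : A} (hv : v ∈ X.degree k) :
    X.part (colSet ((p : ℤ) - q)) v ∈ X.H p q := by
  refine X.column_mem_H (k := k) ?_ (X.part_column_mem _ _) h rfl
  rw [X.degree_iff, X.part_comm, X.degree_iff.1 hv]

/-- subspaces of the level part without components of this level vanish -/
theorem level_eq_bot [FiniteDimensional ℂ A] {k m : ℕ} {D : Submodule ℚ A}
    (hD : D ≤ R.level k m) (hst : Stable R.ops D)
    (h : ∀ p q : ℕ, p + q = k → p + m ≤ q → ∀ v ∈ D, X.part (colSet ((p : ℤ) - q)) v = 0) :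
    D = ⊥ := by
  have hcr := (R.cr_H k).mono (R.level_stable k m) (R.level_le k m)
  obtain ⟨D', hD', hst', hd, hs⟩ := hcr.2 D hD hst
  have h1 : R.level k m ≤ D' := by
    refine R.level_min (hD'.trans (R.level_le k m)) hst' fun p q hpq hm v hv => ?_
    have h2 := R.H_le_level hpq hm hv
    rw [← hs, span_sup] at h2
    obtain ⟨a, ha, b, hb, rfl⟩ := Submodule.mem_sup.1 h2
    have h3 : X.part (colSet ((p : ℤ) - q)) (a + b) = a + b :=
      X.part_of_mem hv (by simp [colSet])
    have h4 : X.part (colSet ((p : ℤ) - q)) a = 0 := by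
      refine induct_span (W := D) (P := fun a => X.part (colSet ((p : ℤ) - q)) a = 0)
        (map_zero _) (fun a b ha hb => by rw [map_add, ha, hb, add_zero])
        (fun c r hr => by rw [map_smul, h p q hpq hm r hr, smul_zero]) ha
    rw [← h3, map_add, h4, zero_add]
    exact column_sub_part (hD'.trans (R.level_classes k m)) hst' hb _
  rw [eq_bot_iff]
  intro x hx
  exact (Submodule.mem_bot ℚ).2 (Submodule.disjoint_def.1 hd x hx (h1 (hD hx)))

/-- disjoint stable subspaces have disjoint complexifications -/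
theorem span_disjoint {V W : Submodule ℚ A} (hV : V ≤ R.classes) (hW : W ≤ R.classes)
    (hd : Disjoint V W) {v : A} (hv : v ∈ Submodule.span ℂ (V : Set A))
    (hw : v ∈ Submodule.span ℂ (W : Set A)) : v = 0 :=
  R.eq_zero_of_coef fun lam =>
    Submodule.disjoint_def.1 hd _ (R.coef_mem lam hV hv) (R.coef_mem lam hW hw)

theorem compl_level {k m p q : ℕ} (hpq : p + q = k) (hm : p + m ≤ q) {C : Submodule ℚ A}
    (hC : C ≤ R.H k) (hst : Stable R.ops C) (hd : Disjoint (R.level k m) C) {v : A}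
    (hv : v ∈ Submodule.span ℂ (C : Set A)) : X.part (colSet ((p : ℤ) - q)) v = 0 := by
  have h1 : v ∈ X.degree k := by
    have h2 : v ∈ Submodule.span ℂ (R.H k : Set A) := Submodule.span_mono hC hv
    rwa [R.span] at h2
  exact R.span_disjoint (R.level_classes k m) (hC.trans (R.H_le_classes k)) hd
    (R.H_le_level hpq hm (part_mem_pq hpq h1))
    (column_sub_part (hC.trans (R.H_le_classes k)) hst hv _)

/-! ### the forms -/

/-- the rational Hodge structure generated by the forms of degree `j` -/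
def forms (j : ℕ) : Submodule ℚ A := R.level j j

theorem forms_le (j : ℕ) : R.forms j ≤ R.H j := R.level_le j j

theorem forms_min {j : ℕ} {W : Submodule ℚ A} (h1 : W ≤ R.H j) (h2 : Stable R.ops W)
    (h3 : X.H 0 j ≤ Submodule.span ℂ (W : Set A)) : R.forms j ≤ W :=
  R.level_min h1 h2 fun p q hpq hm => by
    rw [show p = 0 by omega, show q = j by omega]
    exact h3

theorem forms_stable (j : ℕ) : Stable R.ops (R.forms j) := R.level_stable j j

theorem forms_classes (j : ℕ) : R.forms j ≤ R.classes := R.level_classes j j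

theorem H_le_forms (j : ℕ) : X.H 0 j ≤ Submodule.span ℂ (R.forms j : Set A) :=
  R.H_le_level (zero_add j) (by omega)

theorem H_mem_set (j : ℕ) : X.H 0 j ≤ Submodule.span ℂ (R.H j : Set A) :=
  R.H_le_span (zero_add j)

omit [Module ℚ A] in
theorem part_mem_zero {j : ℕ} {v : A} (hv : v ∈ X.degree j) :
    X.part (colSet (-(j : ℤ))) v ∈ X.H 0 j := by
  have h := part_mem_pq (zero_add j) hv
  rwa [show ((0 : ℕ) : ℤ) - (j : ℤ) = -(j : ℤ) by simp] at h

theorem forms_eq_bot [FiniteDimensional ℂ A] {j : ℕ} {D : Submodule ℚ A} (hD : D ≤ R.forms j)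
    (hst : Stable R.ops D) (h : ∀ v ∈ D, X.part (colSet (-(j : ℤ))) v = 0) : D = ⊥ :=
  R.level_eq_bot hD hst fun p q hpq hm v hv => by
    rw [show ((p : ℕ) : ℤ) - (q : ℤ) = -(j : ℤ) by omega]
    exact h v hv

theorem compl_zero {j : ℕ} {C : Submodule ℚ A} (hC : C ≤ R.H j) (hst : Stable R.ops C)
    (hd : Disjoint (R.forms j) C) {v : A} (hv : v ∈ Submodule.span ℂ (C : Set A)) :
    X.part (colSet (-(j : ℤ))) v = 0 := by
  have h := R.compl_level (zero_add j) (by omega) hC hst hd hv
  rwa [show ((0 : ℕ) : ℤ) - (j : ℤ) = -(j : ℤ) by simp] at h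

variable {L : Type*} [AddCommGroup L] [Module ℚ L]
  (l : ℤ × (ℂ →ₗ[ℚ] ℚ) → Module.End ℚ L)

/-- `L` has a part in the column `-j` -/
def HasCol (j : ℕ) : Prop := ∃ lam x, l (-(j : ℤ), lam) x ≠ 0

variable {l}

/-- a space without the column contains no `L` which has it -/
theorem mu_zero (hl : Simple l) {j : ℕ} (hj : HasCol l j) {S : Submodule ℚ A}
    (hS : ∀ v ∈ S, X.part (colSet (-(j : ℤ))) v = 0) : mu l R.ops S = 0 := by
  have h1 : homsIn l R.ops S = ⊥ := by
    rw [eq_bot_iff]
    intro f hf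
    rw [Submodule.mem_bot]
    by_contra hne
    have hinj := hl.injective hf.1 hne
    obtain ⟨lam, x, hx⟩ := hj
    apply hx
    apply hinj
    rw [hf.1, map_zero, R.ops_apply, hS _ (hf.2 x), map_zero]
  rw [mu, h1, finrank_bot]

theorem mu_zero_H (hl : Simple l) {j k : ℕ} (hj : HasCol l j) (hk : k < j) :
    mu l R.ops (R.H k) = 0 := by
  refine R.mu_zero hl hj fun v hv => ?_
  rcases column_cases X (R.le_degree hv) (-(j : ℤ)) with ⟨p, q, hpq, hd, -⟩ | h0
  · omega
  · exact h0

theorem mu_zero_prim (hl : Simple l) {j k : ℕ} (hj : HasCol l j) (hk : k < j) :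
    mu l R.ops (R.prim k) = 0 := by
  refine R.mu_zero hl hj fun v hv => ?_
  rcases column_cases X (R.le_degree (R.prim_le k hv)) (-(j : ℤ)) with ⟨p, q, hpq, hd, -⟩ | h0
  · omega
  · exact h0

variable [FiniteDimensional ℂ A] [FiniteDimensional ℚ L]

/-- the multiplicity in the level part -/
theorem mu_level_of (hl : Simple l) {k m j : ℕ} (hm : m ≤ j) (hj : HasCol l j) :
    mu l R.ops (R.level k m) = mu l R.ops (R.H k) := by
  have := R.finite k
  obtain ⟨C, hC, hst, hd, hs⟩ := (R.cr_H k).2 _ (R.level_le k m) (R.level_stable k m)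
  have f1 : FiniteDimensional ℚ (R.level k m) :=
    Submodule.finiteDimensional_of_le (R.level_le k m)
  have f2 : FiniteDimensional ℚ C := Submodule.finiteDimensional_of_le hC
  have h1 := mu_sup (l := l) (R.level_stable k m) hst hd
  rw [hs] at h1
  have h2 := R.mu_zero hl hj (S := C) fun v hv => by
    rcases column_cases X (R.le_degree (hC hv)) (-(j : ℤ)) with ⟨p, q, hpq, hdd, -⟩ | h0
    · rw [← hdd]
      exact R.compl_level hpq (by omega) hC hst hd (Submodule.subset_span hv)
    · exact h0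
  omega

omit [FiniteDimensional ℚ L] in
theorem mu_level_not {k m : ℕ}
    (hj : ∀ p q : ℕ, p + q = k → p + m ≤ q → ¬ HasCol l (q - p)) :
    mu l R.ops (R.level k m) = 0 := by
  have h1 : homsIn l R.ops (R.level k m) = ⊥ := by
    rw [eq_bot_iff]
    intro f hf
    rw [Submodule.mem_bot]
    have h2 : LinearMap.range f = ⊥ := by
      refine R.level_eq_bot (k := k) (m := m) ?_ (Stable.range hf.1) ?_
      · rintro _ ⟨x, rfl⟩
        exact hf.2 x
      · rintro p q hpq hm _ ⟨x, rfl⟩
        refine R.eq_zero_of_coef fun lam => ?_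
        have h3 : l ((p : ℤ) - q, lam) x = 0 := by
          by_contra hne
          refine hj p q hpq hm ⟨lam, x, ?_⟩
          rwa [show -((q - p : ℕ) : ℤ) = (p : ℤ) - q by omega]
        have h4 := hf.1 ((p : ℤ) - q, lam) x
        rw [h3, map_zero, R.ops_apply] at h4
        exact h4.symm
    exact LinearMap.range_eq_bot.1 h2
  rw [mu, h1, finrank_bot]

theorem mu_forms_of (hl : Simple l) {j : ℕ} (hj : HasCol l j) :
    mu l R.ops (R.forms j) = mu l R.ops (R.H j) := R.mu_level_of hl le_rfl hj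

omit [FiniteDimensional ℚ L] in
theorem mu_forms_not {j : ℕ} (hj : ¬ HasCol l j) : mu l R.ops (R.forms j) = 0 :=
  R.mu_level_not fun p q hpq hm => by
    rwa [show q - p = j by omega]

end RationalCohomology

end

section

universe u v

variable {n : ℕ} {A : Type u} {B : Type v} [Ring A] [Algebra ℂ A] [Module ℚ A] [Ring B]
  [Algebra ℂ B] [Module ℚ B] {X : HodgeRing n A} {Y : HodgeRing n B}
  [FiniteDimensional ℂ A] [FiniteDimensional ℂ B]
  {R : RationalCohomology X} {S : RationalCohomology Y}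

omit [FiniteDimensional ℂ A] [FiniteDimensional ℂ B] in
/-- two embeddings give an isomorphism -/
theorem hodgeIso_of_emb {k : ℕ} {V : Submodule ℚ A} {W : Submodule ℚ B} (hV : V ≤ R.H k)
    (hW : W ≤ S.H k) (hVs : Stable R.ops V) (hWs : Stable S.ops W)
    (h1 : Emb (res R.ops hVs) (res S.ops hWs)) (h2 : Emb (res S.ops hWs) (res R.ops hVs)) :
    HodgeIso X Y V W := by
  have := R.finite k
  have := S.finite k
  have f1 : FiniteDimensional ℚ V := Submodule.finiteDimensional_of_le hV
  have f2 : FiniteDimensional ℚ W := Submodule.finiteDimensional_of_le hW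
  obtain ⟨e, he⟩ := h1.equiv h2
  exact hodgeIso_of_equiv hV hW hVs hWs e he

/-- equal multiplicities give an isomorphism -/
theorem hodgeIso_of_mu {k : ℕ} {V : Submodule ℚ A} {W : Submodule ℚ B} (hV : V ≤ R.H k)
    (hW : W ≤ S.H k) (hVs : Stable R.ops V) (hWs : Stable S.ops W)
    (h1 : ∀ (L : Type u) [AddCommGroup L] [Module ℚ L] [FiniteDimensional ℚ L]
      (l : ℤ × (ℂ →ₗ[ℚ] ℚ) → Module.End ℚ L), Simple l → mu l R.ops V ≤ mu l S.ops W)
    (h2 : ∀ (L : Type v) [AddCommGroup L] [Module ℚ L] [FiniteDimensional ℚ L]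
      (l : ℤ × (ℂ →ₗ[ℚ] ℚ) → Module.End ℚ L), Simple l → mu l S.ops W ≤ mu l R.ops V) :
    HodgeIso X Y V W := by
  have := R.finite k
  have := S.finite k
  have f1 : FiniteDimensional ℚ V := Submodule.finiteDimensional_of_le hV
  have f2 : FiniteDimensional ℚ W := Submodule.finiteDimensional_of_le hW
  have c1 := (R.cr_H k).mono hVs hV
  have c2 := (S.cr_H k).mono hWs hW
  exact hodgeIso_of_emb hV hW hVs hWs (emb_of_mu c1 c2 h1) (emb_of_mu c2 c1 h2)

end

end Pool.Agent.Hodge7
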