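import Pool.Agent.Helper40.HS.Piece

/-!
# The two parities, and the signature identities for rational Hodge structures
-/

set_option autoImplicit false

namespace Pool.Agent.Hodge7

open Pool.Agent.Hodge81 Module TensorProduct Pool.Agent.Helper40.TH Pool.Agent.Helper40.HS
  Pool.Agent.Helper87.RF HodgeRing Complex

section

variable {n : ℕ} {A : Type*} [Ring A] [Algebra ℂ A] [Module ℚ A] {X : HodgeRing n A}

omit [Module ℚ A] in
theorem sum_degrees (X : HodgeRing n A) (v : A) :
    v = ∑ k ∈ Finset.range (2 * n + 1), X.part (degSet k) v := by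
  refine X.induct (P := fun v => v = ∑ k ∈ Finset.range (2 * n + 1), X.part (degSet k) v)
    (fun p q a ha => ?_) (by simp)
    (fun a b ha hb => by
      simp only [map_add, Finset.sum_add_distrib]
      rw [← ha, ← hb]) v
  by_cases hk : p + q ∈ Finset.range (2 * n + 1)
  · rw [Finset.sum_eq_single_of_mem (p + q) hk, X.part_of_mem ha (by simp [degSet])]
    intro k _ hne
    exact X.part_of_notMem ha fun h => hne (by
      simp only [degSet, Set.mem_ofPred_eq] at h
      exact h.symm)
  · rw [Finset.mem_range] at hk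
    rw [X.bounded p q (by omega)] at ha
    rw [(Submodule.mem_bot ℂ).1 ha]
    simp

namespace RationalCohomology

variable (R : RationalCohomology X)

theorem part_mem_H {v : A} (hv : v ∈ R.classes) (k : ℕ) : X.part (degSet k) v ∈ R.H k := by
  unfold classes at hv
  induction hv using Submodule.iSup_induction' with
  | mem l a ha =>
    by_cases h : l = k
    · subst h
      rw [X.degree_iff.1 (R.le_degree ha)]
      exact ha
    · rw [X.part_degree_ne h (R.le_degree ha)]
      exact zero_mem _
  | zero => rw [map_zero]; exact zero_mem _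
  | add a c _ _ h1 h2 => rw [map_add]; exact add_mem h1 h2

/-- the sum of the `H^k(X, ℚ)`, `k ≡ e mod 2` -/
noncomputable def par (e : ℕ) : Submodule ℚ A :=
  ((Finset.range (2 * n + 1)).filter (fun k => k % 2 = e % 2)).sup R.H

theorem par_le (e : ℕ) : R.par e ≤ R.classes := Finset.sup_le fun k _ => R.H_le_classes k

theorem H_le_par {e k : ℕ} (h : k % 2 = e % 2) : R.H k ≤ R.par e := by
  by_cases hk : k ≤ 2 * n
  · exact Finset.le_sup (f := R.H) (by
      rw [Finset.mem_filter, Finset.mem_range]
      omega)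
  · rw [R.H_big (by omega)]
    exact bot_le

theorem mem_par {e : ℕ} {v : A} (hv : v ∈ R.classes)
    (h : ∀ k, k % 2 ≠ e % 2 → X.part (degSet k) v = 0) : v ∈ R.par e := by
  rw [sum_degrees X v]
  refine Submodule.sum_mem _ fun k _ => ?_
  by_cases hk : k % 2 = e % 2
  · exact R.H_le_par hk (R.part_mem_H hv k)
  · rw [h k hk]
    exact zero_mem _

/-- sums of different degrees are direct -/
theorem sup_H (J : Finset ℕ) : Stable R.ops (J.sup R.H) ∧
    (∀ v ∈ J.sup R.H, ∀ k, k ∉ J → X.part (degSet k) v = 0) := by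
  induction J using Finset.induction_on with
  | empty =>
    refine ⟨stable_bot, fun v hv k _ => ?_⟩
    rw [Finset.sup_empty, Submodule.mem_bot] at hv
    rw [hv, map_zero]
  | insert a J ha ih =>
    rw [Finset.sup_insert]
    refine ⟨stable_sup (R.stable_H a) ih.1, fun v hv k hk => ?_⟩
    obtain ⟨x, hx, y, hy, rfl⟩ := Submodule.mem_sup.1 hv
    rw [Finset.mem_insert, not_or] at hk
    rw [map_add, ih.2 y hy k hk.2, X.part_degree_ne (Ne.symm hk.1) (R.le_degree hx), add_zero]

theorem par_stable (e : ℕ) : Stable R.ops (R.par e) := (R.sup_H _).1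

theorem par_part {e : ℕ} {v : A} (hv : v ∈ R.par e) {k : ℕ} (h : k % 2 ≠ e % 2) :
    X.part (degSet k) v = 0 := by
  refine (R.sup_H _).2 v hv k fun hk => ?_
  rw [Finset.mem_filter] at hk
  exact h hk.2

variable {L : Type*} [AddCommGroup L] [Module ℚ L] [FiniteDimensional ℚ L]
  (l : ℤ × (ℂ →ₗ[ℚ] ℚ) → Module.End ℚ L)

theorem mu_sup_H (J : Finset ℕ) : mu l R.ops (J.sup R.H) = ∑ k ∈ J, mu l R.ops (R.H k) := by
  induction J using Finset.induction_on with
  | empty => rw [Finset.sup_empty, mu_bot, Finset.sum_empty]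
  | insert a J ha ih =>
    have f0 := R.finite_classes
    have f1 := R.finite a
    have hle : J.sup R.H ≤ R.classes := Finset.sup_le fun k _ => R.H_le_classes k
    have f2 : FiniteDimensional ℚ (J.sup R.H : Submodule ℚ A) :=
      Submodule.finiteDimensional_of_le hle
    rw [Finset.sup_insert, Finset.sum_insert ha, mu_sup (R.stable_H a) (R.sup_H J).1, ih]
    rw [Submodule.disjoint_def]
    intro x hx hx'
    have h1 := (R.sup_H J).2 x hx' a ha
    rwa [X.degree_iff.1 (R.le_degree hx)] at h1

variable [FiniteDimensional ℂ A]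

omit [FiniteDimensional ℚ L] [FiniteDimensional ℂ A] in
theorem mu_low {k : ℕ} (hk : k ≤ 1) : mu l R.ops (R.H k) = mu l R.ops (R.prim k) := by
  rw [R.prim_low hk]

theorem mu_par_even : mu l R.ops (R.par n) =
    ∑ c ∈ Finset.range (n / 2 + 1), (2 * c + 1) * mu l R.ops (R.prim (n - 2 * c)) := by
  unfold par
  rw [mu_sup_H]
  exact count_even (a := fun k => mu l R.ops (R.H k)) (p := fun k => mu l R.ops (R.prim k))
    (fun k hk => R.mu_serre l hk) (fun k hk => R.mu_prim l hk) (fun k hk => R.mu_low l hk)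

theorem mu_par_odd : mu l R.ops (R.par (n + 1)) =
    ∑ c ∈ Finset.range ((n + 1) / 2), (2 * c + 2) * mu l R.ops (R.prim (n - 1 - 2 * c)) := by
  unfold par
  rw [mu_sup_H]
  exact count_odd (a := fun k => mu l R.ops (R.H k)) (p := fun k => mu l R.ops (R.prim k))
    (fun k hk => R.mu_serre l hk) (fun k hk => R.mu_prim l hk) (fun k hk => R.mu_low l hk)

/-- the definite subspace of sign `(-1)^t` -/
noncomputable def semi (t : ℕ) : Submodule ℚ A := (strings n t).sup (R.piece t)

omit [FiniteDimensional ℂ A] in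
theorem semi_spec (t : ℕ) : R.semi t ≤ R.classes ∧ Stable R.ops (R.semi t) ∧
    Def X ((-1) ^ t) (R.semi t) ∧
    mu l R.ops (R.semi t) = ∑ x ∈ strings n t, mu l R.ops (R.prim (n - 2 * x.1)) := by
  obtain ⟨h1, h2, h3, h4, -⟩ := sum_def l (R := R) (s := (-1) ^ t) (pow_ne_zero _ (by norm_num))
    (R.piece t) (R.piece_le t) (R.piece_stable t) (strings n t) (fun x hx => R.piece_def hx)
    (fun x hx y hy hxy => R.piece_ort hx hy hxy)
  refine ⟨h1, h2, h3, ?_⟩
  unfold semi
  rw [h4]
  exact Finset.sum_congr rfl fun x hx => R.mu_piece l hx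

omit [FiniteDimensional ℂ A] in
theorem semi_le_par (t : ℕ) : R.semi t ≤ R.par n := by
  refine Finset.sup_le ?_
  rintro ⟨c, i⟩ hx
  simp only [strings, Finset.mem_filter, Finset.mem_product, Finset.mem_range] at hx
  obtain ⟨⟨hc, -⟩, hci⟩ := hx
  rintro _ ⟨r, hr, rfl⟩
  change uuC X t c i r ∈ R.par n
  simp only at hr
  have hr' := R.prim_le _ hr
  rw [uuC_apply, Rat.cast_smul_eq_qsmul]
  refine add_mem ?_ (Submodule.smul_mem _ _ ?_)
  · exact R.H_le_par (k := n - 2 * c + 2 * i) (by omega) (R.omega_mul_H i rfl hr')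
  · exact R.H_le_par (k := n - 2 * c + 2 * (2 * c - i)) (by omega) (R.omega_mul_H _ rfl hr')

end RationalCohomology

end

section

variable {n : ℕ} {A B : Type*} [Ring A] [Algebra ℂ A] [Module ℚ A] [Ring B] [Algebra ℂ B]
  [Module ℚ B] {X : HodgeRing n A} {Y : HodgeRing n B} {phi : A ≃ₗ[ℂ] B}
  {R : RationalCohomology X} {S : RationalCohomology Y}

omit [Module ℚ A] [Module ℚ B] in
theorem mukai_column (hM : IsMukaiIsometry X Y phi) (d : ℤ) (v : A) :
    phi (X.part (colSet d) v) = Y.part (colSet d) (phi v) := by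
  have hf : ∀ d, ∀ v ∈ X.column d, phi v ∈ Y.column d := by
    intro d v hv
    rw [← hM.column d]
    exact Submodule.mem_map_of_mem hv
  refine X.induct (P := fun v => phi (X.part (colSet d) v) = Y.part (colSet d) (phi v))
    (fun p q a ha => ?_) (by simp) (fun a b ha hb => by simp only [map_add, ha, hb]) v
  have h1 := hf ((p : ℤ) - q) a (X.mem_column rfl ha)
  by_cases h : (p : ℤ) - q = d
  · rw [X.part_of_mem ha (by exact h)]
    rw [h] at h1
    exact (Y.column_iff.1 h1).symm
  · rw [X.part_of_notMem ha (by exact h), map_zero, Y.part_column_ne h h1]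

omit [Module ℚ A] [Module ℚ B] in
theorem mukai_sesq (hM : IsMukaiIsometry X Y phi) (v w : A) :
    Y.sesq (phi v) (phi w) = X.sesq v w := by
  have h := hM.h0 v (X.conj w)
  rw [hM.conj] at h
  exact h

theorem phi_homs_rat (hM : IsMukaiIsometry X Y phi) (hR : IsRational R S phi) :
    (phi.toLinearMap.restrictScalars ℚ) ∈ homs R.ops S.ops :=
  mem_homs R S (fun r hr => (hR r).1 hr) (fun d v => mukai_column hM d v)

theorem phi_par (hM : IsMukaiIsometry X Y phi) (hR : IsRational R S phi) (e : ℕ) :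
    (R.par e).map (phi.toLinearMap.restrictScalars ℚ) ≤ S.par e := by
  rintro _ ⟨r, hr, rfl⟩
  change phi r ∈ S.par e
  refine S.mem_par ((hR r).1 (R.par_le e hr)) fun k hk => ?_
  refine Y.eq_zero_of_columns fun d => ?_
  rw [Y.part_comm, ← mukai_column hM]
  by_cases hd : (d - (e : ℤ)) % 2 = 0
  · -- the column meets only degrees of parity `e`
    rw [mukai_column hM, Y.part_part]
    have : degSet k ∩ colSet d = ∅ := by
      ext x
      simp only [degSet, colSet, Set.mem_inter_iff, Set.mem_ofPred_eq, Set.mem_empty_iff_false,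
        iff_false]
      omega
    rw [this, part_empty]
  · have h1 : X.part (colSet d) r = 0 := by
      rw [sum_degrees X (X.part (colSet d) r)]
      refine Finset.sum_eq_zero fun m _ => ?_
      by_cases hm : m % 2 = e % 2
      · rw [X.part_part]
        have : degSet m ∩ colSet d = ∅ := by
          ext x
          simp only [degSet, colSet, Set.mem_inter_iff, Set.mem_ofPred_eq, Set.mem_empty_iff_false,
            iff_false]
          omega
        rw [this, part_empty]
      · rw [X.part_comm, R.par_part hr hm, map_zero]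
    rw [h1, map_zero, map_zero]

variable {L : Type*} [AddCommGroup L] [Module ℚ L] [FiniteDimensional ℚ L]
  (l : ℤ × (ℂ →ₗ[ℚ] ℚ) → Module.End ℚ L)

theorem mu_par_le (hM : IsMukaiIsometry X Y phi) (hR : IsRational R S phi) (e : ℕ) :
    mu l R.ops (R.par e) ≤ mu l S.ops (S.par e) := by
  have f0 := S.finite_classes
  have f2 : FiniteDimensional ℚ (S.par e) := Submodule.finiteDimensional_of_le (S.par_le e)
  rw [← mu_map (phi_homs_rat hM hR) (R.par_stable e) fun x _ h => phi.map_eq_zero_iff.1 h]
  exact mu_mono (phi_par hM hR e)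

theorem IsRational.symm (hR : IsRational R S phi) : IsRational S R phi.symm := fun b => by
  rw [hR, LinearEquiv.apply_symm_apply]

theorem mu_par (hM : IsMukaiIsometry X Y phi) (hR : IsRational R S phi) (e : ℕ) :
    mu l R.ops (R.par e) = mu l S.ops (S.par e) :=
  le_antisymm (mu_par_le l hM hR e) (mu_par_le l hM.symm hR.symm e)

theorem phi_def (hM : IsMukaiIsometry X Y phi) {s : ℂ} {W : Submodule ℚ A} (h : Def X s W) :
    Def Y s (W.map (phi.toLinearMap.restrictScalars ℚ)) := by
  intro d y hy hyd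
  rw [span_map_rat] at hy
  obtain ⟨x, hx, rfl⟩ := hy
  have h1 : x ∈ X.column d := by
    rw [X.column_iff]
    apply phi.injective
    rw [mukai_column hM]
    exact Y.column_iff.1 hyd
  obtain ⟨r, hr, hr0, hre⟩ := h d x hx h1
  refine ⟨r, hr, fun h => ?_, ?_⟩
  · rw [hr0 h, map_zero]
  · rw [← hre]
    exact mukai_sesq hM x x

variable [FiniteDimensional ℂ A] [FiniteDimensional ℂ B]

omit [FiniteDimensional ℂ A] in
/-- the signature inequality -/
theorem sig_le (hM : IsMukaiIsometry X Y phi) (hR : IsRational R S phi) (t : ℕ) :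
    ∑ x ∈ strings n t, mu l R.ops (R.prim (n - 2 * x.1)) +
      ∑ x ∈ strings n (t + 1), mu l S.ops (S.prim (n - 2 * x.1)) ≤
    ∑ c ∈ Finset.range (n / 2 + 1), (2 * c + 1) * mu l S.ops (S.prim (n - 2 * c)) := by
  obtain ⟨a1, a2, a3, a4⟩ := R.semi_spec l t
  obtain ⟨b1, b2, b3, b4⟩ := S.semi_spec l (t + 1)
  have f0 := S.finite_classes
  have f1 : FiniteDimensional ℚ (S.par n) := Submodule.finiteDimensional_of_le (S.par_le n)
  have f2 : FiniteDimensional ℚ (S.semi (t + 1)) := Submodule.finiteDimensional_of_le b1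
  have c1 : (R.semi t).map (phi.toLinearMap.restrictScalars ℚ) ≤ S.classes := by
    rintro _ ⟨r, hr, rfl⟩
    exact (hR r).1 (a1 hr)
  have f3 : FiniteDimensional ℚ ((R.semi t).map (phi.toLinearMap.restrictScalars ℚ)) :=
    Submodule.finiteDimensional_of_le c1
  have c2 := stable_map (phi_homs_rat hM hR) a2
  have c3 := phi_def hM a3
  have hdis : Disjoint ((R.semi t).map (phi.toLinearMap.restrictScalars ℚ)) (S.semi (t + 1)) := by
    refine Def.disjoint (s := (-1) ^ t) c1 b1 c2 b2 (pow_ne_zero _ (by norm_num)) c3 ?_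
    have : -(-1 : ℂ) ^ t = (-1) ^ (t + 1) := by rw [pow_succ]; ring
    rw [this]
    exact b3
  rw [← a4, ← b4, ← S.mu_par_even l,
    ← mu_map (phi_homs_rat hM hR) a2 fun x _ h => phi.map_eq_zero_iff.1 h, ← mu_sup c2 b2 hdis]
  exact mu_mono (sup_le ((Submodule.map_mono (R.semi_le_par t)).trans (phi_par hM hR n))
    (S.semi_le_par (t + 1)))

omit [FiniteDimensional ℂ A] [FiniteDimensional ℂ B] in
theorem strings_two (t : ℕ) : strings n (t + 2) = strings n t := by
  unfold strings
  have : (t + 2) % 2 = t % 2 := by omega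
  rw [this]

omit [FiniteDimensional ℂ A] in
theorem sig_le' (hM : IsMukaiIsometry X Y phi) (hR : IsRational R S phi) {t : ℕ} (ht : t ≤ 1) :
    ∑ x ∈ strings n t, mu l R.ops (R.prim (n - 2 * x.1)) ≤
      ∑ x ∈ strings n t, mu l S.ops (S.prim (n - 2 * x.1)) := by
  have h1 := sig_le l hM hR t
  rw [← sum_both n (fun c => mu l S.ops (S.prim (n - 2 * c)))] at h1
  obtain rfl | rfl : t = 0 ∨ t = 1 := by omega
  · rw [zero_add] at h1
    omega
  · rw [show 1 + 1 = 0 + 2 by rfl, strings_two] at h1
    omega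

/-- the signature identities -/
theorem sig_eq (hM : IsMukaiIsometry X Y phi) (hR : IsRational R S phi) {t : ℕ} (ht : t ≤ 1) :
    ∑ c ∈ Finset.range (n / 2 + 1), (c + if c % 2 = t % 2 then 1 else 0) *
        mu l R.ops (R.prim (n - 2 * c)) =
      ∑ c ∈ Finset.range (n / 2 + 1), (c + if c % 2 = t % 2 then 1 else 0) *
        mu l S.ops (S.prim (n - 2 * c)) := by
  rw [← sum_strings n t (fun c => mu l R.ops (R.prim (n - 2 * c))),
    ← sum_strings n t (fun c => mu l S.ops (S.prim (n - 2 * c)))]
  exact le_antisymm (sig_le' l hM hR ht) (sig_le' l hM.symm hR.symm ht)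

/-- the identity for the other parity -/
theorem odd_eq (hM : IsMukaiIsometry X Y phi) (hR : IsRational R S phi) :
    ∑ c ∈ Finset.range ((n + 1) / 2), (2 * c + 2) * mu l R.ops (R.prim (n - 1 - 2 * c)) =
      ∑ c ∈ Finset.range ((n + 1) / 2), (2 * c + 2) * mu l S.ops (S.prim (n - 1 - 2 * c)) := by
  rw [← R.mu_par_odd l, ← S.mu_par_odd l]
  exact mu_par l hM hR (n + 1)

end

end Pool.Agent.Hodge7
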