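import Pool.Agent.Helper40.HS.Defs
import Pool.Agent.Helper40.HS.Par

/-!
# Equivariant isomorphisms are isomorphisms of Hodge structures
-/

set_option autoImplicit false

namespace Pool.Agent.Hodge7

open Pool.Agent.Hodge81 Module TensorProduct Pool.Agent.Helper40.TH Pool.Agent.Helper40.HS
  Pool.Agent.Helper87.RF HodgeRing

section

variable {n : ℕ} {A : Type*} [Ring A] [Algebra ℂ A] [Module ℚ A] {X : HodgeRing n A}
  (R : RationalCohomology X)

theorem tau_inj_of_le {k : ℕ} {W : Submodule ℚ A} (hW : W ≤ R.H k) :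
    Function.Injective (tau W) := by
  have e : tau W = tau (R.H k) ∘ₗ (Submodule.inclusion hW).baseChange ℂ := by
    apply TensorProduct.AlgebraTensorModule.ext
    intro c v
    rw [LinearMap.comp_apply, LinearMap.baseChange_tmul, tau_tmul, tau_tmul]
    rfl
  rw [e, LinearMap.coe_comp]
  refine (R.tau_inj k).comp ?_
  exact Module.Flat.lTensor_preserves_injective_linearMap _ (Submodule.inclusion_injective hW)

/-- the complexification of a rational subspace of one degree -/
noncomputable def tauEquiv {k : ℕ} {W : Submodule ℚ A} (hW : W ≤ R.H k) :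
    (ℂ ⊗[ℚ] W) ≃ₗ[ℂ] Submodule.span ℂ (W : Set A) :=
  (LinearEquiv.ofInjective (tau W) (tau_inj_of_le R hW)).trans
    (LinearEquiv.ofEq _ _ (range_tau W))

theorem tauEquiv_tmul {k : ℕ} {W : Submodule ℚ A} (hW : W ≤ R.H k) (c : ℂ) (w : W) :
    (tauEquiv R hW (c ⊗ₜ w) : A) = c • (w : A) := by
  have : (tauEquiv R hW (c ⊗ₜ w) : A) = tau W (c ⊗ₜ w) := rfl
  rw [this, tau_tmul]

omit [Module ℚ A] in
theorem mem_H_iff {k : ℕ} {v : A} (hv : v ∈ X.degree k) (hv0 : v ≠ 0) (p q : ℕ) :
    v ∈ X.H p q ↔ p + q = k ∧ X.part (colSet ((p : ℤ) - q)) v = v := by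
  constructor
  · intro h
    refine ⟨?_, X.part_of_mem h (by simp [colSet])⟩
    by_contra hcon
    have h3 := X.part_degree_ne hcon (X.mem_degree rfl h)
    rw [X.degree_iff.1 hv] at h3
    exact hv0 h3
  · rintro ⟨h1, h2⟩
    exact X.column_mem_H hv (X.column_iff.2 h2) h1 rfl

end

section

variable {n : ℕ} {A B : Type*} [Ring A] [Algebra ℂ A] [Module ℚ A] [Ring B] [Algebra ℂ B]
  [Module ℚ B] {X : HodgeRing n A} {Y : HodgeRing n B}

theorem hodgeIso_of_equiv {R : RationalCohomology X} {S : RationalCohomology Y} {k : ℕ}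
    {V : Submodule ℚ A} {W : Submodule ℚ B} (hV : V ≤ R.H k) (hW : W ≤ S.H k)
    (hVs : Stable R.ops V) (hWs : Stable S.ops W) (e : V ≃ₗ[ℚ] W)
    (he : e.toLinearMap ∈ homs (res R.ops hVs) (res S.ops hWs)) : HodgeIso X Y V W := by
  have hVc : V ≤ R.classes := hV.trans (R.H_le_classes k)
  have hWc : W ≤ S.classes := hW.trans (S.H_le_classes k)
  let F : (ℂ ⊗[ℚ] V) ≃ₗ[ℂ] (ℂ ⊗[ℚ] W) := LinearEquiv.baseChange ℚ ℂ V W e
  have hF : ∀ (c : ℂ) (v : V), F (c ⊗ₜ v) = c ⊗ₜ e v := fun c v =>
    rfl
  let TV := tauEquiv R hV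
  let TW := tauEquiv S hW
  let E : Submodule.span ℂ (V : Set A) ≃ₗ[ℂ] Submodule.span ℂ (W : Set B) :=
    TV.symm.trans (F.trans TW)
  have hET : ∀ t, E (TV t) = TW (F t) := by
    intro t
    change TW (F (TV.symm (TV t))) = _
    rw [LinearEquiv.symm_apply_apply]
  -- rational classes
  have hE1 : ∀ v : V, (E ⟨(v : A), Submodule.subset_span v.2⟩ : B) = (e v : B) := by
    intro v
    have h1 : (⟨(v : A), Submodule.subset_span v.2⟩ : Submodule.span ℂ (V : Set A)) =
        TV (1 ⊗ₜ v) := Subtype.ext (by rw [tauEquiv_tmul, one_smul])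
    rw [h1, hET, hF, tauEquiv_tmul, one_smul]
  -- coefficients
  have hcoefT : ∀ lam t, S.coef lam (TW (F t) : B) =
      (e ⟨R.coef lam (TV t : A), R.coef_mem lam hVc (TV t).2⟩ : B) := by
    intro lam t
    induction t with
    | zero =>
      have h2 : (⟨R.coef lam (TV 0 : A), R.coef_mem lam hVc (TV 0).2⟩ : V) = 0 :=
        Subtype.ext (by
          change R.coef lam (TV 0 : A) = 0
          rw [map_zero, Submodule.coe_zero, map_zero])
      rw [h2, map_zero, map_zero, map_zero]
      simp
    | tmul c v =>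
      have h2 : (⟨R.coef lam (TV (c ⊗ₜ v) : A), R.coef_mem lam hVc (TV (c ⊗ₜ v)).2⟩ : V) =
          lam c • v := Subtype.ext (by
        change R.coef lam (TV (c ⊗ₜ v) : A) = lam c • (v : A)
        rw [tauEquiv_tmul, R.coef_smul lam c (hVc v.2)])
      rw [h2, map_smul, hF, tauEquiv_tmul, S.coef_smul lam c (hWc (e v).2)]
      rfl
    | add x y hx hy =>
      have h2 : (⟨R.coef lam (TV (x + y) : A), R.coef_mem lam hVc (TV (x + y)).2⟩ : V) =
          ⟨R.coef lam (TV x : A), R.coef_mem lam hVc (TV x).2⟩ +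
          ⟨R.coef lam (TV y : A), R.coef_mem lam hVc (TV y).2⟩ := Subtype.ext (by
        change R.coef lam (TV (x + y) : A) = R.coef lam (TV x : A) + R.coef lam (TV y : A)
        rw [map_add, Submodule.coe_add, map_add])
      rw [h2, map_add, map_add, map_add, Submodule.coe_add, Submodule.coe_add, map_add, hx, hy]
  have hcoef : ∀ lam (y : Submodule.span ℂ (V : Set A)),
      S.coef lam (E y : B) = (e ⟨R.coef lam y, R.coef_mem lam hVc y.2⟩ : B) := by
    intro lam y
    obtain ⟨t, rfl⟩ := TV.surjective y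
    rw [hET]
    exact hcoefT lam t
  -- columns
  have hcolV : ∀ d (y : Submodule.span ℂ (V : Set A)),
      X.part (colSet d) (y : A) ∈ Submodule.span ℂ (V : Set A) :=
    fun d y => column_sub_part hVc hVs y.2 d
  have hcol1 : ∀ d (v : V), Y.part (colSet d) (e v : B) =
      (E ⟨X.part (colSet d) (v : A), hcolV d ⟨v, Submodule.subset_span v.2⟩⟩ : B) := by
    intro d v
    rw [← sub_eq_zero]
    refine S.eq_zero_of_coef fun lam => ?_
    rw [map_sub, hcoef, sub_eq_zero]
    have h1 := congrArg Subtype.val (he (d, lam) v)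
    exact h1.symm
  have hcol : ∀ d (y : Submodule.span ℂ (V : Set A)), Y.part (colSet d) (E y : B) =
      (E ⟨X.part (colSet d) (y : A), hcolV d y⟩ : B) := by
    intro d y
    obtain ⟨t, rfl⟩ := TV.surjective y
    induction t with
    | zero =>
      have h2 : (⟨X.part (colSet d) (TV 0 : A), hcolV d (TV 0)⟩ :
          Submodule.span ℂ (V : Set A)) = 0 := Subtype.ext (by
        change X.part (colSet d) (TV 0 : A) = 0
        rw [map_zero, Submodule.coe_zero, map_zero])
      rw [h2, map_zero, map_zero]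
      simp
    | tmul c v =>
      have h2 : (⟨X.part (colSet d) (TV (c ⊗ₜ v) : A), hcolV d (TV (c ⊗ₜ v))⟩ :
          Submodule.span ℂ (V : Set A)) =
          c • ⟨X.part (colSet d) (v : A), hcolV d ⟨v, Submodule.subset_span v.2⟩⟩ :=
        Subtype.ext (by
          change X.part (colSet d) (TV (c ⊗ₜ v) : A) = c • X.part (colSet d) (v : A)
          rw [tauEquiv_tmul, map_smul])
      rw [h2, map_smul, hET, hF, tauEquiv_tmul, map_smul, hcol1]
      rfl
    | add x y hx hy =>
      have h2 : (⟨X.part (colSet d) (TV (x + y) : A), hcolV d (TV (x + y))⟩ :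
          Submodule.span ℂ (V : Set A)) =
          ⟨X.part (colSet d) (TV x : A), hcolV d (TV x)⟩ +
          ⟨X.part (colSet d) (TV y : A), hcolV d (TV y)⟩ := Subtype.ext (by
        change X.part (colSet d) (TV (x + y) : A) = X.part (colSet d) (TV x : A) +
          X.part (colSet d) (TV y : A)
        rw [map_add, Submodule.coe_add, map_add])
      rw [h2, map_add, map_add, map_add, Submodule.coe_add, Submodule.coe_add, map_add, hx, hy]
  refine ⟨E, fun v => ?_, fun p q v => ?_⟩
  · constructor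
    · intro hv
      have h1 : (E v : B) = (e ⟨v, hv⟩ : B) := hE1 ⟨v, hv⟩
      rw [h1]
      exact (e _).2
    · intro hv
      have h1 : (E v : B) = (E ⟨(e.symm ⟨E v, hv⟩ : V), Submodule.subset_span
          (e.symm ⟨E v, hv⟩).2⟩ : B) := by
        rw [hE1, LinearEquiv.apply_symm_apply]
      have h2 := E.injective (Subtype.ext h1)
      have h3 := congrArg Subtype.val h2
      rw [h3]
      exact (e.symm ⟨E v, hv⟩).2
  · by_cases hv0 : v = 0
    · rw [hv0, map_zero]
      simp
    have hne : (v : A) ≠ 0 := fun h => hv0 (Subtype.ext h)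
    have hne' : (E v : B) ≠ 0 := fun h => hv0 (E.map_eq_zero_iff.1 (Subtype.ext h))
    have hdX : (v : A) ∈ X.degree k := by
      have h1 : (v : A) ∈ Submodule.span ℂ (R.H k : Set A) := Submodule.span_mono hV v.2
      rwa [R.span] at h1
    have hdY : (E v : B) ∈ Y.degree k := by
      have h1 : (E v : B) ∈ Submodule.span ℂ (S.H k : Set B) := Submodule.span_mono hW (E v).2
      rwa [S.span] at h1
    rw [mem_H_iff hdX hne, mem_H_iff hdY hne', hcol]
    refine and_congr_right fun _ => ?_
    constructor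
    · intro h
      congr 2
      exact Subtype.ext h
    · intro h
      exact congrArg Subtype.val (E.injective (Subtype.ext h))

end

end Pool.Agent.Hodge7
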