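import Pool.Agent.Helper40.HS.Coef

/-!
# The Lefschetz decomposition over the rational numbers
-/

set_option autoImplicit false

namespace Pool.Agent.Hodge7

open Pool.Agent.Hodge81 Module TensorProduct Pool.Agent.Helper40.TH Pool.Agent.Helper40.HS
  Pool.Agent.Helper87.RF HodgeRing

section

variable {n : ℕ} {A : Type*} [Ring A] [Algebra ℂ A] [Module ℚ A] {X : HodgeRing n A}

omit [Module ℚ A] in
theorem part_empty (X : HodgeRing n A) (v : A) : X.part ∅ v = 0 := by
  refine X.induct (P := fun v => X.part ∅ v = 0) (fun p q a ha => ?_) (by simp)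
    (fun a b ha hb => by rw [map_add, ha, hb, add_zero]) v
  exact X.part_of_notMem ha (Set.notMem_empty _)

omit [Module ℚ A] in
/-- a column component of a vector of degree `k` lies in some `H p q` or vanishes -/
theorem column_cases (X : HodgeRing n A) {k : ℕ} {v : A} (hv : v ∈ X.degree k) (d : ℤ) :
    (∃ p q : ℕ, p + q = k ∧ (p : ℤ) - q = d ∧ X.part (colSet d) v ∈ X.H p q) ∨
      X.part (colSet d) v = 0 := by
  have hdeg : X.part (colSet d) v ∈ X.degree k := by
    rw [X.degree_iff, X.part_comm, X.degree_iff.1 hv]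
  by_cases hex : ∃ p q : ℕ, p + q = k ∧ (p : ℤ) - q = d
  · obtain ⟨p, q, hpq, hd⟩ := hex
    exact Or.inl ⟨p, q, hpq, hd, X.column_mem_H hdeg (X.part_column_mem d v) hpq hd⟩
  · right
    rw [← X.degree_iff.1 hdeg, X.part_part]
    have : degSet k ∩ colSet d = ∅ := by
      ext x
      simp only [degSet, colSet, Set.mem_inter_iff, Set.mem_ofPred_eq, Set.mem_empty_iff_false,
        iff_false]
      intro hx
      exact hex ⟨x.1, x.2, hx.1, hx.2⟩
    rw [this, part_empty]

omit [Module ℚ A] in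
/-- hard Lefschetz in one degree -/
theorem lef_degree (X : HodgeRing n A) {k : ℕ} (hk : k ≤ n) {v : A} (hv : v ∈ X.degree k)
    (h : X.omega ^ (n - k) * v = 0) : v = 0 := by
  refine X.eq_zero_of_columns fun d => ?_
  rcases column_cases X hv d with ⟨p, q, hpq, -, hm⟩ | h0
  · refine X.lefschetz hm (by omega) ?_
    rw [hpq, X.omega_part_column, h, map_zero]
  · exact h0

omit [Module ℚ A] in
theorem lef_degree_surj (X : HodgeRing n A) [FiniteDimensional ℂ A] {k : ℕ} (hk : k ≤ n) :
    X.degree (2 * n - k) ≤ (X.degree k).map (LinearMap.mulLeft ℂ (X.omega ^ (n - k))) := by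
  refine iSup₂_le fun x hx v hv => ?_
  by_cases hb : n < x.1 ∨ n < x.2
  · rw [X.bounded _ _ hb] at hv
    rw [(Submodule.mem_bot ℂ).1 hv]
    exact zero_mem _
  · push Not at hb
    have hv' : v ∈ X.H (n - (n - x.1)) (n - (n - x.2)) := by
      rwa [Nat.sub_sub_self hb.1, Nat.sub_sub_self hb.2]
    obtain ⟨u, hu, hue⟩ := X.pr_surj (p := n - x.2) (q := n - x.1) (by omega) hv'
    refine ⟨u, X.mem_degree (by omega) hu, ?_⟩
    rw [LinearMap.mulLeft_apply, ← hue]
    congr 2
    omega

namespace RationalCohomology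

variable (R : RationalCohomology X)

theorem omega_pow_H (m : ℕ) : X.omega ^ m ∈ R.H (2 * m) := by
  induction m with
  | zero => rw [pow_zero]; exact R.one_mem
  | succ m ih =>
    rw [pow_succ]
    have := R.mul_mem _ _ _ _ ih R.omega_mem
    rwa [show 2 * m + 2 = 2 * (m + 1) by ring] at this

theorem omega_mul_H (m : ℕ) {k l : ℕ} (h : k + 2 * m = l) {r : A} (hr : r ∈ R.H k) :
    X.omega ^ m * r ∈ R.H l := by
  have := R.mul_mem _ _ _ _ (R.omega_pow_H m) hr
  rwa [show 2 * m + k = l by omega] at this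

/-- multiplication by a power of `omega` -/
noncomputable def om (X : HodgeRing n A) (m : ℕ) : A →ₗ[ℚ] A :=
  (LinearMap.mulLeft ℂ (X.omega ^ m)).restrictScalars ℚ

theorem om_apply (m : ℕ) (v : A) : om X m v = X.omega ^ m * v := rfl

theorem om_homs (m : ℕ) : om X m ∈ homs R.ops R.ops := by
  refine mem_homs R R (m := LinearMap.mulLeft ℂ (X.omega ^ m)) ?_ ?_
  · intro r hr
    exact R.classes_mul (R.omega_pow m) hr
  · intro d v
    exact X.omega_part_column d m v

/-- primitive rational classes -/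
noncomputable def prim (k : ℕ) : Submodule ℚ A :=
  R.H k ⊓ LinearMap.ker (om X (n - k + 1))

theorem prim_le (k : ℕ) : R.prim k ≤ R.H k := inf_le_left

theorem prim_zero {k : ℕ} {v : A} (hv : v ∈ R.prim k) : X.omega ^ (n - k + 1) * v = 0 := hv.2

theorem stable_prim (k : ℕ) : Stable R.ops (R.prim k) :=
  stable_inf (R.stable_H k) (Stable.ker (R.om_homs _))

theorem lef_inj {k : ℕ} (hk : k ≤ n) {m : ℕ} (hm : m ≤ n - k) {r : A} (hr : r ∈ R.H k)
    (h : om X m r = 0) : r = 0 := by
  refine lef_degree X hk (R.le_degree hr) ?_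
  rw [om_apply] at h
  rw [show n - k = (n - k - m) + m by omega, pow_add, mul_assoc, h, mul_zero]

variable [FiniteDimensional ℂ A]

theorem lef_map {k : ℕ} (hk : k ≤ n) : (R.H k).map (om X (n - k)) = R.H (2 * n - k) := by
  have := R.finite k
  have := R.finite (2 * n - k)
  refine Submodule.eq_of_le_of_finrank_le ?_ ?_
  · rintro _ ⟨r, hr, rfl⟩
    exact R.omega_mul_H _ (by omega) hr
  · have h1 : finrank ℚ ((R.H k).map (om X (n - k))) = finrank ℚ (R.H k) := by
      rw [← LinearMap.range_domRestrict]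
      refine LinearMap.finrank_range_of_inj ?_
      rw [injective_iff_map_eq_zero]
      intro x hx
      exact Subtype.ext (R.lef_inj hk le_rfl x.2 hx)
    rw [h1, R.finrank_eq, R.finrank_eq]
    have h2 := Submodule.finrank_mono (lef_degree_surj X hk)
    exact h2.trans (Submodule.finrank_map_le _ _)

theorem prim_sup {k : ℕ} (hk : k + 2 ≤ n) :
    R.prim (k + 2) ⊔ (R.H k).map (om X 1) = R.H (k + 2) := by
  apply le_antisymm
  · refine sup_le (R.prim_le _) ?_
    rintro _ ⟨r, hr, rfl⟩
    exact R.omega_mul_H _ (by omega) hr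
  · intro x hx
    have h1 : X.omega ^ (n - (k + 2) + 1) * x ∈ R.H (2 * n - k) := R.omega_mul_H _ (by omega) hx
    rw [← R.lef_map (by omega : k ≤ n)] at h1
    obtain ⟨u, hu, hue⟩ := h1
    rw [om_apply] at hue
    have h2 : x - om X 1 u ∈ R.prim (k + 2) := by
      refine ⟨sub_mem hx (R.omega_mul_H 1 (by omega) hu), ?_⟩
      change X.omega ^ (n - (k + 2) + 1) * (x - X.omega ^ 1 * u) = 0
      rw [mul_sub, ← mul_assoc, ← pow_add, show n - (k + 2) + 1 + 1 = n - k by omega, hue,
        sub_self]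
    rw [show x = (x - om X 1 u) + om X 1 u by abel]
    exact Submodule.add_mem_sup h2 ⟨u, hu, rfl⟩

omit [FiniteDimensional ℂ A] in
theorem prim_disj {k : ℕ} (hk : k + 2 ≤ n) :
    Disjoint (R.prim (k + 2)) ((R.H k).map (om X 1)) := by
  rw [Submodule.disjoint_def]
  rintro _ hx ⟨u, hu, rfl⟩
  have h1 := R.prim_zero hx
  rw [om_apply, ← mul_assoc, ← pow_add, show n - (k + 2) + 1 + 1 = n - k by omega] at h1
  rw [R.lef_inj (by omega : k ≤ n) le_rfl hu h1, map_zero]

omit [FiniteDimensional ℂ A] in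
theorem prim_low {k : ℕ} (hk : k ≤ 1) : R.prim k = R.H k := by
  apply le_antisymm (R.prim_le k)
  intro x hx
  refine ⟨hx, ?_⟩
  have h1 : X.omega ^ (n - k + 1) * x ∈ R.H (k + 2 * (n - k + 1)) := R.omega_mul_H _ rfl hx
  rw [R.H_big (by omega)] at h1
  exact (Submodule.mem_bot ℚ).1 h1

variable {L : Type*} [AddCommGroup L] [Module ℚ L] [FiniteDimensional ℚ L]
  (l : ℤ × (ℂ →ₗ[ℚ] ℚ) → Module.End ℚ L)

omit [FiniteDimensional ℚ L] in
theorem mu_serre {k : ℕ} (hk : k ≤ n) :
    mu l R.ops (R.H (2 * n - k)) = mu l R.ops (R.H k) := by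
  rw [← R.lef_map hk]
  exact mu_map (R.om_homs _) (R.stable_H k) fun x hx h => R.lef_inj hk le_rfl hx h

theorem mu_prim {k : ℕ} (hk : k + 2 ≤ n) :
    mu l R.ops (R.H (k + 2)) = mu l R.ops (R.prim (k + 2)) + mu l R.ops (R.H k) := by
  have := R.finite k
  have := R.finite (k + 2)
  have f1 : FiniteDimensional ℚ (R.prim (k + 2)) :=
    Submodule.finiteDimensional_of_le (R.prim_le (k + 2))
  have f2 : FiniteDimensional ℚ ((R.H k).map (om X 1)) := inferInstance
  rw [← R.prim_sup hk, mu_sup (R.stable_prim _) (stable_map (R.om_homs 1) (R.stable_H k))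
    (R.prim_disj hk)]
  congr 1
  exact mu_map (R.om_homs _) (R.stable_H k) fun x hx h => R.lef_inj (by omega) (by omega) hx h

end RationalCohomology

end

end Pool.Agent.Hodge7
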