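import Pool.Agent.Helper40.HS.Final

/-!
# The parts of level at least `n - 4`
-/

set_option autoImplicit false

namespace Pool.Agent.Hodge7

open Pool.Agent.Hodge81 Module TensorProduct Pool.Agent.Helper40.TH Pool.Agent.Helper40.HS
  Pool.Agent.Helper87.RF HodgeRing Complex

universe u v

section converse

variable {n : ℕ} {A B : Type*} [Ring A] [Algebra ℂ A] [Module ℚ A] [Ring B] [Algebra ℂ B]
  [Module ℚ B] {X : HodgeRing n A} {Y : HodgeRing n B}
  {R : RationalCohomology X} {S : RationalCohomology Y}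

/-- isomorphic Hodge structures have the same multiplicities -/
theorem mu_of_iso {L : Type*} [AddCommGroup L] [Module ℚ L] [FiniteDimensional ℚ L]
    (l : ℤ × (ℂ →ₗ[ℚ] ℚ) → Module.End ℚ L) {k : ℕ} {V : Submodule ℚ A} {W : Submodule ℚ B}
    (hV : V ≤ R.H k) (hW : W ≤ S.H k) (hVs : Stable R.ops V) (hWs : Stable S.ops W)
    (h : HodgeIso X Y V W) : mu l R.ops V = mu l S.ops W := by
  obtain ⟨E, h1, h2⟩ := h
  have hVc : V ≤ R.classes := hV.trans (R.H_le_classes k)
  have hWc : W ≤ S.classes := hW.trans (S.H_le_classes k)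
  have hsV : ∀ v : V, (v : A) ∈ Submodule.span ℂ (V : Set A) := fun v =>
    Submodule.subset_span v.2
  -- the rational isomorphism
  let e : V ≃ₗ[ℚ] W :=
    { toFun := fun v => ⟨E ⟨v, hsV v⟩, (h1 _).1 v.2⟩
      map_add' := fun v w => by
        apply Subtype.ext
        have : (⟨((v + w : V) : A), hsV (v + w)⟩ : Submodule.span ℂ (V : Set A)) =
            ⟨v, hsV v⟩ + ⟨w, hsV w⟩ := rfl
        change (E ⟨((v + w : V) : A), _⟩ : B) = _
        rw [this, map_add]
        rfl
      map_smul' := fun c v => by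
        apply Subtype.ext
        have : (⟨((c • v : V) : A), hsV (c • v)⟩ : Submodule.span ℂ (V : Set A)) =
            (c : ℂ) • ⟨v, hsV v⟩ := Subtype.ext (by
          change c • (v : A) = (c : ℂ) • (v : A)
          rw [Rat.cast_smul_eq_qsmul])
        change (E ⟨((c • v : V) : A), _⟩ : B) = _
        rw [this, map_smul, Submodule.coe_smul, Rat.cast_smul_eq_qsmul]
        rfl
      invFun := fun w => ⟨E.symm ⟨w, Submodule.subset_span w.2⟩, by
        rw [h1, LinearEquiv.apply_symm_apply]
        exact w.2⟩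
      left_inv := fun v => Subtype.ext (by
        change ((E.symm ⟨(E ⟨v, hsV v⟩ : B), _⟩ : Submodule.span ℂ (V : Set A)) : A) = v
        have : (⟨(E ⟨v, hsV v⟩ : B), (E ⟨v, hsV v⟩).2⟩ : Submodule.span ℂ (W : Set B)) =
          E ⟨v, hsV v⟩ := rfl
        rw [this, LinearEquiv.symm_apply_apply])
      right_inv := fun w => Subtype.ext (by
        change (E ⟨((E.symm ⟨w, Submodule.subset_span w.2⟩ : Submodule.span ℂ (V : Set A)) : A),
          _⟩ : B) = w
        have : (⟨((E.symm ⟨w, Submodule.subset_span w.2⟩ : Submodule.span ℂ (V : Set A)) : A),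
          (E.symm ⟨w, Submodule.subset_span w.2⟩).2⟩ : Submodule.span ℂ (V : Set A)) =
          E.symm ⟨w, Submodule.subset_span w.2⟩ := rfl
        rw [this, LinearEquiv.apply_symm_apply]) }
  have he : ∀ v : V, (e v : B) = E ⟨v, hsV v⟩ := fun v => rfl
  -- coefficients
  have hcoef : ∀ lam (y : Submodule.span ℂ (V : Set A)),
      S.coef lam (E y : B) = (e ⟨R.coef lam y, R.coef_mem lam hVc y.2⟩ : B) := by
    intro lam y
    obtain ⟨t, rfl⟩ := (tauEquiv R hV).surjective y
    induction t with
    | zero =>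
      have h3 : (⟨R.coef lam (tauEquiv R hV 0 : A),
          R.coef_mem lam hVc (tauEquiv R hV 0).2⟩ : V) = 0 := Subtype.ext (by
        change R.coef lam (tauEquiv R hV 0 : A) = 0
        rw [map_zero, Submodule.coe_zero, map_zero])
      rw [h3, map_zero, map_zero, map_zero]
      simp
    | tmul c v =>
      have h3 : (⟨R.coef lam (tauEquiv R hV (c ⊗ₜ v) : A),
          R.coef_mem lam hVc (tauEquiv R hV (c ⊗ₜ v)).2⟩ : V) = lam c • v := Subtype.ext (by
        change R.coef lam (tauEquiv R hV (c ⊗ₜ v) : A) = lam c • (v : A)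
        rw [tauEquiv_tmul, R.coef_smul lam c (hVc v.2)])
      have h4 : tauEquiv R hV (c ⊗ₜ v) = c • ⟨v, hsV v⟩ := Subtype.ext (tauEquiv_tmul R hV c v)
      rw [h3, map_smul, h4, map_smul, Submodule.coe_smul, ← he, S.coef_smul lam c (hWc (e v).2)]
      rfl
    | add x y hx hy =>
      have h3 : (⟨R.coef lam (tauEquiv R hV (x + y) : A),
          R.coef_mem lam hVc (tauEquiv R hV (x + y)).2⟩ : V) =
          ⟨R.coef lam (tauEquiv R hV x : A), R.coef_mem lam hVc (tauEquiv R hV x).2⟩ +
          ⟨R.coef lam (tauEquiv R hV y : A), R.coef_mem lam hVc (tauEquiv R hV y).2⟩ :=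
        Subtype.ext (by
          change R.coef lam (tauEquiv R hV (x + y) : A) =
            R.coef lam (tauEquiv R hV x : A) + R.coef lam (tauEquiv R hV y : A)
          rw [map_add, Submodule.coe_add, map_add])
      rw [h3, map_add, map_add, map_add, Submodule.coe_add, Submodule.coe_add, map_add, hx, hy]
  -- columns
  have hcolV : ∀ d (y : Submodule.span ℂ (V : Set A)),
      X.part (colSet d) (y : A) ∈ Submodule.span ℂ (V : Set A) :=
    fun d y => column_sub_part hVc hVs y.2 d
  have hdeg : ∀ y : Submodule.span ℂ (V : Set A), (y : A) ∈ X.degree k := fun y => by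
    have h1 : (y : A) ∈ Submodule.span ℂ (R.H k : Set A) := Submodule.span_mono hV y.2
    rwa [R.span] at h1
  have hcolE : ∀ d (y : Submodule.span ℂ (V : Set A)),
      (E ⟨X.part (colSet d) (y : A), hcolV d y⟩ : B) ∈ Y.column d := by
    intro d y
    rcases column_cases X (hdeg y) d with ⟨p, q, -, hd, hm⟩ | h0
    · exact Y.mem_column hd ((h2 p q _).1 hm)
    · have : (⟨X.part (colSet d) (y : A), hcolV d y⟩ : Submodule.span ℂ (V : Set A)) = 0 :=
        Subtype.ext h0
      rw [this, map_zero]
      exact zero_mem _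
  have hsum : ∀ y : Submodule.span ℂ (V : Set A), y =
      ∑ d ∈ Finset.Icc (-(n : ℤ)) n, ⟨X.part (colSet d) (y : A), hcolV d y⟩ := by
    intro y
    apply Subtype.ext
    rw [Submodule.coe_sum]
    change (y : A) = ∑ d ∈ Finset.Icc (-(n : ℤ)) n, X.part (colSet d) (y : A)
    refine X.induct (P := fun y => y = ∑ d ∈ Finset.Icc (-(n : ℤ)) n, X.part (colSet d) y)
      (fun p q a ha => ?_) (by simp) (fun a b ha hb => by
        simp only [map_add, Finset.sum_add_distrib]
        rw [← ha, ← hb]) (y : A)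
    by_cases hb : n < p ∨ n < q
    · rw [X.bounded _ _ hb] at ha
      rw [(Submodule.mem_bot ℂ).1 ha]
      simp
    · push Not at hb
      rw [Finset.sum_eq_single_of_mem ((p : ℤ) - q) (by rw [Finset.mem_Icc]; omega),
        X.part_of_mem ha (by simp [colSet])]
      intro d _ hne
      exact X.part_of_notMem ha fun h => hne (by
        simp only [colSet, Set.mem_ofPred_eq] at h
        exact h.symm)
  have hcol : ∀ d (y : Submodule.span ℂ (V : Set A)), Y.part (colSet d) (E y : B) =
      (E ⟨X.part (colSet d) (y : A), hcolV d y⟩ : B) := by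
    intro d y
    have h3 : (E y : B) = ∑ d ∈ Finset.Icc (-(n : ℤ)) n,
        (E ⟨X.part (colSet d) (y : A), hcolV d y⟩ : B) := by
      conv_lhs => rw [hsum y]
      rw [map_sum, Submodule.coe_sum]
    rw [h3, map_sum]
    by_cases hd : d ∈ Finset.Icc (-(n : ℤ)) n
    · rw [Finset.sum_eq_single_of_mem d hd]
      · exact Y.column_iff.1 (hcolE d y)
      · intro d' _ hne
        exact Y.part_column_ne hne (hcolE d' y)
    · rw [Finset.sum_eq_zero]
      · have h4 : X.part (colSet d) (y : A) = 0 := by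
          rcases column_cases X (hdeg y) d with ⟨p, q, -, hdd, hm⟩ | h0
          · rw [Finset.mem_Icc] at hd
            rw [X.bounded p q (by omega)] at hm
            exact (Submodule.mem_bot ℂ).1 hm
          · exact h0
        have : (⟨X.part (colSet d) (y : A), hcolV d y⟩ : Submodule.span ℂ (V : Set A)) = 0 :=
          Subtype.ext h4
        rw [this, map_zero]
        rfl
      · intro d' hd'
        exact Y.part_column_ne (fun h : d' = d => hd (by rw [← h]; exact hd')) (hcolE d' y)
  have := R.finite k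
  have := S.finite k
  have f1 : FiniteDimensional ℚ V := Submodule.finiteDimensional_of_le hV
  have f2 : FiniteDimensional ℚ W := Submodule.finiteDimensional_of_le hW
  rw [mu_eq hVs, mu_eq hWs]
  refine finrank_homs_equiv e fun i v => ?_
  apply Subtype.ext
  obtain ⟨d, lam⟩ := i
  have h5 := hcoef lam ⟨X.part (colSet d) (v : A), hcolV d ⟨v, hsV v⟩⟩
  rw [← hcol d ⟨v, hsV v⟩] at h5
  exact h5.symm

end converse

section

variable {n : ℕ} {A B : Type*} [Ring A] [Algebra ℂ A] [Module ℚ A] [Ring B]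
  [Algebra ℂ B] [Module ℚ B] {X : HodgeRing n A} {Y : HodgeRing n B} {phi : A ≃ₗ[ℂ] B}
  [FiniteDimensional ℂ A] [FiniteDimensional ℂ B]
  {R : RationalCohomology X} {S : RationalCohomology Y}
  {L : Type*} [AddCommGroup L] [Module ℚ L] [FiniteDimensional ℚ L]
  {l : ℤ × (ℂ →ₗ[ℚ] ℚ) → Module.End ℚ L}

omit [FiniteDimensional ℂ A] [FiniteDimensional ℚ L] in
theorem RationalCohomology.mu_zero_par (R : RationalCohomology X) (hl : Simple l) {j k : ℕ}
    (hj : RationalCohomology.HasCol l j) (hk : k < j ∨ k % 2 ≠ j % 2 ∨ n < j) :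
    mu l R.ops (R.prim k) = 0 := by
  refine R.mu_zero hl hj fun v hv => ?_
  rcases column_cases X (R.le_degree (R.prim_le k hv)) (-(j : ℤ)) with ⟨p, q, hpq, hd, hm⟩ | h0
  · rcases hk with hk | hk | hk
    · omega
    · omega
    · rw [X.bounded p q (by omega)] at hm
      exact (Submodule.mem_bot ℂ).1 hm
  · exact h0

theorem trunc (f : ℕ → ℕ) {N M : ℕ} (h : M ≤ N) (h0 : ∀ c, M ≤ c → c < N → f c = 0) :
    ∑ c ∈ Finset.range N, f c = ∑ c ∈ Finset.range M, f c := by
  refine (Finset.sum_subset (Finset.range_subset_range.2 h) fun c hc hc' => ?_).symm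
  rw [Finset.mem_range] at hc hc'
  exact h0 c (by omega) hc

theorem trunc_eq {f g : ℕ → ℕ} {N : ℕ}
    (e : ∑ c ∈ Finset.range N, f c = ∑ c ∈ Finset.range N, g c) (M : ℕ) (h : M ≤ N)
    (hf : ∀ c, M ≤ c → c < N → f c = 0) (hg : ∀ c, M ≤ c → c < N → g c = 0) :
    ∑ c ∈ Finset.range M, f c = ∑ c ∈ Finset.range M, g c := by
  rw [← trunc f h hf, ← trunc g h hg, e]

/-- the multiplicities in the primitive cohomology, from the one in lowest degree -/
theorem prim_all (hM : IsMukaiIsometry X Y phi) (hR : IsRational R S phi) (hl : Simple l) {j : ℕ}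
    (hj : j ≤ n) (hj4 : n ≤ j + 4) (hc : RationalCohomology.HasCol l j)
    (h0 : n ≤ j + 2 ∨ mu l R.ops (R.H j) = mu l S.ops (S.H j)) (k : ℕ) (hk : k ≤ n) :
    mu l R.ops (R.prim k) = mu l S.ops (S.prim k) := by
  -- the degree `j`
  have hH : mu l R.ops (R.H j) = mu l S.ops (S.H j) := by
    rcases h0 with h0 | h0
    · exact mu_top l hM hR hl hj h0 hc
    · exact h0
  have hprim : mu l R.ops (R.prim j) = mu l S.ops (S.prim j) := by
    rcases Nat.lt_or_ge j 2 with h2 | h2
    · rwa [R.mu_low l (by omega), S.mu_low l (by omega)] at hH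
    · obtain ⟨k, rfl⟩ : ∃ k, j = k + 2 := ⟨j - 2, by omega⟩
      rwa [R.mu_prim l hj, S.mu_prim l hj, R.mu_zero_H (k := k) hl hc (by omega),
        S.mu_zero_H (k := k) hl hc (by omega), add_zero, add_zero] at hH
  by_cases hbad : k < j ∨ k % 2 ≠ j % 2
  · rw [R.mu_zero_par hl hc (by omega), S.mu_zero_par hl hc (by omega)]
  push Not at hbad
  obtain ⟨hkj, hpar⟩ := hbad
  rcases Nat.eq_or_lt_of_le hkj with rfl | hlt
  · exact hprim
  -- the identities, truncated
  have zR : ∀ i, i < j → mu l R.ops (R.prim i) = 0 := fun i hi => R.mu_zero_prim hl hc hi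
  have zS : ∀ i, i < j → mu l S.ops (S.prim i) = 0 := fun i hi => S.mu_zero_prim hl hc hi
  obtain rfl | rfl | rfl : n = j + 2 ∨ n = j + 3 ∨ n = j + 4 := by omega
  · -- `n = j + 2`, `k = n`
    obtain rfl : k = j + 2 := by omega
    have s0 := trunc_eq (sig_eq l hM hR (t := 0) (by omega)) 2 (by omega)
      (fun c h1 h2 => by rw [zR _ (by omega), mul_zero])
      (fun c h1 h2 => by rw [zS _ (by omega), mul_zero])
    simp only [Finset.sum_range_succ, Finset.sum_range_zero] at s0
    rw [show j + 2 - 2 * 1 = j by omega, show j + 2 - 2 * 0 = j + 2 by omega] at s0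
    norm_num at s0
    omega
  · obtain rfl : k = j + 2 := by omega
    have s0 := trunc_eq (odd_eq l hM hR) 2 (by omega)
      (fun c h1 h2 => by rw [zR _ (by omega), mul_zero])
      (fun c h1 h2 => by rw [zS _ (by omega), mul_zero])
    simp only [Finset.sum_range_succ, Finset.sum_range_zero] at s0
    rw [show j + 3 - 1 - 2 * 1 = j by omega, show j + 3 - 1 - 2 * 0 = j + 2 by omega] at s0
    norm_num at s0
    omega
  · have s0 := trunc_eq (sig_eq l hM hR (t := 0) (by omega)) 3 (by omega)
      (fun c h1 h2 => by rw [zR _ (by omega), mul_zero])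
      (fun c h1 h2 => by rw [zS _ (by omega), mul_zero])
    have s1 := trunc_eq (sig_eq l hM hR (t := 1) (by omega)) 3 (by omega)
      (fun c h1 h2 => by rw [zR _ (by omega), mul_zero])
      (fun c h1 h2 => by rw [zS _ (by omega), mul_zero])
    simp only [Finset.sum_range_succ, Finset.sum_range_zero] at s0 s1
    rw [show j + 4 - 2 * 2 = j by omega, show j + 4 - 2 * 1 = j + 2 by omega,
      show j + 4 - 2 * 0 = j + 4 by omega] at s0 s1
    norm_num at s0 s1
    obtain rfl | rfl : k = j + 2 ∨ k = j + 4 := by omega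
    · omega
    · omega

theorem H_all (R : RationalCohomology X) (S : RationalCohomology Y)
    (h : ∀ k ≤ n, mu l R.ops (R.prim k) = mu l S.ops (S.prim k)) (k : ℕ) :
    mu l R.ops (R.H k) = mu l S.ops (S.H k) := by
  have low : ∀ k, k ≤ n → mu l R.ops (R.H k) = mu l S.ops (S.H k) := by
    intro k
    induction k using Nat.strong_induction_on with
    | _ k ih =>
      intro hk
      rcases Nat.lt_or_ge k 2 with h2 | h2
      · rw [R.mu_low l (by omega), S.mu_low l (by omega), h k hk]
      · obtain ⟨m, rfl⟩ : ∃ m, k = m + 2 := ⟨k - 2, by omega⟩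
        rw [R.mu_prim l hk, S.mu_prim l hk, h _ hk, ih m (by omega) (by omega)]
  rcases Nat.lt_or_ge n k with hn | hn
  · rcases Nat.lt_or_ge (2 * n) k with h2 | h2
    · exact mu_big l h2
    · have e1 := R.mu_serre l (k := 2 * n - k) (by omega)
      have e2 := S.mu_serre l (k := 2 * n - k) (by omega)
      rw [show 2 * n - (2 * n - k) = k by omega] at e1 e2
      rw [e1, e2, low _ (by omega)]
  · exact low k hn

theorem mu_level_eq (hM : IsMukaiIsometry X Y phi) (hR : IsRational R S phi) (hl : Simple l)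
    {m : ℕ} (hm : n ≤ m + 4)
    (h : ∀ j, m ≤ j → HodgeIso X Y (R.level j j) (S.level j j)) (k : ℕ) :
    mu l R.ops (R.level k m) = mu l S.ops (S.level k m) := by
  by_cases hc : ∃ p q : ℕ, p + q = k ∧ p + m ≤ q ∧ RationalCohomology.HasCol l (q - p)
  · obtain ⟨p, q, hpq, hpm, hc⟩ := hc
    rw [R.mu_level_of hl (by omega) hc, S.mu_level_of hl (by omega) hc]
    rcases Nat.lt_or_ge n (q - p) with hb | hb
    · refine H_all R S (fun k hk => ?_) k
      rw [R.mu_zero_par hl hc (by omega), S.mu_zero_par hl hc (by omega)]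
    · refine H_all R S (fun k hk => prim_all hM hR hl hb (by omega) hc (Or.inr ?_) k hk) k
      have h1 := mu_of_iso l (R.level_le _ _) (S.level_le _ _) (R.level_stable _ _)
        (S.level_stable _ _) (h (q - p) (by omega))
      rwa [R.mu_level_of hl le_rfl hc, S.mu_level_of hl le_rfl hc] at h1
  · push Not at hc
    rw [R.mu_level_not fun p q h1 h2 => hc p q h1 h2,
      S.mu_level_not fun p q h1 h2 => hc p q h1 h2]

end

/-- the parts of level at least `n - 4` -/
theorem level_main {n : ℕ} {A : Type u} {B : Type v} [Ring A] [Algebra ℂ A] [Module ℚ A] [Ring B]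
    [Algebra ℂ B] [Module ℚ B] {X : HodgeRing n A} {Y : HodgeRing n B} {phi : A ≃ₗ[ℂ] B}
    [FiniteDimensional ℂ A] [FiniteDimensional ℂ B]
    {R : RationalCohomology X} {S : RationalCohomology Y}
    (hM : IsMukaiIsometry X Y phi) (hR : IsRational R S phi) {m : ℕ} (hm : n ≤ m + 4)
    (h : ∀ j, m ≤ j → HodgeIso X Y (R.level j j) (S.level j j)) (k : ℕ) :
    HodgeIso X Y (R.level k m) (S.level k m) :=
  hodgeIso_of_mu (R.level_le k m) (S.level_le k m) (R.level_stable k m) (S.level_stable k m)
    (fun L _ _ _ l hl => (mu_level_eq hM hR hl hm h k).le)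
    (fun L _ _ _ l hl => (mu_level_eq hM hR hl hm h k).ge)

end Pool.Agent.Hodge7
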