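import Pool.Agent.Helper40.HS.Forms

/-!
# Comparison of holomorphic forms by the evaluation at `exp (t omega)`, `t` rational
-/

set_option autoImplicit false

namespace Pool.Agent.Hodge7

open Pool.Agent.Hodge81 Module TensorProduct Pool.Agent.Helper40.TH Pool.Agent.Helper40.HS
  Pool.Agent.Helper87.RF HodgeRing Complex Polynomial

section complex

variable {n : ℕ} {A B : Type*} [Ring A] [Algebra ℂ A] [Ring B] [Algebra ℂ B]
  {X : HodgeRing n A} {Y : HodgeRing n B} {P : PolyvectorAction X} {Q : PolyvectorAction Y}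
  {phi : A ≃ₗ[ℂ] B}

/-- the evaluation map is injective if the rank does not vanish -/
theorem eval_inj_rank (h : IsHochschildIso P Q phi) (hM : IsMukaiIsometry X Y phi)
    (hr : Y.proj 0 0 (phi (X.expo I)) ≠ 0) (k : ℕ) {y : B} (hy : y ∈ Y.H 0 k)
    (h0 : evalE X phi y = 0) : y = 0 := by
  obtain ⟨-, h2⟩ := evalE_spec h P.eval hy
  have hcol : phi (X.expo I) ∈ Y.column 0 := by
    rw [← hM.column 0]
    exact Submodule.mem_map_of_mem (expo_column X I)
  rw [h0, zero_mul, map_zero] at h2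
  have h3 := proj_mul hy hcol
  rw [h2, map_zero] at h3
  have h4 : ∀ b : B, Y.proj 0 0 b ∈ Y.H 0 0 := by
    refine Y.induct (P := fun b => Y.proj 0 0 b ∈ Y.H 0 0) (fun p q a ha => ?_) (by simp)
      (fun a b ha hb => by rw [map_add]; exact Submodule.add_mem _ ha hb)
    rw [Y.proj_of_mem 0 0 ha]
    split_ifs with hpq
    · have e1 := (Prod.ext_iff.1 hpq).1
      have e2 := (Prod.ext_iff.1 hpq).2
      simp only at e1 e2
      subst e1 e2
      exact ha
    · exact Submodule.zero_mem _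
  obtain ⟨c, hc⟩ : ∃ c : ℂ, Y.proj 0 0 (phi (X.expo I)) = c • (1 : B) := by
    have h5 := (finrank_eq_one_iff_of_nonzero' (⟨1, Y.one_mem⟩ : Y.H 0 0) (by
      intro h6
      exact one_ne_zero_of Y (congrArg Subtype.val h6))).1 Y.connected
        ⟨_, h4 (phi (X.expo I))⟩
    obtain ⟨c, hc⟩ := h5
    exact ⟨c, (congrArg Subtype.val hc).symm⟩
  rw [hc, mul_smul_comm, mul_one] at h3
  rcases smul_eq_zero.1 h3.symm with h6 | h6
  · exfalso
    apply hr
    rw [hc, h6, zero_smul]
  · exact h6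

theorem H_le_gen (X : HodgeRing n A) {j : ℕ} (hj : j ≤ 2) : X.H 0 j ≤ X.genPart j := by
  intro a ha
  refine ⟨?_, ha⟩
  obtain rfl | rfl | rfl : j = 0 ∨ j = 1 ∨ j = 2 := by omega
  · have h5 := (finrank_eq_one_iff_of_nonzero' (⟨1, X.one_mem⟩ : X.H 0 0) (by
      intro h6
      exact one_ne_zero_of X (congrArg Subtype.val h6))).1 X.connected ⟨a, ha⟩
    obtain ⟨c, hc⟩ := h5
    have : a = c • (1 : A) := (congrArg Subtype.val hc).symm
    rw [this]
    exact Submodule.smul_mem _ _ X.genAlg.one_mem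
  · exact Algebra.subset_adjoin (Or.inl ha)
  · exact Algebra.subset_adjoin (Or.inr ha)

variable [FiniteDimensional ℂ A] [FiniteDimensional ℂ B]

/-- the evaluation map is injective on the algebra generated by degrees one and two -/
theorem eval_inj_gen (h : IsHochschildIso P Q phi) (q : ℕ) {y : B} (hy : y ∈ Y.genPart q)
    (h0 : evalE X phi y = 0) : y = 0 := by
  have h1 := lowPart_surj h P.eval P.kerOne P.kerTwo Q.eval Q.kerOne Q.kerTwo q
  have h2 := Submodule.finrank_mono h1
  rw [lowPart_finrank h P.eval P.kerOne P.kerTwo Q.eval Q.kerOne Q.kerTwo q,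
    ← LinearMap.range_domRestrict] at h2
  have h3 := LinearMap.finrank_range_add_finrank_ker ((evalE X phi).domRestrict (Y.lowPart q))
  have h4 : finrank ℂ (LinearMap.ker ((evalE X phi).domRestrict (Y.lowPart q))) = 0 := by omega
  rw [Submodule.finrank_eq_zero] at h4
  have h5 : (⟨y, hy⟩ : Y.lowPart q) ∈ LinearMap.ker ((evalE X phi).domRestrict (Y.lowPart q)) :=
    h0
  rw [h4, Submodule.mem_bot] at h5
  exact congrArg Subtype.val h5

/-- the evaluation maps are injective in every degree if the algebra generated by one- and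
two-forms reaches degree `n - 1` -/
theorem eval_inj_reach (h : IsHochschildIso P Q phi) (hM : IsMukaiIsometry X Y phi) {q : ℕ}
    (hq : n ≤ q + 1) (hne : X.genPart q ≠ ⊥) (k : ℕ) {y : B} (hy : y ∈ Y.H 0 k)
    (h0 : evalE X phi y = 0) : y = 0 := by
  obtain ⟨x, hx, hx0⟩ := (Submodule.ne_bot_iff _).1 hne
  obtain ⟨y', hy', hxy⟩ :=
    lowPart_surj h P.eval P.kerOne P.kerTwo Q.eval Q.kerOne Q.kerTwo q hx
  refine eval_inj_rank h hM (rank_ne h hM P.eval hq hy'.2 ?_) k hy h0
  rw [hxy]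
  exact hx0

/-- the evaluation at `exp (t omega)` is injective on `H^{0,j}` for some rational `t` -/
theorem exists_rat_inj' (h : IsHochschildIso P Q phi) {j : ℕ} (h02 : X.h 0 j = Y.h 0 j)
    (hI : ∀ y ∈ Y.H 0 j, ev X phi I y = 0 → y = 0) :
    ∃ q : ℚ, ∀ y ∈ Y.H 0 j, ev X phi (q : ℂ) y = 0 → y = 0 := by
  classical
  let e : X.H 0 j ≃ₗ[ℂ] Y.H 0 j := LinearEquiv.ofFinrankEq _ _ h02
  let f : ℂ → (Y.H 0 j →ₗ[ℂ] Y.H 0 j) := fun t => e.toLinearMap ∘ₗ
    (LinearMap.codRestrict (X.H 0 j) ((ev X phi t).domRestrict (Y.H 0 j))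
      (fun y => ev_mem h t y.2))
  let b := Module.finBasis ℂ (Y.H 0 j)
  have hc : ∀ i, ∃ c : A →ₗ[ℂ] ℂ, ∀ x : X.H 0 j, c x = b.coord i (e x) := by
    intro i
    obtain ⟨g, hg⟩ := LinearMap.exists_extend (p := X.H 0 j) ((b.coord i) ∘ₗ e.toLinearMap)
    exact ⟨g, fun x => LinearMap.congr_fun hg x⟩
  choose c hc using hc
  have hp : ∀ i k, ∃ p : ℂ[X], ∀ t : ℂ, c i (ev X phi t (b k : B)) = p.eval t := fun i k =>
    exists_poly X phi (c i) (b k : B)
  choose p hp using hp
  let M : Matrix _ _ ℂ[X] := Matrix.of p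
  have hM : ∀ t : ℂ, LinearMap.toMatrix b b (f t) = (Polynomial.evalRingHom t).mapMatrix M := by
    intro t
    ext i k
    rw [LinearMap.toMatrix_apply, RingHom.mapMatrix_apply, Matrix.map_apply]
    change _ = (p i k).eval t
    rw [← hp i k t]
    exact (hc i ⟨ev X phi t (b k : B), ev_mem h t (b k).2⟩).symm
  have hdet : ∀ t : ℂ, LinearMap.det (f t) = M.det.eval t := by
    intro t
    rw [← LinearMap.det_toMatrix b, hM, ← RingHom.map_det]
    rfl
  have hker : ∀ t : ℂ, (∀ y ∈ Y.H 0 j, ev X phi t y = 0 → y = 0) ↔ LinearMap.det (f t) ≠ 0 := by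
    intro t
    rw [← isUnit_iff_ne_zero, ← LinearMap.isUnit_iff_isUnit_det, LinearMap.isUnit_iff_ker_eq_bot,
      LinearMap.ker_eq_bot']
    constructor
    · intro h1 y hy
      have h2 : ev X phi t y = 0 := by
        have h3 := (LinearEquiv.map_eq_zero_iff e).1 hy
        exact congrArg Subtype.val h3
      exact Subtype.ext (h1 _ y.2 h2)
    · intro h1 y hy h2
      have h3 := h1 ⟨y, hy⟩ ((LinearEquiv.map_eq_zero_iff e).2 (Subtype.ext h2))
      exact congrArg Subtype.val h3
  have h1 := (hker I).1 hI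
  rw [hdet] at h1
  have h2 : M.det ≠ 0 := by
    intro h3
    rw [h3, Polynomial.eval_zero] at h1
    exact h1 rfl
  obtain ⟨q, hq⟩ := exists_rat_eval_ne_zero h2
  refine ⟨q, (hker q).2 ?_⟩
  rw [hdet]
  exact hq

end complex

section

variable {n : ℕ} {A B : Type*} [Ring A] [Algebra ℂ A] [Module ℚ A] [Ring B] [Algebra ℂ B]
  [Module ℚ B] {X : HodgeRing n A} {Y : HodgeRing n B} {P : PolyvectorAction X}
  {Q : PolyvectorAction Y} {phi : A ≃ₗ[ℂ] B}

omit [Module ℚ A] [Module ℚ B] in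
theorem col_comm {f : A →ₗ[ℂ] B} (hf : ∀ d, ∀ v ∈ X.column d, f v ∈ Y.column d) (d : ℤ)
    (v : A) : f (X.part (colSet d) v) = Y.part (colSet d) (f v) := by
  refine X.induct (P := fun v => f (X.part (colSet d) v) = Y.part (colSet d) (f v))
    (fun p q a ha => ?_) (by simp) (fun a b ha hb => by simp only [map_add, ha, hb]) v
  have h1 := hf ((p : ℤ) - q) a (X.mem_column rfl ha)
  by_cases h : (p : ℤ) - q = d
  · rw [X.part_of_mem ha (by exact h)]
    rw [h] at h1
    exact (Y.column_iff.1 h1).symm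
  · rw [X.part_of_notMem ha (by exact h), map_zero, Y.part_column_ne h h1]

variable [FiniteDimensional ℂ A] [FiniteDimensional ℂ B]
  {R : RationalCohomology X} {S : RationalCohomology Y}

theorem emb_forms (h : IsHochschildIso P Q phi) (hM : IsMukaiIsometry X Y phi)
    (hR : IsRational R S phi) {j : ℕ} (h0j : X.h 0 j = Y.h 0 j)
    (hI : ∀ y ∈ Y.H 0 j, evalE X phi y = 0 → y = 0) :
    Emb (res S.ops (S.forms_stable j)) (res R.ops (R.forms_stable j)) := by
  obtain ⟨q, hq⟩ := exists_rat_inj' h h0j hI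
  let m : B →ₗ[ℂ] A := X.part (degSet j) ∘ₗ ev X phi (q : ℂ)
  have hmH : ∀ b ∈ S.classes, m b ∈ R.H j := fun b hb => R.part_mem_H (R.ev_mem S hR q hb) j
  have hmc : ∀ b ∈ S.classes, m b ∈ R.classes := fun b hb => R.H_le_classes j (hmH b hb)
  have hcol : ∀ d v, m (Y.part (colSet d) v) = X.part (colSet d) (m v) := by
    intro d v
    change X.part (degSet j) (ev X phi (q : ℂ) (Y.part (colSet d) v)) =
      X.part (colSet d) (X.part (degSet j) (ev X phi (q : ℂ) v))
    rw [col_comm (f := ev X phi (q : ℂ)) (fun d v hv => ev_column hM _ hv), X.part_comm]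
  have hm0 : ∀ y ∈ Y.H 0 j, m y = ev X phi (q : ℂ) y := fun y hy =>
    X.part_of_mem (ev_mem h _ hy) (by simp [degSet])
  have hmh := mem_homs S R hmc hcol
  -- the image of the forms
  have hsub : S.forms j ≤ S.H j ⊓ (R.forms j).comap (m.restrictScalars ℚ) := by
    refine S.forms_min inf_le_left
      (stable_inf (S.stable_H j) (stable_comap hmh (R.forms_stable j))) fun y hy => ?_
    refine S.mem_span_of_coef fun lam => ⟨?_, ?_⟩
    · exact S.coef_mem lam (S.H_le_classes j) (S.H_mem_set j hy)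
    · change m (S.coef lam y) ∈ R.forms j
      rw [coef_comm S R hmc, hm0 y hy]
      exact R.coef_mem lam (R.forms_classes j) (R.H_le_forms j (ev_mem h _ hy))
  let F : S.forms j →ₗ[ℚ] R.forms j :=
    (m.restrictScalars ℚ).restrict fun v hv => (hsub hv).2
  have hF : F ∈ homs (res S.ops (S.forms_stable j)) (res R.ops (R.forms_stable j)) :=
    fun i v => Subtype.ext (hmh i v)
  refine ⟨F, hF, ?_⟩
  rw [← LinearMap.ker_eq_bot]
  have hker : S.forms j ⊓ LinearMap.ker (m.restrictScalars ℚ) = ⊥ := by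
    refine S.forms_eq_bot inf_le_left
      (stable_inf (S.forms_stable j) (Stable.ker hmh)) fun v hv => ?_
    have h1 := RationalCohomology.part_mem_zero (X := Y) (S.le_degree (S.forms_le j hv.1))
    apply hq _ h1
    rw [← hm0 _ h1, hcol]
    have h2 : m v = 0 := hv.2
    rw [h2, map_zero]
  rw [eq_bot_iff]
  intro v hv
  have h1 : (v : B) ∈ S.forms j ⊓ LinearMap.ker (m.restrictScalars ℚ) :=
    ⟨v.2, congrArg Subtype.val hv⟩
  rw [hker, Submodule.mem_bot] at h1
  rw [Submodule.mem_bot]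
  exact Subtype.ext h1

/-- an isomorphism of the forms, if the evaluation maps are injective -/
theorem hodgeIso_forms (h : IsHochschildIso P Q phi) (hM : IsMukaiIsometry X Y phi)
    (hR : IsRational R S phi) {j : ℕ}
    (hI : ∀ y ∈ Y.H 0 j, evalE X phi y = 0 → y = 0)
    (hI' : ∀ x ∈ X.H 0 j, evalE Y phi.symm x = 0 → x = 0) :
    X.h 0 j = Y.h 0 j ∧ Emb (res S.ops (S.forms_stable j)) (res R.ops (R.forms_stable j)) ∧
      Emb (res R.ops (R.forms_stable j)) (res S.ops (S.forms_stable j)) := by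
  have h0 : X.h 0 j = Y.h 0 j :=
    le_antisymm (finrank_le_eval h.symm Q.eval hI') (finrank_le_eval h P.eval hI)
  exact ⟨h0, emb_forms h hM hR h0 hI, emb_forms h.symm hM.symm hR.symm h0.symm hI'⟩

end

end Pool.Agent.Hodge7
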