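import Mathlib

/-!
# The numerical consequences of the identities in dimension at most six
-/

set_option autoImplicit false

namespace Pool.Agent.Helper40.HS

open Finset

/-- the relations between the multiplicities in the cohomology and in the primitive cohomology -/
structure Lefs (n : ℕ) (a p : ℕ → ℕ) : Prop where
  serre : ∀ k ≤ n, a (2 * n - k) = a k
  prim : ∀ k, k + 2 ≤ n → a (k + 2) = p (k + 2) + a k
  low : ∀ k ≤ 1, a k = p k

/-- the identities between the two sides -/
structure Idents (n : ℕ) (p p' : ℕ → ℕ) : Prop where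
  sig : ∀ t ≤ 1, ∑ c ∈ range (n / 2 + 1), (c + if c % 2 = t % 2 then 1 else 0) * p (n - 2 * c) =
    ∑ c ∈ range (n / 2 + 1), (c + if c % 2 = t % 2 then 1 else 0) * p' (n - 2 * c)
  odd : ∑ c ∈ range ((n + 1) / 2), (2 * c + 2) * p (n - 1 - 2 * c) =
    ∑ c ∈ range ((n + 1) / 2), (2 * c + 2) * p' (n - 1 - 2 * c)

theorem half {n : ℕ} {a p a' p' : ℕ → ℕ} (h : Lefs n a p) (h' : Lefs n a' p') {e : ℕ}
    (hlow : ∀ k ≤ n, k % 2 = e → a k = a' k) : ∀ k ≤ 2 * n, k % 2 = e → a k = a' k := by
  intro k hk hke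
  rcases Nat.lt_or_ge n k with hn | hn
  · have h1 := h.serre (2 * n - k) (by omega)
    have h2 := h'.serre (2 * n - k) (by omega)
    rw [show 2 * n - (2 * n - k) = k by omega] at h1 h2
    rw [h1, h2]
    exact hlow _ (by omega) (by omega)
  · exact hlow k hn hke

theorem nums_odd {n : ℕ} {a p a' p' : ℕ → ℕ} (h : Lefs n a p) (h' : Lefs n a' p')
    (hi : Idents n p p') (hn : n ≤ 5) (e1 : a 1 = a' 1) : ∀ k ≤ 2 * n, k % 2 = 1 → a k = a' k := by
  refine half h h' ?_
  have s0 := hi.sig 0 (by omega)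
  have s1 := hi.sig 1 (by omega)
  have s2 := hi.odd
  have l1 := h.low 1 le_rfl
  have l1' := h'.low 1 le_rfl
  have hp := h.prim
  have hp' := h'.prim
  intro k hk hk1
  obtain rfl | rfl | rfl : k = 1 ∨ k = 3 ∨ k = 5 := by omega
  · exact e1
  · have q1 := hp 1 (by omega)
    have q1' := hp' 1 (by omega)
    obtain rfl | rfl | rfl : n = 3 ∨ n = 4 ∨ n = 5 := by omega
    · norm_num [sum_range_succ] at s0 s1 s2 q1 q1'
      omega
    · norm_num [sum_range_succ] at s0 s1 s2 q1 q1'
      omega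
    · norm_num [sum_range_succ] at s0 s1 s2 q1 q1'
      omega
  · obtain rfl : n = 5 := by omega
    have q1 := hp 1 (by omega)
    have q1' := hp' 1 (by omega)
    have q3 := hp 3 (by omega)
    have q3' := hp' 3 (by omega)
    norm_num [sum_range_succ] at s0 s1 s2 q1 q1' q3 q3'
    omega

theorem nums_even {n : ℕ} {a p a' p' : ℕ → ℕ} (h : Lefs n a p) (h' : Lefs n a' p')
    (hi : Idents n p p') (hn : n ≤ 6) (e0 : a 0 = a' 0) (e2 : n ≤ 4 ∨ a 2 = a' 2) :
    ∀ k ≤ 2 * n, k % 2 = 0 → a k = a' k := by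
  refine half h h' ?_
  have s0 := hi.sig 0 (by omega)
  have s1 := hi.sig 1 (by omega)
  have s2 := hi.odd
  have l1 := h.low 0 (by omega)
  have l1' := h'.low 0 (by omega)
  have hp := h.prim
  have hp' := h'.prim
  intro k hk hk1
  obtain rfl | rfl | rfl | rfl : k = 0 ∨ k = 2 ∨ k = 4 ∨ k = 6 := by omega
  · exact e0
  · rcases e2 with e2 | e2
    · have q0 := hp 0 (by omega)
      have q0' := hp' 0 (by omega)
      obtain rfl | rfl | rfl : n = 2 ∨ n = 3 ∨ n = 4 := by omega
      · norm_num [sum_range_succ] at s0 s1 s2 q0 q0'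
        omega
      · norm_num [sum_range_succ] at s0 s1 s2 q0 q0'
        omega
      · norm_num [sum_range_succ] at s0 s1 s2 q0 q0'
        omega
    · exact e2
  · have q0 := hp 0 (by omega)
    have q0' := hp' 0 (by omega)
    have q2 := hp 2 (by omega)
    have q2' := hp' 2 (by omega)
    obtain rfl | rfl | rfl : n = 4 ∨ n = 5 ∨ n = 6 := by omega
    · norm_num [sum_range_succ] at s0 s1 s2 q0 q0' q2 q2'
      omega
    · norm_num [sum_range_succ] at s0 s1 s2 q0 q0' q2 q2' e2
      omega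
    · norm_num [sum_range_succ] at s0 s1 s2 q0 q0' q2 q2' e2
      omega
  · obtain rfl : n = 6 := by omega
    have q0 := hp 0 (by omega)
    have q0' := hp' 0 (by omega)
    have q2 := hp 2 (by omega)
    have q2' := hp' 2 (by omega)
    have q4 := hp 4 (by omega)
    have q4' := hp' 4 (by omega)
    norm_num [sum_range_succ] at s0 s1 s2 q0 q0' q2 q2' q4 q4' e2
    omega

end Pool.Agent.Helper40.HS
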