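import Pool.Agent.Helper40.HS.Sig
import Pool.Agent.Helper40.HS.Count

/-!
# The definite pieces of the strings, and the comparison
-/

set_option autoImplicit false

namespace Pool.Agent.Hodge7

open Pool.Agent.Hodge81 Module TensorProduct Pool.Agent.Helper40.TH Pool.Agent.Helper40.HS
  Pool.Agent.Helper87.RF HodgeRing Complex

theorem span_map_rat {A B : Type*} [AddCommGroup A] [Module ℂ A] [Module ℚ A] [AddCommGroup B]
    [Module ℂ B] [Module ℚ B] (m : B →ₗ[ℂ] A) (W : Submodule ℚ B) :
    Submodule.span ℂ ((W.map (m.restrictScalars ℚ) : Submodule ℚ A) : Set A) =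
      (Submodule.span ℂ (W : Set B)).map m := by
  rw [Submodule.map_span]
  congr 1

section

variable {n : ℕ} {A : Type*} [Ring A] [Algebra ℂ A] [Module ℚ A] {X : HodgeRing n A}

/-- the coefficient of the second term -/
def zco (t c i : ℕ) : ℚ := if i < c then (-1) ^ (t + i) else 0

/-- `x ↦ omega ^ i x ± omega ^ (2 c - i) x` -/
noncomputable def uuC (X : HodgeRing n A) (t c i : ℕ) : A →ₗ[ℂ] A :=
  LinearMap.mulLeft ℂ (X.omega ^ i) + ((zco t c i : ℚ) : ℂ) •
    LinearMap.mulLeft ℂ (X.omega ^ (2 * c - i))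

omit [Module ℚ A] in
theorem uuC_apply (t c i : ℕ) (x : A) : uuC X t c i x =
    X.omega ^ i * x + ((zco t c i : ℚ) : ℂ) • (X.omega ^ (2 * c - i) * x) := rfl

omit [Module ℚ A] in
theorem uuC_sesq (t c i t' c' i' : ℕ) (x x' : A) :
    X.sesq (uuC X t c i x) (uuC X t' c' i' x') =
      X.sesq (X.omega ^ i * x) (X.omega ^ i' * x') +
      (zco t' c' i' : ℂ) * X.sesq (X.omega ^ i * x) (X.omega ^ (2 * c' - i') * x') +
      (zco t c i : ℂ) * X.sesq (X.omega ^ (2 * c - i) * x) (X.omega ^ i' * x') +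
      (zco t c i : ℂ) * (zco t' c' i' : ℂ) *
        X.sesq (X.omega ^ (2 * c - i) * x) (X.omega ^ (2 * c' - i') * x') := by
  rw [uuC_apply, uuC_apply]
  simp only [X.sesq_add_left, X.sesq_add_right, X.sesq_smul_left, X.sesq_smul_right, map_ratCast]
  ring

namespace RationalCohomology

variable (R : RationalCohomology X)

theorem uu_homs (t c i : ℕ) : (uuC X t c i).restrictScalars ℚ ∈ homs R.ops R.ops := by
  refine mem_homs R R ?_ ?_
  · intro r hr
    rw [uuC_apply]
    exact add_mem (R.classes_mul (R.omega_pow _) hr)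
      (R.smul_classes _ (R.classes_mul (R.omega_pow _) hr))
  · intro d v
    rw [uuC_apply, uuC_apply, map_add, map_smul, X.omega_part_column, X.omega_part_column]

/-- a definite piece -/
noncomputable def piece (t : ℕ) (x : ℕ × ℕ) : Submodule ℚ A :=
  (R.prim (n - 2 * x.1)).map ((uuC X t x.1 x.2).restrictScalars ℚ)

theorem piece_le (t : ℕ) (x : ℕ × ℕ) : R.piece t x ≤ R.classes := by
  rintro _ ⟨r, hr, rfl⟩
  change uuC X t x.1 x.2 r ∈ R.classes
  have hr' : r ∈ R.classes := R.H_le_classes _ (R.prim_le _ hr)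
  rw [uuC_apply]
  exact add_mem (R.classes_mul (R.omega_pow _) hr')
    (R.smul_classes _ (R.classes_mul (R.omega_pow _) hr'))

theorem piece_stable (t : ℕ) (x : ℕ × ℕ) : Stable R.ops (R.piece t x) :=
  stable_map (R.uu_homs _ _ _) (R.stable_prim _)

theorem span_prim {k : ℕ} {x : A} (hx : x ∈ Submodule.span ℂ (R.prim k : Set A)) :
    x ∈ X.degree k ∧ X.omega ^ (n - k + 1) * x = 0 := by
  refine induct_span (W := R.prim k) (P := fun x => x ∈ X.degree k ∧
    X.omega ^ (n - k + 1) * x = 0) ⟨zero_mem _, mul_zero _⟩ ?_ ?_ hx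
  · rintro a b ⟨h1, h2⟩ ⟨h3, h4⟩
    exact ⟨add_mem h1 h3, by rw [mul_add, h2, h4, add_zero]⟩
  · intro c r hr
    exact ⟨Submodule.smul_mem _ _ (R.le_degree (R.prim_le k hr)), by
      rw [mul_smul_comm, R.prim_zero hr, smul_zero]⟩

theorem mem_span_piece {t : ℕ} {x : ℕ × ℕ} {y : A}
    (hy : y ∈ Submodule.span ℂ (R.piece t x : Set A)) :
    ∃ z ∈ Submodule.span ℂ (R.prim (n - 2 * x.1) : Set A), uuC X t x.1 x.2 z = y := by
  unfold piece at hy
  rw [span_map_rat] at hy
  obtain ⟨z, hz, rfl⟩ := hy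
  exact ⟨z, hz, rfl⟩

/-- the pieces are definite -/
theorem piece_def {t : ℕ} {x : ℕ × ℕ} (hx : x ∈ strings n t) :
    Def X ((-1) ^ t) (R.piece t x) := by
  obtain ⟨c, i⟩ := x
  simp only [strings, Finset.mem_filter, Finset.mem_product, Finset.mem_range] at hx
  obtain ⟨⟨hc, -⟩, hci⟩ := hx
  intro d y hy hyd
  obtain ⟨z, hz, rfl⟩ := R.mem_span_piece hy
  simp only at hz hyd ⊢
  have hz2 : X.part (colSet d) z ∈ Submodule.span ℂ (R.prim (n - 2 * c) : Set A) :=
    column_sub_part ((R.prim_le _).trans (R.H_le_classes _)) (R.stable_prim _) hz d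
  have hU : uuC X t c i (X.part (colSet d) z) = uuC X t c i z := by
    have h1 := X.column_iff.1 hyd
    rw [← h1, uuC_apply, uuC_apply, map_add, map_smul, X.omega_part_column, X.omega_part_column]
  rw [← hU]
  obtain ⟨hdeg, hprim⟩ := R.span_prim hz2
  rw [show n - (n - 2 * c) + 1 = 2 * c + 1 by omega] at hprim
  rcases column_cases X hdeg d with ⟨p, q, hpq, hd, hm⟩ | h0
  · have hpp : X.part (colSet d) (X.part (colSet d) z) = X.part (colSet d) z := by
      rw [X.part_part, Set.inter_self]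
    rw [hpp] at hm
    obtain ⟨r, hr, hr0, hre⟩ := pos_gen X (p := p) (q := q) (c := c) (by omega) hm hprim
    rw [hd] at hre
    set w := X.part (colSet d) z with hw
    have hstr := fun a b (hab : a + b ≠ 2 * c) =>
      sesq_string X (c := c) (c' := c) (by omega) (by omega) hdeg hdeg hprim hprim
        (a := a) (b := b) (Or.inr hab)
    have hmid : ∀ a b, a + b = 2 * c → X.sesq (X.omega ^ a * w) (X.omega ^ b * w) =
        (-1) ^ a * X.sesq w (X.omega ^ (2 * c) * w) := by
      intro a b hab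
      rw [X.sesq_omega_pow, ← mul_assoc, ← pow_add, hab]
    rcases hci with hlt | ⟨rfl, hpar⟩
    · refine ⟨2 * r, by linarith, fun h => ?_, ?_⟩
      · rw [hr0 (by linarith), map_zero]
      · rw [uuC_sesq, hstr i i (by omega), hstr (2 * c - i) (2 * c - i) (by omega),
          hmid i (2 * c - i) (by omega), hmid (2 * c - i) i (by omega), hre]
        have e1 : (zco t c i : ℂ) = (-1) ^ (t + i) := by
          unfold zco
          rw [if_pos hlt]
          push_cast
          ring
        have e2 : (-1 : ℂ) ^ (2 * c - i) = (-1) ^ i := by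
          have e3 : (-1 : ℂ) ^ (2 * c - i) * (-1) ^ i = 1 := by
            rw [← pow_add, show 2 * c - i + i = 2 * c by omega, pow_mul]
            norm_num
          have e4 := neg_one_sq i
          calc (-1 : ℂ) ^ (2 * c - i) = (-1 : ℂ) ^ (2 * c - i) * ((-1) ^ i * (-1) ^ i) := by
                rw [e4, mul_one]
            _ = (-1) ^ i := by rw [← mul_assoc, e3, one_mul]
        rw [e1, e2, pow_add]
        have e4 := neg_one_sq i
        push_cast
        generalize (-1 : ℂ) ^ i = u at e4 ⊢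
        linear_combination (2 * (-1) ^ t * sgn n d * (r : ℂ)) * e4
    · refine ⟨r, hr, fun h => ?_, ?_⟩
      · rw [hr0 h, map_zero]
      · have e1 : (zco t i i : ℂ) = 0 := by
          unfold zco
          rw [if_neg (lt_irrefl _)]
          norm_num
        have e2 : (-1 : ℂ) ^ i = (-1) ^ t := by
          rw [← Nat.div_add_mod i 2, ← Nat.div_add_mod t 2, hpar, pow_add, pow_mul, pow_add,
            pow_mul]
          norm_num
        rw [uuC_sesq, e1, hmid i i (by omega), hre, e2]
        ring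
  · have hpp : X.part (colSet d) (X.part (colSet d) z) = X.part (colSet d) z := by
      rw [X.part_part, Set.inter_self]
    rw [hpp] at h0
    refine ⟨0, le_rfl, fun _ => ?_, ?_⟩
    · rw [h0, map_zero]
    · rw [h0, map_zero, X.sesq_zero_left]
      simp

/-- different pieces are orthogonal -/
theorem piece_ort {t : ℕ} {x y : ℕ × ℕ} (hx : x ∈ strings n t) (hy : y ∈ strings n t)
    (hxy : x ≠ y) : Ort X (R.piece t x) (R.piece t y) := by
  have key : ∀ x ∈ strings n t, ∀ y ∈ strings n t, x ≠ y →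
      ∀ v ∈ Submodule.span ℂ (R.piece t x : Set A), ∀ w ∈ Submodule.span ℂ (R.piece t y : Set A),
        X.sesq v w = 0 := by
    rintro ⟨c, i⟩ hx ⟨c', i'⟩ hy hxy v hv w hw
    simp only [strings, Finset.mem_filter, Finset.mem_product, Finset.mem_range] at hx hy
    obtain ⟨⟨hc, -⟩, hci⟩ := hx
    obtain ⟨⟨hc', -⟩, hci'⟩ := hy
    obtain ⟨z, hz, rfl⟩ := R.mem_span_piece hv
    obtain ⟨z', hz', rfl⟩ := R.mem_span_piece hw
    simp only at hz hz' ⊢
    obtain ⟨hdeg, hprim⟩ := R.span_prim hz
    obtain ⟨hdeg', hprim'⟩ := R.span_prim hz'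
    rw [show n - (n - 2 * c) + 1 = 2 * c + 1 by omega] at hprim
    rw [show n - (n - 2 * c') + 1 = 2 * c' + 1 by omega] at hprim'
    have hne : c ≠ c' ∨ i ≠ i' := by
      by_contra hcon
      push Not at hcon
      exact hxy (Prod.ext hcon.1 hcon.2)
    have hstr := fun a b (hab : c ≠ c' ∨ a + b ≠ 2 * c) =>
      sesq_string X (c := c) (c' := c') (by omega) (by omega) hdeg hdeg' hprim hprim'
        (a := a) (b := b) hab
    rw [uuC_sesq, hstr _ _ (by omega), hstr _ _ (by omega), hstr _ _ (by omega),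
      hstr _ _ (by omega)]
    ring
  exact ⟨fun v hv w hw => key x hx y hy hxy v hv w hw,
    fun v hv w hw => key y hy x hx hxy.symm w hw v hv⟩

variable {L : Type*} [AddCommGroup L] [Module ℚ L]
  (l : ℤ × (ℂ →ₗ[ℚ] ℚ) → Module.End ℚ L)

theorem mu_piece {t : ℕ} {x : ℕ × ℕ} (hx : x ∈ strings n t) :
    mu l R.ops (R.piece t x) = mu l R.ops (R.prim (n - 2 * x.1)) := by
  obtain ⟨c, i⟩ := x
  simp only [strings, Finset.mem_filter, Finset.mem_product, Finset.mem_range] at hx
  obtain ⟨⟨hc, -⟩, hci⟩ := hx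
  refine mu_map (R.uu_homs _ _ _) (R.stable_prim _) fun v hv h => ?_
  simp only at hv
  change uuC X t c i v = 0 at h
  have hv' := R.prim_le _ hv
  have h1 : X.omega ^ i * v ∈ X.degree (n - 2 * c + 2 * i) :=
    X.omega_pow_degree i rfl (R.le_degree hv')
  have h2 : X.omega ^ (2 * c - i) * v ∈ X.degree (n - 2 * c + 2 * (2 * c - i)) :=
    X.omega_pow_degree _ rfl (R.le_degree hv')
  have h3 : X.omega ^ i * v = 0 := by
    rcases hci with hlt | ⟨rfl, -⟩
    · have h4 := congrArg (X.part (degSet (n - 2 * c + 2 * i))) h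
      rwa [uuC_apply, map_add, map_smul, X.degree_iff.1 h1,
        X.part_degree_ne (show n - 2 * c + 2 * (2 * c - i) ≠ n - 2 * c + 2 * i by omega) h2,
        smul_zero, add_zero, map_zero] at h4
    · rw [uuC_apply] at h
      unfold zco at h
      rw [if_neg (lt_irrefl _)] at h
      simpa using h
  exact R.lef_inj (k := n - 2 * c) (m := i) (by omega) (by omega) hv' h3

end RationalCohomology

end

end Pool.Agent.Hodge7
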