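import Pool.Agent.Helper40.HS.Lef

/-!
# Polarised rational Hodge structures are semisimple
-/

set_option autoImplicit false

namespace Pool.Agent.Hodge7

open Pool.Agent.Hodge81 Module TensorProduct Pool.Agent.Helper40.TH Pool.Agent.Helper40.HS
  Pool.Agent.Helper87.RF HodgeRing Complex

section

variable {n : ℕ} {A : Type*} [Ring A] [Algebra ℂ A] {X : HodgeRing n A}

theorem one_ne_zero_of (X : HodgeRing n A) : (1 : A) ≠ 0 := by
  intro h
  have h1 : X.H 0 0 = ⊥ := by
    rw [eq_bot_iff]
    intro a _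
    rw [Submodule.mem_bot, ← one_mul a, h, zero_mul]
  have h2 := X.connected
  rw [h1, finrank_bot] at h2
  exact zero_ne_one h2

/-- the volume of `omega` does not vanish -/
theorem vol_ne (X : HodgeRing n A) : X.int (X.omega ^ n) ≠ 0 := by
  intro h0
  have h2 : X.omega ^ (n - (0 + 0) + 1) * (1 : A) = 0 := by
    have h3 := X.pow_mem X.omega_mem X.one_mem (n - (0 + 0) + 1)
    rw [X.bounded _ _ (Or.inl (by omega))] at h3
    simpa using h3
  obtain ⟨r, hr, he⟩ := X.hodgeRiemann 0 0 1 X.one_mem (by omega) h2 (one_ne_zero_of X)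
  rw [map_one, mul_one, mul_one, show n - (0 + 0) = n by omega, h0, mul_zero] at he
  have : r = 0 := by exact_mod_cast he.symm
  exact hr.ne' this

end

section

variable {n : ℕ} {A : Type*} [Ring A] [Algebra ℂ A] [Module ℚ A] {X : HodgeRing n A}

namespace RationalCohomology

variable (R : RationalCohomology X)

/-- complex conjugation preserves the complexification of a rational subspace -/
theorem conj_span {W : Submodule ℚ A} (hW : ∀ r ∈ W, X.conj r = r) {v : A}
    (hv : v ∈ Submodule.span ℂ (W : Set A)) : X.conj v ∈ Submodule.span ℂ (W : Set A) := by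
  refine induct_span (W := W) (P := fun v => X.conj v ∈ Submodule.span ℂ (W : Set A))
    (by rw [map_zero]; exact zero_mem _)
    (fun a b ha hb => by rw [map_add]; exact add_mem ha hb) (fun c r hr => ?_) hv
  rw [X.conj_smul, hW r hr]
  exact Submodule.smul_mem _ _ (Submodule.subset_span hr)

/-- the top degree -/
theorem exists_top [FiniteDimensional ℂ A] {r : A} (hr : r ∈ R.H (2 * n)) :
    ∃ q : ℚ, r = q • X.omega ^ n := by
  have h1 : degree X (2 * n) = X.H n n := by
    apply le_antisymm
    · refine iSup₂_le fun x hx => ?_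
      by_cases hb : n < x.1 ∨ n < x.2
      · rw [X.bounded _ _ hb]
        exact bot_le
      · push Not at hb
        rw [show x.1 = n by omega, show x.2 = n by omega]
    · exact fun v hv => mem_degree X (by ring) hv
  have h2 : finrank ℚ (R.H (2 * n)) = 1 := by
    rw [R.finrank_eq, h1]
    have h3 := X.h_serre (p := 0) (q := 0) (by omega) (by omega)
    unfold HodgeRing.h at h3
    rw [Nat.sub_zero, X.connected] at h3
    exact h3
  have h4 : (⟨X.omega ^ n, R.omega_pow_H n⟩ : R.H (2 * n)) ≠ 0 := by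
    intro h5
    have h6 : X.omega ^ n = 0 := congrArg Subtype.val h5
    have h7 := vol_ne X
    rw [h6, map_zero] at h7
    exact h7 rfl
  obtain ⟨q, hq⟩ := (finrank_eq_one_iff_of_nonzero' _ h4).1 h2 ⟨r, hr⟩
  exact ⟨q, (congrArg Subtype.val hq).symm⟩

/-- the pairing of rational classes is rational up to the volume -/
theorem exists_int [FiniteDimensional ℂ A] {k : ℕ} (hk : k ≤ n) {r s : A} (hr : r ∈ R.H k)
    (hs : s ∈ R.H k) :
    ∃ q : ℚ, X.int (X.omega ^ (n - k) * r * s) = (q : ℂ) * X.int (X.omega ^ n) := by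
  have h1 := R.mul_mem _ _ _ _ (R.omega_mul_H (n - k) rfl hr) hs
  rw [show k + 2 * (n - k) + k = 2 * n by omega] at h1
  obtain ⟨q, hq⟩ := R.exists_top h1
  refine ⟨q, ?_⟩
  rw [hq, ← Rat.cast_smul_eq_qsmul ℂ, map_smul, smul_eq_mul]

theorem exists_one : ∃ lam : ℂ →ₗ[ℚ] ℚ, lam 1 = 1 := by
  obtain ⟨g, hg⟩ := LinearMap.exists_leftInverse_of_injective (Algebra.linearMap ℚ ℂ)
    (LinearMap.ker_eq_bot.2 (algebraMap ℚ ℂ).injective)
  refine ⟨g, ?_⟩
  have := LinearMap.congr_fun hg 1
  simpa using this

theorem lam_rat (lam : ℂ →ₗ[ℚ] ℚ) (c : ℂ) (q : ℚ) : lam (c * q) = lam c * q := by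
  rw [mul_comm, ← smul_eq_mul, Rat.cast_smul_eq_qsmul, map_smul, smul_eq_mul, mul_comm]

/-- the pairing and the coefficients -/
theorem int_coef [FiniteDimensional ℂ A] {k : ℕ} (hk : k ≤ n) (lam : ℂ →ₗ[ℚ] ℚ) {y s : A}
    (hy : y ∈ degree X k) (hs : s ∈ R.H k) :
    X.int (X.omega ^ (n - k) * R.coef lam y * s) =
      (lam (X.int (X.omega ^ (n - k) * y * s) / X.int (X.omega ^ n)) : ℂ) *
        X.int (X.omega ^ n) := by
  rw [← R.span] at hy
  refine induct_span (W := R.H k) (P := fun y => X.int (X.omega ^ (n - k) * R.coef lam y * s) =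
      (lam (X.int (X.omega ^ (n - k) * y * s) / X.int (X.omega ^ n)) : ℂ) *
        X.int (X.omega ^ n)) (by simp) (fun a b ha hb => ?_) (fun c r hr => ?_) hy
  · rw [map_add, mul_add, add_mul, map_add, ha, hb, mul_add, add_mul, map_add, add_div, map_add]
    push_cast
    ring
  · obtain ⟨q, hq⟩ := R.exists_int hk hr hs
    rw [R.coef_smul_of_mem lam c hr, ← Rat.cast_smul_eq_qsmul ℂ, mul_smul_comm, smul_mul_assoc,
      map_smul, smul_eq_mul, mul_smul_comm, smul_mul_assoc, map_smul, smul_eq_mul, hq,
      ← mul_assoc, mul_div_assoc, mul_div_assoc, div_self (vol_ne X), mul_one, lam_rat]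
    push_cast
    ring

/-- the vectors orthogonal to `S` -/
def orth (k : ℕ) (S : Submodule ℚ A) : Submodule ℚ A where
  carrier := {t | t ∈ R.prim k ∧ ∀ s ∈ S, X.int (X.omega ^ (n - k) * t * s) = 0}
  add_mem' ha hb := ⟨add_mem ha.1 hb.1, fun s hs => by
    rw [mul_add, add_mul, map_add, ha.2 s hs, hb.2 s hs, add_zero]⟩
  zero_mem' := ⟨zero_mem _, fun s _ => by simp⟩
  smul_mem' c t ht := ⟨Submodule.smul_mem _ c ht.1, fun s hs => by
    rw [← Rat.cast_smul_eq_qsmul ℂ, mul_smul_comm, smul_mul_assoc, map_smul, ht.2 s hs,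
      smul_zero]⟩

variable {R} {k : ℕ} {S : Submodule ℚ A}

theorem orth_span {t z : A} (ht : t ∈ R.orth k S) (hz : z ∈ Submodule.span ℂ (S : Set A)) :
    X.int (X.omega ^ (n - k) * t * z) = 0 := by
  refine induct_span (W := S) (P := fun z => X.int (X.omega ^ (n - k) * t * z) = 0)
    (by simp) (fun a b ha hb => by rw [mul_add, map_add, ha, hb, add_zero])
    (fun c r hr => ?_) hz
  rw [mul_smul_comm, map_smul, ht.2 r hr, smul_zero]

theorem orth_col {t z : A} (hS : S ≤ R.prim k) (hst : Stable R.ops S) (ht : t ∈ R.orth k S)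
    (hz : z ∈ S) (d : ℤ) : X.int (X.omega ^ (n - k) * X.part (colSet d) t * z) = 0 := by
  have hreal : ∀ r ∈ S, X.conj r = r := fun r hr => R.real k r (R.prim_le k (hS hr))
  have h1 := X.int_column (n - k) d t z
  rw [hreal z hz] at h1
  rw [h1]
  refine orth_span ht (conj_span hreal ?_)
  exact (R.stable_iff (hS.trans ((R.prim_le k).trans (R.H_le_classes k)))).1 hst d z
    (Submodule.subset_span hz)

variable [FiniteDimensional ℂ A]

theorem orth_stable (hk : k ≤ n) (hS : S ≤ R.prim k) (hst : Stable R.ops S) :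
    Stable R.ops (R.orth k S) := by
  rintro ⟨d, lam⟩ t ht
  refine ⟨R.stable_prim k _ t ht.1, fun s hs => ?_⟩
  rw [R.ops_apply, R.int_coef hk lam _ (R.prim_le k (hS hs))]
  · rw [orth_col hS hst ht hs d, zero_div, map_zero]
    simp
  · change _ ∈ X.degree k
    rw [X.degree_iff, X.part_comm, X.degree_iff.1 (R.le_degree (R.prim_le k ht.1))]

omit [FiniteDimensional ℂ A] in
theorem orth_disj (hk : k ≤ n) (hS : S ≤ R.prim k) (hst : Stable R.ops S) :
    Disjoint S (R.orth k S) := by
  have hreal : ∀ r ∈ S, X.conj r = r := fun r hr => R.real k r (R.prim_le k (hS hr))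
  rw [Submodule.disjoint_def]
  intro t ht ht'
  have hdeg : t ∈ X.degree k := R.le_degree (R.prim_le k (hS ht))
  refine X.eq_zero_of_columns fun d => ?_
  have h1 : X.part (colSet d) t ∈ Submodule.span ℂ (S : Set A) :=
    (R.stable_iff (hS.trans ((R.prim_le k).trans (R.H_le_classes k)))).1 hst d t
      (Submodule.subset_span ht)
  have h2 : X.int (X.omega ^ (n - k) * X.part (colSet d) t * X.conj (X.part (colSet d) t)) = 0 := by
    rw [X.int_column, X.part_part, Set.inter_self]
    exact orth_span ht' (conj_span hreal h1)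
  rcases column_cases X hdeg d with ⟨p, q, hpq, -, hm⟩ | h0
  · refine X.definite hk hpq hm ?_ h2
    rw [X.omega_part_column, R.prim_zero (hS ht), map_zero]
  · exact h0

theorem orth_finrank (hk : k ≤ n) (hS : S ≤ R.prim k) :
    finrank ℚ (R.prim k) ≤ finrank ℚ S + finrank ℚ (R.orth k S) := by
  have := R.finite k
  have f1 : FiniteDimensional ℚ (R.prim k) := Submodule.finiteDimensional_of_le (R.prim_le k)
  have f2 : FiniteDimensional ℚ S := Submodule.finiteDimensional_of_le hS
  obtain ⟨lam, hlam⟩ := exists_one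
  let b := Module.finBasis ℚ S
  let ph : A → (R.prim k →ₗ[ℚ] ℚ) := fun s =>
    { toFun := fun t => lam (X.int (X.omega ^ (n - k) * t * s) / X.int (X.omega ^ n))
      map_add' := fun x y => by
        rw [Submodule.coe_add, mul_add, add_mul, map_add, add_div, map_add]
      map_smul' := fun c x => by
        rw [Submodule.coe_smul, ← Rat.cast_smul_eq_qsmul ℂ, mul_smul_comm, smul_mul_assoc,
          map_smul, smul_eq_mul, mul_div_assoc, mul_comm, lam_rat, RingHom.id_apply, smul_eq_mul,
          mul_comm] }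
  have hph : ∀ s t, ph s t = lam (X.int (X.omega ^ (n - k) * t * s) / X.int (X.omega ^ n)) :=
    fun s t => rfl
  have hph0 : ∀ s ∈ S, ∀ t : R.prim k, ph s t = 0 ↔ X.int (X.omega ^ (n - k) * t * s) = 0 := by
    intro s hs t
    obtain ⟨q, hq⟩ := R.exists_int hk (R.prim_le k t.2) (R.prim_le k (hS hs))
    rw [hph, hq, mul_div_assoc, div_self (vol_ne X), mul_one]
    have h1 : lam (q : ℂ) = q := by
      have := lam_rat lam 1 q
      rwa [one_mul, hlam, one_mul] at this
    rw [h1]
    constructor
    · intro h; rw [h]; simp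
    · intro h
      rcases mul_eq_zero.1 h with h | h
      · exact_mod_cast h
      · exact absurd h (vol_ne X)
  let th : R.prim k →ₗ[ℚ] (Fin (finrank ℚ S) → ℚ) := LinearMap.pi fun i => ph (b i : A)
  have hker : (LinearMap.ker th).map (R.prim k).subtype ≤ R.orth k S := by
    rintro _ ⟨t, ht, rfl⟩
    refine ⟨t.2, fun s hs => ?_⟩
    have h1 : ∀ i, X.int (X.omega ^ (n - k) * t * (b i : A)) = 0 := fun i =>
      (hph0 _ (b i).2 t).1 (congrFun ht i)
    have h2 : s = ∑ i, (b.repr ⟨s, hs⟩ i) • (b i : A) := by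
      have h3 := b.sum_repr ⟨s, hs⟩
      have h4 := congrArg (fun z : S => (z : A)) h3
      simp only [Submodule.coe_sum, Submodule.coe_smul] at h4
      exact h4.symm
    rw [h2, Finset.mul_sum, map_sum]
    refine Finset.sum_eq_zero fun i _ => ?_
    rw [← Rat.cast_smul_eq_qsmul ℂ, mul_smul_comm, map_smul]
    have h5 := h1 i
    change X.int (X.omega ^ (n - k) * (t : A) * (b i : A)) = 0 at h5
    change _ • X.int (X.omega ^ (n - k) * (t : A) * (b i : A)) = 0
    rw [h5, smul_zero]
  have f3 : FiniteDimensional ℚ (R.orth k S) :=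
    Submodule.finiteDimensional_of_le (fun t ht => (ht.1 : t ∈ R.prim k))
  have h1 := LinearMap.finrank_range_add_finrank_ker th
  have h2 := Submodule.finrank_le (LinearMap.range th)
  rw [Module.finrank_fin_fun] at h2
  have h3 := Submodule.finrank_mono hker
  rw [Submodule.finrank_map_subtype_eq] at h3
  omega

/-- the primitive cohomology is semisimple -/
theorem cr_prim (R : RationalCohomology X) (hk : k ≤ n) : CRin R.ops (R.prim k) := by
  refine ⟨R.stable_prim k, fun S hS hst => ⟨R.orth k S, fun t ht => ht.1,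
    orth_stable hk hS hst, orth_disj hk hS hst, ?_⟩⟩
  have := R.finite k
  have f1 : FiniteDimensional ℚ (R.prim k) := Submodule.finiteDimensional_of_le (R.prim_le k)
  have f2 : FiniteDimensional ℚ S := Submodule.finiteDimensional_of_le hS
  have f3 : FiniteDimensional ℚ (R.orth k S) :=
    Submodule.finiteDimensional_of_le (fun t ht => (ht.1 : t ∈ R.prim k))
  refine Submodule.eq_of_le_of_finrank_le (sup_le hS fun t ht => ht.1) ?_
  have h1 := Submodule.finrank_sup_add_finrank_inf_eq S (R.orth k S)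
  rw [(orth_disj hk hS hst).eq_bot, finrank_bot, add_zero] at h1
  rw [h1]
  exact orth_finrank hk hS

/-- the cohomology is semisimple -/
theorem cr_H (R : RationalCohomology X) (k : ℕ) : CRin R.ops (R.H k) := by
  have low : ∀ k, k ≤ n → CRin R.ops (R.H k) := by
    intro k
    induction k using Nat.strong_induction_on with
    | _ k ih =>
      intro hk
      rcases Nat.lt_or_ge k 2 with h | h
      · rw [← R.prim_low (by omega)]
        exact R.cr_prim hk
      · obtain ⟨m, rfl⟩ : ∃ m, k = m + 2 := ⟨k - 2, by omega⟩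
        rw [← R.prim_sup hk]
        exact (R.cr_prim hk).sup ((ih m (by omega) (by omega)).map (R.om_homs 1))
  rcases Nat.lt_or_ge n k with h | h
  · rcases Nat.lt_or_ge (2 * n) k with h2 | h2
    · rw [R.H_big h2]
      exact CRin.bot
    · have h3 := R.lef_map (k := 2 * n - k) (by omega)
      rw [show 2 * n - (2 * n - k) = k by omega] at h3
      rw [← h3]
      exact (low _ (by omega)).map (R.om_homs _)
  · exact low k h

end RationalCohomology

end

end Pool.Agent.Hodge7
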