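import Pool.Agent.Helper40.HS.Red

/-!
# Definite rational sub-Hodge structures for the Mukai pairing
-/

set_option autoImplicit false

namespace Pool.Agent.Hodge7

open Pool.Agent.Hodge81 Module TensorProduct Pool.Agent.Helper40.TH Pool.Agent.Helper40.HS
  Pool.Agent.Helper87.RF HodgeRing Complex

/-- the sign of the column `d` -/
noncomputable def sgn (n : ℕ) (d : ℤ) : ℂ :=
  (-1) ^ (((n : ℤ) - d) / 2).toNat * (-1) ^ (n * (n - 1) / 2)

theorem neg_one_sq (m : ℕ) : (-1 : ℂ) ^ m * (-1) ^ m = 1 := by rw [← mul_pow]; norm_num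

theorem sgn_sq (n : ℕ) (d : ℤ) : sgn n d * sgn n d = 1 := by
  unfold sgn
  have e7 := neg_one_sq (((n : ℤ) - d) / 2).toNat
  have e8 := neg_one_sq (n * (n - 1) / 2)
  generalize (-1 : ℂ) ^ (((n : ℤ) - d) / 2).toNat = s at e7 ⊢
  generalize (-1 : ℂ) ^ (n * (n - 1) / 2) = t at e8 ⊢
  rw [show s * t * (s * t) = (s * s) * (t * t) by ring, e7, e8, one_mul]

section

variable {n : ℕ} {A : Type*} [Ring A] [Algebra ℂ A] {X : HodgeRing n A}

/-- positivity on the ends of a string -/
theorem pos_gen (X : HodgeRing n A) {p q c : ℕ} (h : p + q + 2 * c = n) {a : A}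
    (ha : a ∈ X.H p q) (h3 : X.omega ^ (2 * c + 1) * a = 0) :
    ∃ r : ℝ, 0 ≤ r ∧ (r = 0 → a = 0) ∧ X.sesq a (X.omega ^ (2 * c) * a) =
      sgn n ((p : ℤ) - q) * (r : ℂ) := by
  by_cases h0 : a = 0
  · refine ⟨0, le_rfl, fun _ => h0, ?_⟩
    rw [h0, mul_zero, X.sesq_zero_left]
    simp
  obtain ⟨r, hr, he⟩ := X.hodgeRiemann p q a ha (by omega) (by
    rw [show n - (p + q) + 1 = 2 * c + 1 by omega]; exact h3) h0
  refine ⟨r, hr.le, fun h => absurd h hr.ne', ?_⟩
  rw [show n - (p + q) = 2 * c by omega] at he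
  have e0 : X.sesq a (X.omega ^ (2 * c) * a) =
      I ^ (p + q) * X.int (X.omega ^ (2 * c) * a * X.conj a) := by
    rw [sesq, X.dual_of_mem ha, X.conj_omega_pow, smul_mul_assoc, map_smul, smul_eq_mul,
      ← mul_assoc, X.omega_pow_central, mul_assoc]
  have e1 : sgn n ((p : ℤ) - q) = (-1) ^ q * (-1) ^ ((p + q) * (p + q - 1) / 2) := by
    unfold sgn
    have e5 : (((n : ℤ) - ((p : ℤ) - q)) / 2).toNat = q + c := by omega
    have e6 := sign_choose (p + q) c
    rw [show p + q + 2 * c = n from h] at e6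
    rw [e5, e6, pow_add]
    have e9 := neg_one_sq c
    generalize (-1 : ℂ) ^ q = s
    generalize (-1 : ℂ) ^ ((p + q) * (p + q - 1) / 2) = t
    generalize (-1 : ℂ) ^ c = u at e9 ⊢
    rw [show s * u * (t * u) = s * t * (u * u) by ring, e9, mul_one]
  rw [e0, ← he, e1]
  have e2 : (-I) ^ q = (-1) ^ q * I ^ q := by rw [neg_pow]
  have e7 := neg_one_sq q
  have e8 := neg_one_sq ((p + q) * (p + q - 1) / 2)
  rw [e2, pow_add]
  generalize (-1 : ℂ) ^ q = s at e7 ⊢
  generalize (-1 : ℂ) ^ ((p + q) * (p + q - 1) / 2) = t at e8 ⊢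
  generalize X.int (X.omega ^ (2 * c) * a * X.conj a) = J
  have : s * t * (I ^ p * (s * I ^ q) * t * J) = (s * s) * (t * t) * (I ^ p * I ^ q * J) := by ring
  rw [this, e7, e8]
  ring

/-- degrees which do not match are orthogonal -/
theorem sesq_degree (X : HodgeRing n A) {k l : ℕ} (h : k + l ≠ 2 * n) {v w : A}
    (hv : v ∈ X.degree k) (hw : w ∈ X.degree l) : X.sesq v w = 0 := by
  refine X.degree_induct (P := fun v => X.sesq v w = 0) (fun p q hpq v hv => ?_)
    (X.sesq_zero_left w) (fun a b ha hb => by rw [X.sesq_add_left, ha, hb, add_zero]) hv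
  refine X.degree_induct (P := fun w => X.sesq v w = 0) (fun p' q' hpq' w hw => ?_)
    (X.sesq_zero_right v) (fun a b ha hb => by rw [X.sesq_add_right, ha, hb, add_zero]) hw
  refine X.sesq_of_mem hv hw fun h' => ?_
  simp only [Prod.mk.injEq] at h'
  omega

/-- strings are orthogonal -/
theorem sesq_string (X : HodgeRing n A) {k k' c c' : ℕ} (hk : k + 2 * c = n)
    (hk' : k' + 2 * c' = n) {x x' : A} (hx : x ∈ X.degree k) (hx' : x' ∈ X.degree k')
    (h1 : X.omega ^ (2 * c + 1) * x = 0) (h1' : X.omega ^ (2 * c' + 1) * x' = 0) {a b : ℕ}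
    (h : c ≠ c' ∨ a + b ≠ 2 * c) : X.sesq (X.omega ^ a * x) (X.omega ^ b * x') = 0 := by
  have e1 : X.sesq (X.omega ^ a * x) (X.omega ^ b * x') =
      (-1) ^ a * X.sesq x (X.omega ^ (a + b) * x') := by
    rw [X.sesq_omega_pow, ← mul_assoc, ← pow_add]
  have e2 : X.sesq x (X.omega ^ (a + b) * x') = (-1) ^ (a + b) *
      X.sesq (X.omega ^ (a + b) * x) x' := by
    rw [X.sesq_omega_pow, ← mul_assoc, ← mul_pow]
    norm_num
  by_cases hab : a + b = c + c'
  · have hcc : c ≠ c' := by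
      rcases h with h | h
      · exact h
      · omega
    rcases Nat.lt_or_gt_of_ne hcc with hlt | hgt
    · rw [e1, e2, show a + b = (c' - c - 1) + (2 * c + 1) by omega, pow_add X.omega, mul_assoc, h1,
        mul_zero, X.sesq_zero_left, mul_zero, mul_zero]
    · rw [e1, show a + b = (c - c' - 1) + (2 * c' + 1) by omega, pow_add X.omega, mul_assoc, h1',
        mul_zero, X.sesq_zero_right, mul_zero]
  · rw [e1, sesq_degree X (l := k' + 2 * (a + b)) (by omega) hx
      (X.omega_pow_degree (a + b) rfl hx'), mul_zero]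

end

section

variable {n : ℕ} {A : Type*} [Ring A] [Algebra ℂ A] [Module ℚ A] {X : HodgeRing n A}

/-- the Mukai form is definite of sign `s` -/
def Def (X : HodgeRing n A) (s : ℂ) (W : Submodule ℚ A) : Prop :=
  ∀ d, ∀ y ∈ Submodule.span ℂ (W : Set A), y ∈ X.column d →
    ∃ r : ℝ, 0 ≤ r ∧ (r = 0 → y = 0) ∧ X.sesq y y = s * sgn n d * (r : ℂ)

/-- orthogonal subspaces -/
def Ort (X : HodgeRing n A) (V W : Submodule ℚ A) : Prop :=
  (∀ v ∈ Submodule.span ℂ (V : Set A), ∀ w ∈ Submodule.span ℂ (W : Set A), X.sesq v w = 0) ∧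
    ∀ v ∈ Submodule.span ℂ (V : Set A), ∀ w ∈ Submodule.span ℂ (W : Set A), X.sesq w v = 0

theorem span_sup (V W : Submodule ℚ A) : Submodule.span ℂ ((V ⊔ W : Submodule ℚ A) : Set A) =
    Submodule.span ℂ (V : Set A) ⊔ Submodule.span ℂ (W : Set A) := by
  apply le_antisymm
  · rw [Submodule.span_le]
    intro x hx
    obtain ⟨a, ha, b, hb, rfl⟩ := Submodule.mem_sup.1 hx
    exact Submodule.add_mem_sup (Submodule.subset_span ha) (Submodule.subset_span hb)
  · exact sup_le (Submodule.span_mono fun x hx => Submodule.mem_sup_left hx)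
      (Submodule.span_mono fun x hx => Submodule.mem_sup_right hx)

theorem Ort.sup_right {V W W' : Submodule ℚ A} (h : Ort X V W) (h' : Ort X V W') :
    Ort X V (W ⊔ W') := by
  constructor
  · intro v hv w hw
    rw [span_sup] at hw
    obtain ⟨a, ha, b, hb, rfl⟩ := Submodule.mem_sup.1 hw
    rw [X.sesq_add_right, h.1 v hv a ha, h'.1 v hv b hb, add_zero]
  · intro v hv w hw
    rw [span_sup] at hw
    obtain ⟨a, ha, b, hb, rfl⟩ := Submodule.mem_sup.1 hw
    rw [X.sesq_add_left, h.2 v hv a ha, h'.2 v hv b hb, add_zero]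

theorem ort_bot (V : Submodule ℚ A) : Ort X V ⊥ := by
  have h1 : ∀ w ∈ Submodule.span ℂ ((⊥ : Submodule ℚ A) : Set A), w = 0 := by
    intro w hw
    simpa using hw
  exact ⟨fun v _ w hw => by rw [h1 w hw, X.sesq_zero_right],
    fun v _ w hw => by rw [h1 w hw, X.sesq_zero_left]⟩

theorem def_bot (s : ℂ) : Def X s ⊥ := by
  intro d y hy _
  have h1 : y = 0 := by simpa using hy
  exact ⟨0, le_rfl, fun _ => h1, by rw [h1, X.sesq_zero_left]; simp⟩

theorem column_sub_part {R : RationalCohomology X} {W : Submodule ℚ A} (hW : W ≤ R.classes)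
    (hst : Stable R.ops W) {y : A} (hy : y ∈ Submodule.span ℂ (W : Set A)) (d : ℤ) :
    X.part (colSet d) y ∈ Submodule.span ℂ (W : Set A) := (R.stable_iff hW).1 hst d y hy

theorem Def.sup {R : RationalCohomology X} {s : ℂ} {V W : Submodule ℚ A} (hV : V ≤ R.classes)
    (hW : W ≤ R.classes) (hVs : Stable R.ops V) (hWs : Stable R.ops W) (h1 : Def X s V)
    (h2 : Def X s W) (ho : Ort X V W) : Def X s (V ⊔ W) := by
  intro d y hy hyd
  rw [span_sup] at hy
  obtain ⟨a, ha, b, hb, rfl⟩ := Submodule.mem_sup.1 hy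
  have e1 := X.column_iff.1 hyd
  rw [map_add] at e1
  have ha' := column_sub_part hV hVs ha d
  have hb' := column_sub_part hW hWs hb d
  obtain ⟨r, hr, hr0, hre⟩ := h1 d _ ha' (X.part_column_mem d a)
  obtain ⟨t, ht, ht0, hte⟩ := h2 d _ hb' (X.part_column_mem d b)
  refine ⟨r + t, add_nonneg hr ht, fun h0 => ?_, ?_⟩
  · rw [← e1, hr0 (by linarith), ht0 (by linarith), add_zero]
  · rw [← e1, X.sesq_add_left, X.sesq_add_right, X.sesq_add_right, hre, hte, ho.1 _ ha' _ hb',
      ho.2 _ ha' _ hb']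
    push_cast
    ring

/-- orthogonal definite subspaces are disjoint -/
theorem Def.disjoint_of_ort {R : RationalCohomology X} {s : ℂ} (hs : s ≠ 0)
    {V W : Submodule ℚ A} (hV : V ≤ R.classes) (hW : W ≤ R.classes) (hVs : Stable R.ops V)
    (hWs : Stable R.ops W) (h1 : Def X s V) (ho : Ort X V W) : Disjoint V W := by
  rw [Submodule.disjoint_def]
  intro y hy hy'
  refine X.eq_zero_of_columns fun d => ?_
  have ha' := column_sub_part hV hVs (Submodule.subset_span hy) d
  have hb' := column_sub_part hW hWs (Submodule.subset_span hy') d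
  obtain ⟨r, -, hr0, hre⟩ := h1 d _ ha' (X.part_column_mem d y)
  rw [ho.1 _ ha' _ hb'] at hre
  apply hr0
  have h3 : s * sgn n d ≠ 0 := by
    refine mul_ne_zero hs fun h0 => ?_
    have := sgn_sq n d
    rw [h0, mul_zero] at this
    exact zero_ne_one this
  have h4 := (mul_eq_zero.1 hre.symm).resolve_left h3
  exact_mod_cast h4

/-- subspaces on which the form has opposite signs are disjoint -/
theorem Def.disjoint {R : RationalCohomology X} {V W : Submodule ℚ A} (hV : V ≤ R.classes)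
    (hW : W ≤ R.classes) (hVs : Stable R.ops V) (hWs : Stable R.ops W) {s : ℂ} (hs : s ≠ 0)
    (h1 : Def X s V) (h2 : Def X (-s) W) : Disjoint V W := by
  rw [Submodule.disjoint_def]
  intro y hy hy'
  refine X.eq_zero_of_columns fun d => ?_
  have ha' := column_sub_part hV hVs (Submodule.subset_span hy) d
  have hb' := column_sub_part hW hWs (Submodule.subset_span hy') d
  obtain ⟨r, hr, hr0, hre⟩ := h1 d _ ha' (X.part_column_mem d y)
  obtain ⟨t, ht, ht0, hte⟩ := h2 d _ hb' (X.part_column_mem d y)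
  apply hr0
  rw [hre] at hte
  have h3 : s * sgn n d ≠ 0 := by
    refine mul_ne_zero hs fun h0 => ?_
    have := sgn_sq n d
    rw [h0, mul_zero] at this
    exact zero_ne_one this
  have h4 : s * sgn n d * ((r + t : ℝ) : ℂ) = 0 := by
    push_cast
    linear_combination hte
  have h5 : r + t = 0 := by exact_mod_cast (mul_eq_zero.1 h4).resolve_left h3
  linarith

section

variable {L : Type*} [AddCommGroup L] [Module ℚ L] [FiniteDimensional ℚ L]
  (l : ℤ × (ℂ →ₗ[ℚ] ℚ) → Module.End ℚ L)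

/-- a finite orthogonal sum of definite subspaces -/
theorem sum_def {R : RationalCohomology X} {ι : Type*} [DecidableEq ι] {s : ℂ} (hs : s ≠ 0)
    (W : ι → Submodule ℚ A) (hW : ∀ x, W x ≤ R.classes) (hst : ∀ x, Stable R.ops (W x))
    (J : Finset ι) (hd : ∀ x ∈ J, Def X s (W x))
    (ho : ∀ x ∈ J, ∀ y ∈ J, x ≠ y → Ort X (W x) (W y)) :
    J.sup W ≤ R.classes ∧ Stable R.ops (J.sup W) ∧ Def X s (J.sup W) ∧
      mu l R.ops (J.sup W) = ∑ x ∈ J, mu l R.ops (W x) ∧
      ∀ V, (∀ x ∈ J, Ort X V (W x)) → Ort X V (J.sup W) := by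
  induction J using Finset.induction_on with
  | empty =>
    refine ⟨bot_le, stable_bot, def_bot s, ?_, fun V _ => ort_bot V⟩
    rw [Finset.sup_empty, mu_bot, Finset.sum_empty]
  | insert a J ha ih =>
    obtain ⟨i1, i2, i3, i4, i5⟩ := ih (fun x hx => hd x (Finset.mem_insert_of_mem hx))
      (fun x hx y hy => ho x (Finset.mem_insert_of_mem hx) y (Finset.mem_insert_of_mem hy))
    have h1 := hd a (Finset.mem_insert_self a J)
    have h2 : Ort X (W a) (J.sup W) := i5 _ fun x hx => ho a (Finset.mem_insert_self a J) x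
      (Finset.mem_insert_of_mem hx) fun h => ha (h ▸ hx)
    rw [Finset.sup_insert]
    have f0 := R.finite_classes
    have f1 : FiniteDimensional ℚ (W a) := Submodule.finiteDimensional_of_le (hW a)
    have f2 : FiniteDimensional ℚ (J.sup W : Submodule ℚ A) :=
      Submodule.finiteDimensional_of_le i1
    refine ⟨sup_le (hW a) i1, stable_sup (hst a) i2, h1.sup (hW a) i1 (hst a) i2 i3 h2, ?_, ?_⟩
    · rw [mu_sup (hst a) i2 (h1.disjoint_of_ort hs (hW a) i1 (hst a) i2 h2), i4,
        Finset.sum_insert ha]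
    · intro V hV
      exact (hV a (Finset.mem_insert_self a J)).sup_right
        (i5 V fun x hx => hV x (Finset.mem_insert_of_mem hx))

end

end

end Pool.Agent.Hodge7
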