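import Pool.Agent.Helper40.HS.Low
import Pool.Agent.Helper40.HS.Nums

/-!
# Degrees zero, one and two
-/

set_option autoImplicit false

namespace Pool.Agent.Hodge7

open Pool.Agent.Hodge81 Module TensorProduct Pool.Agent.Helper40.TH Pool.Agent.Helper40.HS
  Pool.Agent.Helper87.RF HodgeRing Complex

section

variable {n : ℕ} {A : Type*} [Ring A] [Algebra ℂ A] [Module ℚ A] {X : HodgeRing n A}

namespace RationalCohomology

variable (R : RationalCohomology X)

/-- if the forms span the cohomology of degree `j`, they are all of it -/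
theorem forms_eq_H {j : ℕ} (h : degree X j ≤ Submodule.span ℂ (R.forms j : Set A)) :
    R.forms j = R.H j := by
  apply le_antisymm (R.forms_le j)
  intro r hr
  obtain ⟨lam, hlam⟩ := exists_one
  have h1 := R.coef_mem lam (R.forms_classes j) (h (R.le_degree hr))
  have h2 := R.coef_smul_of_mem lam 1 hr
  rw [one_smul, hlam, one_smul] at h2
  rwa [h2] at h1

theorem forms_zero : R.forms 0 = R.H 0 := by
  refine R.forms_eq_H (iSup₂_le fun x hx => ?_)
  rw [show x.1 = 0 by omega, show x.2 = 0 by omega]
  exact R.H_le_forms 0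

theorem forms_one : R.forms 1 = R.H 1 := by
  refine R.forms_eq_H (iSup₂_le fun x hx => ?_)
  rcases Nat.eq_zero_or_pos x.1 with h | h
  · rw [h, show x.2 = 1 by omega]
    exact R.H_le_forms 1
  · rw [show x.1 = 1 by omega, show x.2 = 0 by omega]
    intro v hv
    have h1 := R.H_le_forms 1 (X.conj_mem _ _ _ hv)
    have h2 := conj_span (X := X) (W := R.forms 1)
      (fun r hr => R.real 1 r (R.forms_le 1 hr)) h1
    rwa [X.conj_conj] at h2

theorem divisors_le : R.divisors ≤ R.H 2 := inf_le_left

theorem divisors_ops (x : ℤ × (ℂ →ₗ[ℚ] ℚ)) {v : A} (hv : v ∈ R.divisors) :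
    R.ops x v = (if x.1 = 0 then x.2 1 else 0) • v := by
  rw [R.ops_apply]
  by_cases h : x.1 = 0
  · rw [if_pos h, X.part_of_mem (p := 1) (q := 1) hv.2 (by simp [colSet, h])]
    have h2 := R.coef_smul_of_mem x.2 1 hv.1
    rwa [one_smul] at h2
  · rw [if_neg h, X.part_of_notMem (p := 1) (q := 1) hv.2 (by
      simp only [colSet, Set.mem_ofPred_eq]
      intro h2
      apply h
      rw [← h2]
      norm_num), map_zero, zero_smul]

theorem divisors_stable : Stable R.ops R.divisors := by
  intro x v hv
  rw [R.divisors_ops x hv]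
  exact Submodule.smul_mem _ _ hv

theorem divisors_part {v : A} (hv : v ∈ R.divisors) :
    X.part (colSet (-((2 : ℕ) : ℤ))) v = 0 :=
  X.part_of_notMem (p := 1) (q := 1) hv.2 (by
    simp only [colSet, Set.mem_ofPred_eq]
    norm_num)

/-- classes of degree two without `(0,2)` component are divisors -/
theorem mem_divisors_of {v : A} (hv : v ∈ R.H 2)
    (h : X.part (colSet (-((2 : ℕ) : ℤ))) v = 0) : v ∈ R.divisors := by
  obtain ⟨b0, h0, b1, h1, b2, h2, he⟩ := exists_parts X (R.le_degree hv)
  have c0 : X.part (colSet (-((2 : ℕ) : ℤ))) b0 = 0 := X.part_of_notMem h0 (by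
    simp only [colSet, Set.mem_ofPred_eq]
    norm_num)
  have c1 : X.part (colSet (-((2 : ℕ) : ℤ))) b1 = 0 := X.part_of_notMem h1 (by
    simp only [colSet, Set.mem_ofPred_eq]
    norm_num)
  have c2 : X.part (colSet (-((2 : ℕ) : ℤ))) b2 = b2 := X.part_of_mem h2 (by
    simp only [colSet, Set.mem_ofPred_eq]
    norm_num)
  have e2 : b2 = 0 := by
    rw [he, map_add, map_add, c0, c1, c2] at h
    simpa using h
  have d0 : X.part (colSet (-((2 : ℕ) : ℤ))) (X.conj b0) = X.conj b0 :=
    X.part_of_mem (X.conj_mem _ _ _ h0) (by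
      simp only [colSet, Set.mem_ofPred_eq]
      norm_num)
  have d1 : X.part (colSet (-((2 : ℕ) : ℤ))) (X.conj b1) = 0 :=
    X.part_of_notMem (X.conj_mem _ _ _ h1) (by
      simp only [colSet, Set.mem_ofPred_eq]
      norm_num)
  have e0 : b0 = 0 := by
    have h3 := R.real 2 v hv
    rw [he, e2, add_zero, map_add] at h3
    have h4 := congrArg (X.part (colSet (-((2 : ℕ) : ℤ)))) h3
    rw [map_add, map_add, d0, d1, c0, c1, add_zero, add_zero] at h4
    rw [← X.conj_conj b0, h4, map_zero]
  refine ⟨hv, ?_⟩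
  rw [he, e0, e2, zero_add, add_zero]
  exact h1

variable [FiniteDimensional ℂ A]

theorem disjoint_divisors : Disjoint (R.forms 2) R.divisors := by
  rw [disjoint_iff]
  exact R.forms_eq_bot inf_le_left (stable_inf (R.forms_stable 2) R.divisors_stable)
    fun v hv => R.divisors_part hv.2

theorem sup_divisors : R.forms 2 ⊔ R.divisors = R.H 2 := by
  obtain ⟨C, hC, hst, hd, hs⟩ := (R.cr_H 2).2 _ (R.forms_le 2) (R.forms_stable 2)
  apply le_antisymm (sup_le (R.forms_le 2) R.divisors_le)
  rw [← hs]
  refine sup_le_sup_left ?_ _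
  intro c hc
  exact R.mem_divisors_of (hC hc) (R.compl_zero hC hst hd (Submodule.subset_span hc))

variable {L : Type*} [AddCommGroup L] [Module ℚ L] [FiniteDimensional ℚ L]
  (l : ℤ × (ℂ →ₗ[ℚ] ℚ) → Module.End ℚ L)

theorem mu_two : mu l R.ops (R.H 2) = mu l R.ops (R.forms 2) + mu l R.ops R.divisors := by
  have := R.finite 2
  have f1 : FiniteDimensional ℚ (R.forms 2) := Submodule.finiteDimensional_of_le (R.forms_le 2)
  have f2 : FiniteDimensional ℚ R.divisors := Submodule.finiteDimensional_of_le R.divisors_le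
  rw [← R.sup_divisors]
  exact mu_sup (R.forms_stable 2) R.divisors_stable R.disjoint_divisors

end RationalCohomology

end

section

variable {n : ℕ} {A B : Type*} [Ring A] [Algebra ℂ A] [Module ℚ A] [Ring B] [Algebra ℂ B]
  [Module ℚ B] {X : HodgeRing n A} {Y : HodgeRing n B} {P : PolyvectorAction X}
  {Q : PolyvectorAction Y} {phi : A ≃ₗ[ℂ] B}
  {R : RationalCohomology X} {S : RationalCohomology Y}

theorem mu_divisors {L : Type*} [AddCommGroup L] [Module ℚ L] [FiniteDimensional ℚ L]
    (l : ℤ × (ℂ →ₗ[ℚ] ℚ) → Module.End ℚ L) (h : R.picard = S.picard) :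
    mu l R.ops R.divisors = mu l S.ops S.divisors := by
  have := R.finite 2
  have := S.finite 2
  have f1 : FiniteDimensional ℚ R.divisors := Submodule.finiteDimensional_of_le R.divisors_le
  have f2 : FiniteDimensional ℚ S.divisors := Submodule.finiteDimensional_of_le S.divisors_le
  let e : R.divisors ≃ₗ[ℚ] S.divisors := LinearEquiv.ofFinrankEq _ _ h
  rw [mu_eq R.divisors_stable, mu_eq S.divisors_stable]
  refine finrank_homs_equiv e fun i v => ?_
  apply Subtype.ext
  have h1 : res R.ops R.divisors_stable i v = (if i.1 = 0 then i.2 1 else 0) • v :=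
    Subtype.ext (R.divisors_ops i v.2)
  have h2 : (res S.ops S.divisors_stable i (e v) : B) = (if i.1 = 0 then i.2 1 else 0) • (e v : B) :=
    S.divisors_ops i (e v).2
  rw [h1, LinearEquiv.coe_coe, map_smul, h2]
  rfl

theorem HodgeIso.symm {V : Submodule ℚ A} {W : Submodule ℚ B} (h : HodgeIso X Y V W) :
    HodgeIso Y X W V := by
  obtain ⟨e, h1, h2⟩ := h
  refine ⟨e.symm, fun w => ?_, fun p q w => ?_⟩
  · rw [h1, LinearEquiv.apply_symm_apply]
  · rw [h2, LinearEquiv.apply_symm_apply]

theorem picard_le_of_iso (h : HodgeIso X Y (R.H 2) (S.H 2)) : R.picard ≤ S.picard := by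
  obtain ⟨e, h1, h2⟩ := h
  have := S.finite 2
  have f2 : FiniteDimensional ℚ S.divisors := Submodule.finiteDimensional_of_le S.divisors_le
  let f : R.divisors →ₗ[ℚ] S.divisors :=
    { toFun := fun v => ⟨e ⟨v, Submodule.subset_span v.2.1⟩, (h1 _).1 v.2.1, (h2 1 1 _).1 v.2.2⟩
      map_add' := fun v w => by
        apply Subtype.ext
        have : (⟨((v + w : R.divisors) : A), Submodule.subset_span (v + w).2.1⟩ :
            Submodule.span ℂ (R.H 2 : Set A)) =
            ⟨v, Submodule.subset_span v.2.1⟩ + ⟨w, Submodule.subset_span w.2.1⟩ := rfl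
        change (e ⟨((v + w : R.divisors) : A), _⟩ : B) = _
        rw [this, map_add]
        rfl
      map_smul' := fun c v => by
        apply Subtype.ext
        have : (⟨((c • v : R.divisors) : A), Submodule.subset_span (c • v).2.1⟩ :
            Submodule.span ℂ (R.H 2 : Set A)) =
            (c : ℂ) • ⟨v, Submodule.subset_span v.2.1⟩ := Subtype.ext (by
          change c • (v : A) = (c : ℂ) • (v : A)
          rw [Rat.cast_smul_eq_qsmul])
        change (e ⟨((c • v : R.divisors) : A), _⟩ : B) = _
        rw [this, map_smul, Submodule.coe_smul, Rat.cast_smul_eq_qsmul]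
        rfl }
  refine LinearMap.finrank_le_finrank_of_injective (f := f) ?_
  rw [injective_iff_map_eq_zero]
  intro v hv
  have h3 : (e ⟨v, Submodule.subset_span v.2.1⟩ : B) = 0 := congrArg Subtype.val hv
  have h4 := e.map_eq_zero_iff.1 (Subtype.ext h3)
  have h5 : (v : A) = 0 := congrArg Subtype.val h4
  exact Subtype.ext h5

theorem picard_eq_of_iso (h : HodgeIso X Y (R.H 2) (S.H 2)) : R.picard = S.picard :=
  le_antisymm (picard_le_of_iso h) (picard_le_of_iso h.symm)

end

section

variable {ι K : Type*} [Field K] {L V W : Type*} [AddCommGroup L] [Module K L]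
  [FiniteDimensional K L] [AddCommGroup V] [Module K V] [AddCommGroup W] [Module K W]
  {l : ι → Module.End K L} {v : ι → Module.End K V} {w : ι → Module.End K W}

theorem mu_le_of_emb {S : Submodule K V} {T : Submodule K W} [FiniteDimensional K T]
    (hS : Stable v S) (hT : Stable w T) (h : Emb (res v hS) (res w hT)) :
    mu l v S ≤ mu l w T := by
  rw [mu_eq hS, mu_eq hT]
  obtain ⟨g, hg, gi⟩ := h
  let f : homs l (res v hS) →ₗ[K] homs l (res w hT) :=
    { toFun := fun a => ⟨g ∘ₗ a.1, homs_comp a.2 hg⟩
      map_add' := fun a b => by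
        apply Subtype.ext
        ext z
        simp
      map_smul' := fun c a => by
        apply Subtype.ext
        ext z
        simp }
  refine LinearMap.finrank_le_finrank_of_injective (f := f) ?_
  intro a b hab
  apply Subtype.ext
  apply LinearMap.ext
  intro z
  have := congrArg (fun q : homs l (res w hT) => q.1 z) hab
  exact gi this

end

end Pool.Agent.Hodge7
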